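import Pool.Agent.Helper16.Wheel.Build

set_option linter.unusedSectionVars false

namespace Pool.Agent.Helper16.Wheel

open Finset

section
variable {ι : Type*} [Fintype ι] [DecidableEq ι] {m : ℤ} {pos : ι → Option ℤ}
  {ψ ψ' ψ'' : ι → ℤ → Bool} {k : ℕ}

lemma same_of_types (hψ : Valid m false pos ψ) (hψ' : Valid m false pos ψ')
    (h : ∀ g, cnt (Tset pos 0) ψ g + cnt (Tset pos 1) ψ g + cnt (Tset pos 2) ψ g =
      cnt (Tset pos 0) ψ' g + cnt (Tset pos 1) ψ' g + cnt (Tset pos 2) ψ' g) :
    Same m false pos ψ ψ' :=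
  ⟨hψ, hψ', fun g => by rw [cnt_univ pos, cnt_univ pos, h g]⟩

lemma okT {lam : ι → ℤ} (hok : OKlam m (mk' pos) (tt pos) lam) {t : ℕ} (ht : t ≠ 1) :
    OKlam m (Tset pos t) (tt pos) lam := by
  intro c hc
  apply hok c
  rw [mem_Tset] at hc
  simp only [mk', mem_filter, mem_univ, true_and]
  intro h
  rw [ty_one.2 h] at hc
  exact ht hc.symm

lemma combine (hm : 0 < m) (hme : Even m) {lam g1 g2 u1 u2 : ι → ℤ} {κ κ2 : ι → Bool} {dg du : ℕ}
    {dk : ℤ} (hok : OKlam m (mk' pos) (tt pos) lam)
    (hg1 : OKlam m (Tset pos 2) (tt pos) g1) (hg2 : OKlam m (Tset pos 2) (tt pos) g2)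
    (cg1 : ∀ g, cov m (Tset pos 2) (tt pos) g1 g = cov m (Tset pos 2) (tt pos) lam g)
    (cg2 : ∀ g, cov m (Tset pos 2) (tt pos) g2 g + dg = cov m (Tset pos 2) (tt pos) lam g)
    (hu1 : OKlam m (Tset pos 0) (tt pos) u1) (hu2 : OKlam m (Tset pos 0) (tt pos) u2)
    (cu1 : ∀ g, cov m (Tset pos 0) (tt pos) u1 g = cov m (Tset pos 0) (tt pos) lam g)
    (cu2 : ∀ g, cov m (Tset pos 0) (tt pos) u2 g + du = cov m (Tset pos 0) (tt pos) lam g)
    (hk : (((Tset pos 1).filter (fun c => κ2 c = true)).card : ℤ) =
      ((Tset pos 1).filter (fun c => κ c = true)).card + dk)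
    (hsum : (du : ℤ) + dk = dg) (D : Finset ι) (hD : D.card ≤ 4)
    (hD' : ∀ c, c ∉ D → g1 c = g2 c ∧ u1 c = u2 c ∧ κ c = κ2 c) :
    ∃ lam1, OKlam m (mk' pos) (tt pos) lam1 ∧
      Conn m false pos 4 (build m pos lam κ) (build m pos lam1 κ2) ∧
      (∀ g, cnt (Tset pos 2) (build m pos lam1 κ2) g + dg =
        cnt (Tset pos 2) (build m pos lam κ) g) ∧
      (∀ g, cnt (Tset pos 0) (build m pos lam1 κ2) g =
        cnt (Tset pos 0) (build m pos lam κ) g + du) := by
  set l1 : ι → ℤ := fun c => if ty pos c = 2 then g1 c else u1 c with hl1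
  set l2 : ι → ℤ := fun c => if ty pos c = 2 then g2 c else u2 c with hl2
  have c21 : ∀ c ∈ Tset pos 2, l1 c = g1 c := by intro c hc; rw [mem_Tset] at hc; simp [hl1, hc]
  have c22 : ∀ c ∈ Tset pos 2, l2 c = g2 c := by intro c hc; rw [mem_Tset] at hc; simp [hl2, hc]
  have c01 : ∀ c ∈ Tset pos 0, l1 c = u1 c := by intro c hc; rw [mem_Tset] at hc; simp [hl1, hc]
  have c02 : ∀ c ∈ Tset pos 0, l2 c = u2 c := by intro c hc; rw [mem_Tset] at hc; simp [hl2, hc]
  have hmem : ∀ c, c ∈ mk' pos → c ∈ Tset pos 2 ∨ c ∈ Tset pos 0 := by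
    intro c hc
    have hc' : pos c ≠ none := by simpa [mk'] using hc
    rw [mem_Tset, mem_Tset]
    rcases ty_cases (pos := pos) c with h | h | h
    · exact Or.inr h
    · exact absurd (ty_one.1 h) hc'
    · exact Or.inl h
  have ok1 : OKlam m (mk' pos) (tt pos) l1 := by
    intro c hc
    rcases hmem c hc with h | h
    · rw [c21 c h]; exact hg1 c h
    · rw [c01 c h]; exact hu1 c h
  have ok2 : OKlam m (mk' pos) (tt pos) l2 := by
    intro c hc
    rcases hmem c hc with h | h
    · rw [c22 c h]; exact hg2 c h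
    · rw [c02 c h]; exact hu2 c h
  have v0 := valid_build (κ := κ) hm hme hok
  have v1 := valid_build (κ := κ) hm hme ok1
  have v2 := valid_build (κ := κ2) hm hme ok2
  -- counts
  have n1 : ∀ t g, cnt (Tset pos t) (build m pos lam κ) g = cnt (Tset pos t) (build m pos l1 κ) g := by
    intro t g
    by_cases h0 : t = 0
    · subst h0
      have := cnt0_build (m := m) (pos := pos) (lam := lam) (κ := κ) g
      have := cnt0_build (m := m) (pos := pos) (lam := l1) (κ := κ) g
      have := cov_congr (m := m) (t := tt pos) c01 g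
      have := cu1 g
      omega
    by_cases h1 : t = 1
    · subst h1; rw [cnt1_build, cnt1_build]
    by_cases h2 : t = 2
    · subst h2; rw [cnt2_build, cnt2_build, cov_congr c21, cg1]
    · have : Tset pos t = ∅ := by
        rw [Finset.eq_empty_iff_forall_notMem]
        intro c hc
        rw [mem_Tset] at hc
        have := ty_cases (pos := pos) c
        omega
      simp [cnt, this]
  have s1 : Same m false pos (build m pos lam κ) (build m pos l1 κ) :=
    same_of_types v0 v1 (fun g => by rw [n1 0, n1 1, n1 2])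
  have conn1 : Conn m false pos 2 (build m pos lam κ) (build m pos l1 κ) :=
    conn_of_types hm hme s1 0 (fun t => n1 t 0)
  have e2 : ∀ g, cnt (Tset pos 2) (build m pos l2 κ2) g + dg =
        cnt (Tset pos 2) (build m pos lam κ) g := by
    intro g
    rw [cnt2_build, cnt2_build, cov_congr c22, cg2]
  have e0 : ∀ g, cnt (Tset pos 0) (build m pos l2 κ2) g =
        cnt (Tset pos 0) (build m pos lam κ) g + du := by
    intro g
    have := cnt0_build (m := m) (pos := pos) (lam := lam) (κ := κ) g
    have := cnt0_build (m := m) (pos := pos) (lam := l2) (κ := κ2) g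
    have := cov_congr (m := m) (t := tt pos) c02 g
    have := cu2 g
    omega
  have s2 : Same m false pos (build m pos l1 κ) (build m pos l2 κ2) := by
    refine same_of_types v1 v2 (fun g => ?_)
    rw [← n1, ← n1, ← n1]
    have a0 := e0 g
    have a2 := e2 g
    have a1 : (cnt (Tset pos 1) (build m pos l2 κ2) g : ℤ) =
        cnt (Tset pos 1) (build m pos lam κ) g + dk := by
      rw [cnt1_build, cnt1_build, hk]
    omega
  refine ⟨l2, ok2, (conn1.mono (by omega)).trans (Step.conn ⟨s2, D, hD, ?_⟩), e2, e0⟩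
  intro c hc
  obtain ⟨h1, h2, h3⟩ := hD' c hc
  funext g
  simp [build, hl1, hl2, h1, h2, h3]

lemma exists_lower (hm : 0 < m) (hme : Even m) {lam : ι → ℤ} {t : ℕ} (ht : t ≠ 1)
    (hok : OKlam m (mk' pos) (tt pos) lam)
    (hcov : ∀ g, 1 ≤ cov m (Tset pos t) (tt pos) lam g) :
    ∃ l1 l2 : ι → ℤ, OKlam m (Tset pos t) (tt pos) l1 ∧ OKlam m (Tset pos t) (tt pos) l2 ∧
        (∀ g, cov m (Tset pos t) (tt pos) l1 g = cov m (Tset pos t) (tt pos) lam g) ∧
        (∀ g, cov m (Tset pos t) (tt pos) l2 g + 1 = cov m (Tset pos t) (tt pos) lam g) ∧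
        ∃ a b, ∀ c, c ≠ a → c ≠ b → l1 c = l2 c := by
  have h0 := hcov 0
  unfold cov at h0
  obtain ⟨c, hc⟩ := Finset.card_pos.1 h0
  rw [Finset.mem_filter] at hc
  obtain ⟨l1, l2, h1, h2, -, h4, h5, h6⟩ := arc_lemma hm hme (Tset pos t) (tt pos) (by
    intro c hc c' hc'
    rw [mem_Tset] at hc hc'
    have n1 : pos c ≠ none := by
      intro h; rw [ty_one.2 h] at hc; exact ht hc.symm
    have n2 : pos c' ≠ none := by
      intro h; rw [ty_one.2 h] at hc'; exact ht hc'.symm
    rw [ty_tt n1] at hc
    rw [ty_tt n2] at hc'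
    rw [Int.even_sub]
    split_ifs at hc with e1 <;> split_ifs at hc' with e2
    · simp [e1, e2]
    · omega
    · omega
    · simp [e1, e2]) _ lam (okT hok ht) hcov c hc.1 rfl
  exact ⟨l1, l2, h1, h2, h4, h5, h6⟩

theorem shift (hm : 0 < m) (hme : Even m) {lam lam' : ι → ℤ} {κ κ' : ι → Bool}
    (hok : OKlam m (mk' pos) (tt pos) lam) 
    (hs : Same m false pos (build m pos lam κ) (build m pos lam' κ')) {a b : ℤ}
    (ha : ∀ g, (cnt (Tset pos 0) (build m pos lam' κ') g : ℤ) =
      cnt (Tset pos 0) (build m pos lam κ) g + a)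
    (hb : ∀ g, (cnt (Tset pos 2) (build m pos lam κ) g : ℤ) =
      cnt (Tset pos 2) (build m pos lam' κ') g + b)
    (hab : 0 < a ∨ (a = 0 ∧ 0 < b)) :
    ∃ lam1 κ1 a1 b1, OKlam m (mk' pos) (tt pos) lam1 ∧
      Conn m false pos 4 (build m pos lam κ) (build m pos lam1 κ1) ∧
      (∀ g, (cnt (Tset pos 0) (build m pos lam' κ') g : ℤ) =
        cnt (Tset pos 0) (build m pos lam1 κ1) g + a1) ∧
      (∀ g, (cnt (Tset pos 2) (build m pos lam1 κ1) g : ℤ) =
        cnt (Tset pos 2) (build m pos lam' κ') g + b1) ∧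
      a1.natAbs + b1.natAbs < a.natAbs + b.natAbs := by
  have hN : ∀ g, (cnt (Tset pos 1) (build m pos lam κ) g : ℤ) =
      cnt (Tset pos 1) (build m pos lam' κ') g + a - b := by
    intro g
    have h1 := hs.cnt g
    rw [cnt_univ pos, cnt_univ pos] at h1
    have h2 := ha g
    have h3 := hb g
    omega
  have covG : 0 < b → ∀ g, 1 ≤ cov m (Tset pos 2) (tt pos) lam g := by
    intro hb0 g
    rw [← cnt2_build (κ := κ)]
    have := hb g
    omega
  have covL : 0 < a → ∀ g, 1 ≤ cov m (Tset pos 0) (tt pos) lam g := by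
    intro ha0 g
    have h1 := cnt0_build (m := m) (pos := pos) (lam := lam) (κ := κ) g
    have h2 := cnt_le (ψ := build m pos lam' κ') (Tset pos 0) g
    have h3 := ha g
    omega
  have okG := okT hok (show (2 : ℕ) ≠ 1 by omega)
  have okL := okT hok (show (0 : ℕ) ≠ 1 by omega)
  by_cases ha0 : 0 < a
  · obtain ⟨u1, u2, hu1, hu2, cu1, cu2, a1, a2, haa⟩ := exists_lower hm hme (by omega) hok
      (covL ha0)
    by_cases hb0 : 0 < b
    · obtain ⟨g1, g2, hg1, hg2, cg1, cg2, b1, b2, hbb⟩ := exists_lower hm hme (by omega) hok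
        (covG hb0)
      obtain ⟨lam1, k1, k2, k3, k4⟩ := combine (κ := κ) (κ2 := κ) (dg := 1) (du := 1) (dk := 0)
        hm hme hok hg1 hg2 cg1 cg2 hu1 hu2 cu1 cu2 (by simp) (by simp)
        ({a1, a2, b1, b2} : Finset ι) Finset.card_le_four (by
          intro c hc
          simp only [mem_insert, mem_singleton, not_or] at hc
          exact ⟨hbb c hc.2.2.1 hc.2.2.2, haa c hc.1 hc.2.1, rfl⟩)
      refine ⟨lam1, κ, a - 1, b - 1, k1, k2, ?_, ?_, by omega⟩
      · intro g
        have := ha g
        have := k4 g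
        omega
      · intro g
        have := hb g
        have := k3 g
        omega
    · -- S2
      have h1 := hN 0
      rw [cnt1_build] at h1
      have hpos : 0 < ((Tset pos 1).filter (fun c => κ c = true)).card := by omega
      obtain ⟨c0, hc0⟩ := Finset.card_pos.1 hpos
      have hfil : (Tset pos 1).filter (fun c => (Function.update κ c0 false) c = true) =
          ((Tset pos 1).filter (fun c => κ c = true)).erase c0 := by
        ext c
        by_cases hcc : c = c0
        · subst hcc; simp
        · simp [Function.update_of_ne hcc, hcc]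
      obtain ⟨lam1, k1, k2, k3, k4⟩ := combine (κ := κ) (κ2 := Function.update κ c0 false)
        (dg := 0) (du := 1) (dk := -1)
        hm hme hok okG okG (fun _ => rfl) (fun _ => rfl) hu1 hu2 cu1 cu2 (by
          rw [hfil, Finset.card_erase_of_mem hc0]; omega) (by simp)
        ({a1, a2, c0} : Finset ι) (Finset.card_le_three.trans (by omega)) (by
          intro c hc
          simp only [mem_insert, mem_singleton, not_or] at hc
          exact ⟨rfl, haa c hc.1 hc.2.1, by rw [Function.update_of_ne hc.2.2]⟩)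
      refine ⟨lam1, _, a - 1, b, k1, k2, ?_, ?_, by omega⟩
      · intro g
        have := ha g
        have := k4 g
        omega
      · intro g
        have := hb g
        have := k3 g
        omega
  · -- S1
    have ha1 : a = 0 := by omega
    have hb0 : 0 < b := by omega
    obtain ⟨g1, g2, hg1, hg2, cg1, cg2, b1, b2, hbb⟩ := exists_lower hm hme (by omega) hok
      (covG hb0)
    have h1 := hN 0
    rw [cnt1_build] at h1
    have hle := cnt_le (ψ := build m pos lam' κ') (Tset pos 1) 0
    have hex : ∃ c0 ∈ Tset pos 1, κ c0 = false := by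
      by_contra hcon
      push Not at hcon
      have : (Tset pos 1).filter (fun c => κ c = true) = Tset pos 1 := by
        apply Finset.filter_true_of_mem
        intro c hc
        simpa using hcon c hc
      rw [this] at h1
      omega
    obtain ⟨c0, hc0, hκ⟩ := hex
    have hfil : (Tset pos 1).filter (fun c => (Function.update κ c0 true) c = true) =
        insert c0 ((Tset pos 1).filter (fun c => κ c = true)) := by
      ext c
      by_cases hcc : c = c0
      · subst hcc; simp [hc0]
      · simp [Function.update_of_ne hcc, hcc]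
    obtain ⟨lam1, k1, k2, k3, k4⟩ := combine (κ := κ) (κ2 := Function.update κ c0 true)
      (dg := 1) (du := 0) (dk := 1)
      hm hme hok hg1 hg2 cg1 cg2 okL okL (fun _ => rfl) (fun _ => rfl) (by
        rw [hfil, Finset.card_insert_of_notMem (by simp [hκ])]; push_cast; rfl) (by simp)
      ({b1, b2, c0} : Finset ι) (Finset.card_le_three.trans (by omega)) (by
        intro c hc
        simp only [mem_insert, mem_singleton, not_or] at hc
        exact ⟨hbb c hc.1 hc.2.1, rfl, by rw [Function.update_of_ne hc.2.2]⟩)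
    refine ⟨lam1, _, a, b - 1, k1, k2, ?_, ?_, by omega⟩
    · intro g
      have := ha g
      have := k4 g
      omega
    · intro g
      have := hb g
      have := k3 g
      omega

theorem conn_builds (hm : 0 < m) (hme : Even m) : ∀ (n : ℕ) (lam lam' : ι → ℤ) (κ κ' : ι → Bool)
    (a b : ℤ), OKlam m (mk' pos) (tt pos) lam → OKlam m (mk' pos) (tt pos) lam' →
    Same m false pos (build m pos lam κ) (build m pos lam' κ') →
    (∀ g, (cnt (Tset pos 0) (build m pos lam' κ') g : ℤ) =
      cnt (Tset pos 0) (build m pos lam κ) g + a) →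
    (∀ g, (cnt (Tset pos 2) (build m pos lam κ) g : ℤ) =
      cnt (Tset pos 2) (build m pos lam' κ') g + b) → a.natAbs + b.natAbs = n →
    Conn m false pos 4 (build m pos lam κ) (build m pos lam' κ') := by
  intro n
  induction n using Nat.strong_induction_on with
  | _ n ih =>
    intro lam lam' κ κ' a b hok hok' hs ha hb hn
    by_cases hab : 0 < a ∨ (a = 0 ∧ 0 < b)
    · obtain ⟨lam1, κ1, a1, b1, k1, k2, k3, k4, k5⟩ := shift hm hme hok hs ha hb hab
      exact k2.trans (ih _ (hn ▸ k5) lam1 lam' κ1 κ' a1 b1 k1 hok'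
        ((k2.same hs.left).symm.trans hs) k3 k4 rfl)
    by_cases hab' : 0 < -a ∨ (-a = 0 ∧ 0 < -b)
    · obtain ⟨lam1, κ1, a1, b1, k1, k2, k3, k4, k5⟩ := shift (a := -a) (b := -b) hm hme hok' hs.symm
        (fun g => by have := ha g; omega) (fun g => by have := hb g; omega) hab'
      rw [Int.natAbs_neg, Int.natAbs_neg] at k5
      exact (k2.trans (ih _ (hn ▸ k5) lam1 lam κ1 κ a1 b1 k1 hok
        ((k2.same hs.right).symm.trans hs.symm) k3 k4 rfl)).symm
    · have ha0 : a = 0 := by omega
      have hb0 : b = 0 := by omega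
      subst ha0 hb0
      refine (conn_of_types hm hme hs 0 (fun t => ?_)).mono (by omega)
      have u := hs.cnt 0
      rw [cnt_univ pos, cnt_univ pos] at u
      have h2 := ha 0
      have h3 := hb 0
      by_cases h0 : t = 0
      · subst h0; omega
      by_cases h1 : t = 1
      · subst h1; omega
      by_cases h2 : t = 2
      · subst h2; omega
      · have : Tset pos t = ∅ := by
          rw [Finset.eq_empty_iff_forall_notMem]
          intro c hc
          rw [mem_Tset] at hc
          have := ty_cases (pos := pos) c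
          omega
        simp [cnt, this]

/-- In the annulus case (`m` even) every fiber is connected by moves changing four rows. -/
theorem annulus (hm : 1 < m) (hme : Even m) (hs : Same m false pos ψ ψ') :
    Conn m false pos 4 ψ ψ' := by
  have hm0 : 0 < m := by omega
  obtain ⟨φ, c1, r1⟩ := exists_rmin hm hme _ ψ hs.left rfl
  obtain ⟨φ', c2, r2⟩ := exists_rmin hm hme _ ψ' hs.right rfl
  have hs' : Same m false pos φ φ' :=
    ((c1.same hs.left).symm.trans hs).trans (c2.same hs.right)
  obtain ⟨a, b, ha, hb, hF⟩ := rmin_dichotomy hm0 hme hs' r1 r2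
  have main : Conn m false pos 4 φ φ' := by
    by_cases hab : a ≠ 0 ∨ b ≠ 0
    · obtain ⟨f1, f2⟩ := hF hab
      obtain ⟨lam, κ, ok, rfl⟩ := exists_build hm0 hme hs'.left f1
      obtain ⟨lam', κ', ok', rfl⟩ := exists_build hm0 hme hs'.right f2
      exact conn_builds hm0 hme _ lam lam' κ κ' a b ok ok' hs' ha hb rfl
    · push Not at hab
      obtain ⟨rfl, rfl⟩ := hab
      refine (conn_of_types hm0 hme hs' 0 (fun t => ?_)).mono (by omega)
      have u := hs'.cnt 0
      rw [cnt_univ pos, cnt_univ pos] at u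
      have h2 := ha 0
      have h3 := hb 0
      by_cases h0 : t = 0
      · subst h0; omega
      by_cases h1 : t = 1
      · subst h1; omega
      by_cases h2 : t = 2
      · subst h2; omega
      · have : Tset pos t = ∅ := by
          rw [Finset.eq_empty_iff_forall_notMem]
          intro c hc
          rw [mem_Tset] at hc
          have := ty_cases (pos := pos) c
          omega
        simp [cnt, this]
  exact ((c1.mono (by omega)).trans main).trans (c2.mono (by omega)).symm

end

end Pool.Agent.Helper16.Wheel
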