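import Pool.Agent.Helper16.Wheel.Rec

set_option linter.unusedSectionVars false

namespace Pool.Agent.Helper16.Wheel

open Finset

section
variable {ι : Type*} [DecidableEq ι] {m : ℤ}

/-- number of arcs of `S` covering the gap `g` -/
def cov (m : ℤ) (S : Finset ι) (t lam : ι → ℤ) (g : ℤ) : ℕ :=
  (S.filter (fun c => arc m (t c) (lam c - t c) g)).card

def OKlam (m : ℤ) (S : Finset ι) (t lam : ι → ℤ) : Prop :=
  ∀ c ∈ S, t c < lam c ∧ lam c < t c + m ∧ Odd (lam c - t c)

lemma arc_ind (hm : 0 < m) {t l g : ℤ} (h1 : t < l) (h2 : l < t + m) :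
    (if arc m t (l - t) g then 1 else 0 : ℤ) = (g - t) / m - (g - l) / m := by
  have e1 := Int.emod_add_mul_ediv (g - t) m
  have e2 := Int.emod_nonneg (g - t) hm.ne'
  have e3 := Int.emod_lt_of_pos (g - t) hm
  set q := (g - t) / m with hq
  set r := (g - t) % m with hr
  have harc : arc m t (l - t) g ↔ r < l - t := by unfold arc; rw [← hr]
  by_cases h : r < l - t
  · rw [if_pos (harc.2 h)]
    have : (g - l) / m = q - 1 ∧ (g - l) % m = r - (l - t) + m := by
      rw [Int.ediv_emod_unique hm]
      refine ⟨?_, by omega, by omega⟩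
      have : m * (q - 1) = m * q - m := by ring
      omega
    rw [this.1]; ring
  · rw [if_neg (fun hh => h (harc.1 hh))]
    have : (g - l) / m = q ∧ (g - l) % m = r - (l - t) := by
      rw [Int.ediv_emod_unique hm]
      refine ⟨by omega, by omega, by omega⟩
    rw [this.1]; ring

lemma cov_eq (hm : 0 < m) {S : Finset ι} {t lam : ι → ℤ} (h : OKlam m S t lam) (g : ℤ) :
    (cov m S t lam g : ℤ) = ∑ c ∈ S, ((g - t c) / m - (g - lam c) / m) := by
  unfold cov
  rw [Finset.card_filter]
  push_cast
  apply Finset.sum_congr rfl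
  intro c hc
  exact arc_ind hm (h c hc).1 (h c hc).2.1

lemma sum_two {S : Finset ι} {f f' : ι → ℤ} {c1 c2 : ι} (h1 : c1 ∈ S) (h2 : c2 ∈ S)
    (hne : c1 ≠ c2) (h : ∀ c, c ≠ c1 → c ≠ c2 → f' c = f c) :
    ∑ c ∈ S, f' c = ∑ c ∈ S, f c + (f' c1 - f c1) + (f' c2 - f c2) := by
  have h2' : c2 ∈ S.erase c1 := Finset.mem_erase.2 ⟨hne.symm, h2⟩
  rw [← Finset.add_sum_erase S f h1, ← Finset.add_sum_erase S f' h1,
    ← Finset.add_sum_erase _ f h2', ← Finset.add_sum_erase _ f' h2']
  have : ∑ c ∈ (S.erase c1).erase c2, f' c = ∑ c ∈ (S.erase c1).erase c2, f c := by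
    apply Finset.sum_congr rfl
    intro c hc
    rw [Finset.mem_erase, Finset.mem_erase] at hc
    exact h c hc.2.1 hc.1
  rw [this]; ring

/-- **Arc lemma.** -/
theorem arc_lemma (hm : 0 < m) (hme : Even m) (S : Finset ι) (t : ι → ℤ)
    (hpar : ∀ c ∈ S, ∀ c' ∈ S, Even (t c - t c')) :
    ∀ (n : ℕ) (lam : ι → ℤ), OKlam m S t lam → (∀ g, 1 ≤ cov m S t lam g) → ∀ c1 ∈ S,
      (m - (lam c1 - t c1)).toNat = n →
      ∃ l1 l2 : ι → ℤ, OKlam m S t l1 ∧ OKlam m S t l2 ∧ (∀ c, c ∉ S → l1 c = lam c ∧ l2 c = lam c) ∧
        (∀ g, cov m S t l1 g = cov m S t lam g) ∧ (∀ g, cov m S t l2 g + 1 = cov m S t lam g) ∧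
        ∃ a b, ∀ c, c ≠ a → c ≠ b → l1 c = l2 c := by
  intro n
  induction n using Nat.strong_induction_on with
  | _ n ih =>
    intro lam hok hcov c1 hc1 hn
    have hpos := hcov (lam c1)
    unfold cov at hpos
    obtain ⟨c2, hc2⟩ := Finset.card_pos.1 hpos
    rw [Finset.mem_filter] at hc2
    obtain ⟨hc2, harc⟩ := hc2
    obtain ⟨o1, o2, o3⟩ := hok c1 hc1
    obtain ⟨p1, p2, p3⟩ := hok c2 hc2
    have hne : c1 ≠ c2 := by
      rintro rfl
      unfold arc at harc
      rw [Int.emod_eq_of_lt (by omega) (by omega)] at harc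
      omega
    unfold arc at harc
    have e1 := Int.emod_add_mul_ediv (lam c1 - t c2) m
    have e2 := Int.emod_nonneg (lam c1 - t c2) hm.ne'
    set q := (lam c1 - t c2) / m with hq
    set d := (lam c1 - t c2) % m with hd
    have hmq : Even (m * q) := hme.mul_right q
    have hp12 := hpar c1 hc1 c2 hc2
    -- parity : t2' ≠ lam c1
    have hodd1 : Odd (lam c1 - m * q - t c2) := by
      have : lam c1 - m * q - t c2 = (lam c1 - t c1) + ((t c1 - t c2) - m * q) := by ring
      rw [this]
      exact o3.add_even (hp12.sub hmq)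
    have hd0 : 0 < d := by
      rcases eq_or_lt_of_le e2 with h | h
      · exfalso
        have : lam c1 - m * q - t c2 = 0 := by omega
        rw [this] at hodd1
        simp at hodd1
      · exact h
    have hodd2 : Odd (lam c2 + m * q - t c1) := by
      have : lam c2 + m * q - t c1 = (lam c2 - t c2) + (m * q - (t c1 - t c2)) := by ring
      rw [this]
      exact p3.add_even (hmq.sub hp12)
    have hne2 : lam c2 + m * q ≠ t c1 + m := by
      intro h
      rw [h] at hodd2
      have : t c1 + m - t c1 = m := by ring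
      rw [this] at hodd2
      exact (Int.not_odd_iff_even.2 hme) hodd2
    have div1 : ∀ g, (g - (lam c1 - m * q)) / m = (g - lam c1) / m + q := by
      intro g
      rw [show g - (lam c1 - m * q) = (g - lam c1) + m * q by ring,
        Int.add_mul_ediv_left _ _ hm.ne']
    rcases lt_or_gt_of_ne hne2 with hlt | hgt
    · -- exchange
      set lam' : ι → ℤ := fun c => if c = c1 then lam c2 + m * q else
        if c = c2 then lam c1 - m * q else lam c with hlam'
      have hl1 : lam' c1 = lam c2 + m * q := by simp [hlam']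
      have hl2 : lam' c2 = lam c1 - m * q := by simp [hlam', hne.symm]
      have hl3 : ∀ c, c ≠ c1 → c ≠ c2 → lam' c = lam c := by
        intro c h1 h2; simp [hlam', h1, h2]
      have hok' : OKlam m S t lam' := by
        intro c hc
        by_cases h1 : c = c1
        · subst h1; rw [hl1]; exact ⟨by omega, by omega, hodd2⟩
        by_cases h2 : c = c2
        · subst h2; rw [hl2]; exact ⟨by omega, by omega, hodd1⟩
        rw [hl3 c h1 h2]; exact hok c hc
      have hcov' : ∀ g, cov m S t lam' g = cov m S t lam g := by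
        intro g
        have c1' := cov_eq hm hok' g
        have c2' := cov_eq hm hok g
        rw [sum_two (f := fun c => (g - t c) / m - (g - lam c) / m) hc1 hc2 hne (by
          intro c h1 h2; rw [hl3 c h1 h2]), ← c2'] at c1'
        simp only [hl1, hl2, div1] at c1'
        rw [show g - (lam c2 + m * q) = (g - lam c2) + m * (-q) by ring,
          Int.add_mul_ediv_left _ _ hm.ne'] at c1'
        omega
      obtain ⟨l1, l2, g1, g2, g3, g4, g5, g6⟩ := ih (m - (lam' c1 - t c1)).toNat (by
        rw [hl1]; omega) lam' hok' (fun g => by rw [hcov']; exact hcov g) c1 hc1 rfl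
      refine ⟨l1, l2, g1, g2, ?_, ?_, ?_, g6⟩
      · intro c hc
        have := g3 c hc
        rw [hl3 c (by rintro rfl; exact hc hc1) (by rintro rfl; exact hc hc2)] at this
        exact this
      · intro g; rw [g4, hcov']
      · intro g; rw [g5, hcov']
    · set lam' : ι → ℤ := fun c => if c = c1 then lam c2 + m * q - m else
        if c = c2 then lam c1 - m * q else lam c with hlam'
      have hl1 : lam' c1 = lam c2 + m * q - m := by simp [hlam']
      have hl2 : lam' c2 = lam c1 - m * q := by simp [hlam', hne.symm]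
      have hl3 : ∀ c, c ≠ c1 → c ≠ c2 → lam' c = lam c := by
        intro c h1 h2; simp [hlam', h1, h2]
      have hok' : OKlam m S t lam' := by
        intro c hc
        by_cases h1 : c = c1
        · subst h1; rw [hl1]
          refine ⟨by omega, by omega, ?_⟩
          have : lam c2 + m * q - m - t c = (lam c2 + m * q - t c) - m := by ring
          rw [this]
          exact hodd2.sub_even hme
        by_cases h2 : c = c2
        · subst h2; rw [hl2]; exact ⟨by omega, by omega, hodd1⟩
        rw [hl3 c h1 h2]; exact hok c hc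
      have hcov' : ∀ g, cov m S t lam' g + 1 = cov m S t lam g := by
        intro g
        have c1' := cov_eq hm hok' g
        have c2' := cov_eq hm hok g
        rw [sum_two (f := fun c => (g - t c) / m - (g - lam c) / m) hc1 hc2 hne (by
          intro c h1 h2; rw [hl3 c h1 h2]), ← c2'] at c1'
        simp only [hl1, hl2, div1] at c1'
        rw [show g - (lam c2 + m * q - m) = (g - lam c2) + m * (-q + 1) by ring,
          Int.add_mul_ediv_left _ _ hm.ne'] at c1'
        omega
      refine ⟨lam, lam', hok, hok', ?_, fun g => rfl, hcov', c1, c2, ?_⟩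
      · intro c hc
        exact ⟨rfl, hl3 c (by rintro rfl; exact hc hc1) (by rintro rfl; exact hc hc2)⟩
      · intro c h1 h2; exact (hl3 c h1 h2).symm

end

end Pool.Agent.Helper16.Wheel
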