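import Pool.Agent.Helper16.Wheel.Arc

set_option linter.unusedSectionVars false

namespace Pool.Agent.Helper16.Wheel

open Finset

section
variable {ι : Type*} [Fintype ι] [DecidableEq ι] {m : ℤ} {pos : ι → Option ℤ}
  {ψ ψ' ψ'' : ι → ℤ → Bool} {k : ℕ}

/-- position of the spoke, `0` for rows without spoke -/
def tt (pos : ι → Option ℤ) (c : ι) : ℤ := (pos c).getD 0

/-- a state given by arcs for the marked rows and constants for the unmarked rows -/
def build (m : ℤ) (pos : ι → Option ℤ) (lam : ι → ℤ) (κ : ι → Bool) : ι → ℤ → Bool :=
  fun c g => if pos c = none then κ c else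
    if arc m (tt pos c) (lam c - tt pos c) g then decide (ty pos c = 2) else !decide (ty pos c = 2)

/-- all marked rows -/
def mk' (pos : ι → Option ℤ) : Finset ι := univ.filter (fun c => pos c ≠ none)

lemma arc_step {t L j : ℤ} (hL : 0 < L) (hLm : L < m) :
    (arc m t L j → ¬ arc m t L (j - 1) → m ∣ j - t) ∧
    (¬ arc m t L j → arc m t L (j - 1) → m ∣ j - t - L) := by
  have hm : 0 < m := by omega
  have e1 := Int.emod_add_mul_ediv (j - t) m
  have e2 := Int.emod_nonneg (j - t) hm.ne'
  have e3 := Int.emod_lt_of_pos (j - t) hm
  set q := (j - t) / m with hq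
  set r := (j - t) % m with hr
  have key : r ≠ 0 → (j - 1 - t) % m = r - 1 := by
    intro h0
    have : j - 1 - t = (r - 1) + m * q := by omega
    rw [this, Int.add_mul_emod_self_left, Int.emod_eq_of_lt (by omega) (by omega)]
  constructor
  · intro h1 h2
    unfold arc at h1 h2
    rw [← hr] at h1
    have : r = 0 := by
      by_contra h0
      rw [key h0] at h2
      omega
    exact ⟨q, by omega⟩
  · intro h1 h2
    unfold arc at h1 h2
    rw [← hr] at h1
    have : r = L := by
      have h0 : r ≠ 0 := by omega
      rw [key h0] at h2
      omega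
    exact ⟨q, by omega⟩

lemma ty_tt {c : ι} (hc : pos c ≠ none) : ty pos c = if Even (tt pos c) then 2 else 0 := by
  obtain ⟨s, hs⟩ := Option.ne_none_iff_exists'.1 hc
  simp [ty, tt, hs]

lemma mark_iff_tt {c : ι} (hc : pos c ≠ none) (j : ℤ) : Mark m pos c j ↔ m ∣ j - tt pos c := by
  obtain ⟨s, hs⟩ := Option.ne_none_iff_exists'.1 hc
  simp [Mark, tt, hs]

theorem valid_build (hm : 0 < m) (hme : Even m) {lam : ι → ℤ} {κ : ι → Bool}
    (hok : OKlam m (mk' pos) (tt pos) lam) : Valid m false pos (build m pos lam κ) := by
  have hrow : ∀ c, pos c ≠ none → tt pos c < lam c ∧ lam c < tt pos c + m ∧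
      Odd (lam c - tt pos c) := fun c hc => hok c (by simp [mk', hc])
  refine ⟨?_, ?_, ?_, ?_⟩
  · intro c j hj h
    by_cases hc : pos c = none
    · simp only [build, hc, if_true] at h ⊢; exact h
    obtain ⟨o1, o2, o3⟩ := hrow c hc
    have hst := arc_step (m := m) (t := tt pos c) (L := lam c - tt pos c) (j := j) (by omega)
      (by omega)
    simp only [build, hc, if_false] at h ⊢
    have hty := ty_tt hc
    by_cases ht : Even (tt pos c)
    · rw [if_pos ht] at hty
      simp only [hty, decide_true, Bool.not_true] at h ⊢
      split_ifs at h with h1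
      by_contra hcon
      split_ifs at hcon with h2
      · simp at hcon
      · obtain ⟨q, hq⟩ := hst.2 h2 h1
        have : j = (lam c - tt pos c) + (tt pos c + m * q) := by omega
        have hodd : Odd j := by
          rw [this]; exact o3.add_even (ht.add (hme.mul_right q))
        exact (Int.not_even_iff_odd.2 hodd) hj
    · rw [if_neg ht] at hty
      simp only [hty, show ¬ (0 = 2) by omega, decide_false, Bool.not_false] at h ⊢
      split_ifs at h with h1
      by_contra hcon
      split_ifs at hcon with h2
      · obtain ⟨q, hq⟩ := hst.1 h2 h1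
        have : j = tt pos c + m * q := by omega
        have hodd : Odd j := by
          rw [this]; exact (Int.not_even_iff_odd.1 ht).add_even (hme.mul_right q)
        exact (Int.not_even_iff_odd.2 hodd) hj
      · simp at hcon
  · intro c j hj h
    by_cases hc : pos c = none
    · simp only [build, hc, if_true] at h ⊢; exact h
    obtain ⟨o1, o2, o3⟩ := hrow c hc
    have hst := arc_step (m := m) (t := tt pos c) (L := lam c - tt pos c) (j := j) (by omega)
      (by omega)
    simp only [build, hc, if_false] at h ⊢
    have hty := ty_tt hc
    by_cases ht : Even (tt pos c)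
    · rw [if_pos ht] at hty
      simp only [hty, decide_true, Bool.not_true] at h ⊢
      split_ifs at h with h1
      by_contra hcon
      split_ifs at hcon with h2
      · simp at hcon
      · obtain ⟨q, hq⟩ := hst.1 h1 h2
        have : j = tt pos c + m * q := by omega
        have hev : Even j := by
          rw [this]; exact ht.add (hme.mul_right q)
        exact (Int.not_even_iff_odd.2 hj) hev
    · rw [if_neg ht] at hty
      simp only [hty, show ¬ (0 = 2) by omega, decide_false, Bool.not_false] at h ⊢
      split_ifs at h with h1
      by_contra hcon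
      split_ifs at hcon with h2
      · obtain ⟨q, hq⟩ := hst.2 h1 h2
        have : j = (lam c - tt pos c) + (tt pos c + m * q) := by omega
        have hev : Even j := by
          rw [this]
          exact o3.add_odd ((Int.not_even_iff_odd.1 ht).add_even (hme.mul_right q))
        exact (Int.not_even_iff_odd.2 hj) hev
      · simp at hcon
  · intro c j hmk
    have hc := hmk.ne_none
    obtain ⟨o1, o2, o3⟩ := hrow c hc
    rw [mark_iff_tt hc] at hmk
    have h1 : arc m (tt pos c) (lam c - tt pos c) j := by
      unfold arc
      rw [Int.emod_eq_zero_of_dvd hmk]; omega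
    have h2 : ¬ arc m (tt pos c) (lam c - tt pos c) (j - 1) := by
      unfold arc
      obtain ⟨q, hq⟩ := hmk
      have : j - 1 - tt pos c = (m - 1) + m * (q - 1) := by
        have : m * (q - 1) = m * q - m := by ring
        omega
      rw [this, Int.add_mul_emod_self_left, Int.emod_eq_of_lt (by omega) (by omega)]
      omega
    simp [build, hc, h1, h2]
  · intro c j
    by_cases hc : pos c = none
    · simp [build, hc]
    · simp only [build, hc, if_false, arc_add, Bool.xor_false]

/-- states in `Form0` are given by arcs -/
theorem exists_build (hm : 0 < m) (hme : Even m) (hψ : Valid m false pos ψ)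
    (hF : Form0 m pos ψ) : ∃ lam κ, OKlam m (mk' pos) (tt pos) lam ∧ ψ = build m pos lam κ := by
  have hrow : ∀ c, ∃ l : ℤ, pos c ≠ none → (tt pos c < l ∧ l < tt pos c + m ∧
      Odd (l - tt pos c) ∧ ∀ g, ψ c g = if arc m (tt pos c) (l - tt pos c) g then
        decide (ty pos c = 2) else !decide (ty pos c = 2)) := by
    intro c
    by_cases hc : pos c = none
    · exact ⟨0, fun h => absurd hc h⟩
    set t := tt pos c with ht
    have hmk : Mark m pos c t := by rw [mark_iff_tt hc]; simp [ht]
    obtain ⟨v1, v2⟩ := mark_values hme hψ hmk
    set v := decide (ty pos c = 2) with hv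
    have htm : t < t + m - 1 := by
      by_contra hcon
      have h1 : m = 1 := by omega
      rw [h1] at hme
      exact absurd hme (by decide)
    obtain ⟨l, l1, l2, l3, l4⟩ := exists_first (fun x => ψ c x = v) htm v1 (by
      rw [v2]; cases v <;> simp)
    have hl3 : ψ c l = !v := by
      cases h : ψ c l <;> cases h' : v <;> simp_all
    have hl4 : ψ c (l - 1) = v := l4 (l - 1) (by omega) (by omega)
    have hodd : Odd (l - t) := by
      have hty := ty_tt hc
      rw [← ht] at hty
      by_cases hte : Even t
      · have hv' : v = true := by rw [hv, hty]; simp [hte]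
        rcases Int.even_or_odd l with hle | hlo
        · exfalso
          have := hψ.even c l hle (by rw [hl4, hv'])
          rw [hl3, hv'] at this; simp at this
        · exact hlo.sub_even hte
      · have hv' : v = false := by rw [hv, hty]; simp [hte]
        rcases Int.even_or_odd l with hle | hlo
        · exact hle.sub_odd (Int.not_even_iff_odd.1 hte)
        · exfalso
          have := hψ.odd c l hlo (by rw [hl3, hv']; rfl)
          rw [hl4, hv'] at this; simp at this
    have hafter : ∀ n : ℕ, l + n < t + m → ψ c (l + n) = !v := by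
      intro n
      induction n with
      | zero => intro _; simpa using hl3
      | succ n ih =>
        intro hn
        push_cast at hn ⊢
        have hprev := ih (by omega)
        by_contra hcon
        have hcur : ψ c (l + ((n : ℤ) + 1)) = v := by
          cases h : ψ c (l + ((n : ℤ) + 1)) <;> cases h' : v <;> simp_all
        have hj : l + ((n : ℤ) + 1) - 1 = l + n := by ring
        have hflip : ψ c (l + ((n : ℤ) + 1) - 1) ≠ ψ c (l + ((n : ℤ) + 1)) := by
          rw [hj, hprev, hcur]; cases v <;> simp
        rcases hF c _ hflip with h | ⟨h1, h2⟩ | ⟨h1, h2⟩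
        · exact hmk.not_between (by omega) (by omega) h
        · have hv' : v = true := by rw [hv, h1]; rfl
          have := hψ.odd c _ h2 (by rw [hcur, hv'])
          rw [hj, hprev, hv'] at this; simp at this
        · have hv' : v = false := by rw [hv, h1]; rfl
          have := hψ.even c _ h2 (by rw [hj, hprev, hv']; rfl)
          rw [hcur, hv'] at this; simp at this
    refine ⟨l, fun _ => ⟨l1, by omega, hodd, ?_⟩⟩
    intro g
    have e1 := Int.emod_add_mul_ediv (g - t) m
    have e2 := Int.emod_nonneg (g - t) hm.ne'
    have e3 := Int.emod_lt_of_pos (g - t) hm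
    have hd : m ∣ g - (t + (g - t) % m) := ⟨(g - t) / m, by omega⟩
    rw [per_congr hψ hd]
    by_cases harc : arc m t (l - t) g
    · rw [if_pos harc]
      unfold arc at harc
      exact l4 _ (by omega) (by omega)
    · rw [if_neg harc]
      unfold arc at harc
      have := hafter (t + (g - t) % m - l).toNat (by
        rw [Int.toNat_of_nonneg (by omega)]; omega)
      rw [Int.toNat_of_nonneg (by omega)] at this
      rw [← this]; congr 1; ring
  choose lam hlam using hrow
  refine ⟨lam, fun c => ψ c 0, ?_, ?_⟩
  · intro c hc
    have hc' : pos c ≠ none := by simpa [mk'] using hc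
    obtain ⟨h1, h2, h3, -⟩ := hlam c hc'
    exact ⟨h1, h2, h3⟩
  · funext c g
    by_cases hc : pos c = none
    · simp only [build, hc, if_true]
      have hstep : ∀ j, ψ c j = ψ c (j - 1) := by
        intro j
        by_contra hcon
        rcases hF c j (fun h => hcon h.symm) with h | ⟨h1, h2⟩ | ⟨h1, h2⟩
        · exact h.ne_none hc
        · rw [ty_one.2 hc] at h1; omega
        · rw [ty_one.2 hc] at h1; omega
      induction g using Int.induction_on with
      | zero => rfl
      | succ k ih => rw [hstep, ← ih]; congr 1; ring
      | pred k ih => rw [← ih, hstep (-(k : ℤ))]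
    · obtain ⟨h1, h2, h3, h4⟩ := hlam c hc
      rw [h4 g]
      simp [build, hc]

lemma cnt2_build {lam : ι → ℤ} {κ : ι → Bool} (g : ℤ) :
    cnt (Tset pos 2) (build m pos lam κ) g = cov m (Tset pos 2) (tt pos) lam g := by
  unfold cnt cov
  congr 1
  apply Finset.filter_congr
  intro c hc
  rw [mem_Tset] at hc
  have hne : pos c ≠ none := by
    intro h; rw [ty_one.2 h] at hc; omega
  simp [build, hne, hc]

lemma cnt0_build {lam : ι → ℤ} {κ : ι → Bool} (g : ℤ) :
    cnt (Tset pos 0) (build m pos lam κ) g + cov m (Tset pos 0) (tt pos) lam g =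
      (Tset pos 0).card := by
  unfold cnt cov
  rw [add_comm]
  have : (Tset pos 0).filter (fun c => build m pos lam κ c g = true) =
      (Tset pos 0).filter (fun c => ¬ arc m (tt pos c) (lam c - tt pos c) g) := by
    apply Finset.filter_congr
    intro c hc
    rw [mem_Tset] at hc
    have hne : pos c ≠ none := by
      intro h; rw [ty_one.2 h] at hc; omega
    simp [build, hne, hc]
  rw [this]
  exact Finset.card_filter_add_card_filter_not _

lemma cnt1_build {lam : ι → ℤ} {κ : ι → Bool} (g : ℤ) :
    cnt (Tset pos 1) (build m pos lam κ) g = ((Tset pos 1).filter (fun c => κ c = true)).card := by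
  unfold cnt
  congr 1
  apply Finset.filter_congr
  intro c hc
  rw [mem_Tset, ty_one] at hc
  simp [build, hc]

lemma cov_congr {S : Finset ι} {t lam lam' : ι → ℤ} (h : ∀ c ∈ S, lam c = lam' c) (g : ℤ) :
    cov m S t lam g = cov m S t lam' g := by
  unfold cov
  congr 1
  apply Finset.filter_congr
  intro c hc
  rw [h c hc]

end

end Pool.Agent.Helper16.Wheel
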