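import Pool.Agent.Helper16.Wheel.Model

set_option linter.unusedSectionVars false

namespace Pool.Agent.Helper16.Wheel

open Finset

section
variable {ι : Type*} [Fintype ι] [DecidableEq ι] {m : ℤ} {b : Bool} {pos : ι → Option ℤ}
  {ψ ψ' ψ'' : ι → ℤ → Bool} {k : ℕ}

/-- The chain lemma. -/
lemma chain (hψ : Valid m b pos ψ) (hψ' : Valid m b pos ψ') {c c' : ι} {τ h : ℤ}
    (h1 : ψ c τ = true) (h2 : ψ c' τ = false) (h3 : ψ' c τ = false) (h4 : ψ' c' τ = true)
    (a1 : ψ c (τ - 1) = ψ' c (τ - 1)) (a2 : ψ c' (τ - 1) = ψ' c' (τ - 1))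
    (hτ : τ < h) (hh : h < τ + m) (hc : ψ c h = ψ' c h) :
    ∃ e, τ < e ∧ e ≤ h ∧ (Sw m pos ψ c c' τ e ∨ Sw m pos ψ' c c' τ e) := by
  obtain ⟨e, he1, he2, he3, he4⟩ := exists_first
    (fun g => ψ c g = true ∧ ψ c' g = false ∧ ψ' c g = false ∧ ψ' c' g = true) hτ
    ⟨h1, h2, h3, h4⟩ (by rintro ⟨x1, -, x3, -⟩; rw [x1, x3] at hc; simp at hc)
  refine ⟨e, he1, he2, ?_⟩
  have hno : ∀ j, τ ≤ j → j ≤ e → ¬ Mark m pos c j ∧ ¬ Mark m pos c' j := by
    intro j hj1 hj2
    rcases eq_or_lt_of_le hj1 with hj | hj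
    · subst hj
      constructor
      · intro hm
        have := (hψ.mark_agree hψ' hm).2
        rw [h1, h3] at this; simp at this
      · intro hm
        have := (hψ.mark_agree hψ' hm).2
        rw [h2, h4] at this; simp at this
    · obtain ⟨x1, x2, x3, x4⟩ := he4 (j - 1) (by omega) (by omega)
      constructor
      · intro hm
        have := (hψ.mark_agree hψ' hm).1
        rw [x1, x3] at this; simp at this
      · intro hm
        have := (hψ.mark_agree hψ' hm).1
        rw [x2, x4] at this; simp at this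
  have hl : ψ c (τ - 1) = ψ c' (τ - 1) := by
    rcases Int.even_or_odd τ with hj | hj
    · have y1 := hψ'.even c τ hj
      have y2 := hψ.even c' τ hj
      rw [h3] at y1; rw [h2] at y2
      cases z1 : ψ' c (τ - 1) <;> cases z2 : ψ c' (τ - 1) <;> simp_all
    · have y1 := hψ.odd c τ hj h1
      have y2 := hψ'.odd c' τ hj h4
      rw [y1, a2, y2]
  obtain ⟨x1, x2, x3, x4⟩ := he4 (e - 1) (by omega) (by omega)
  rcases Int.even_or_odd e with hj | hj
  · have y1 := hψ.even c e hj x1
    have y2 := hψ'.even c' e hj x4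
    cases z1 : ψ c' e
    · cases z2 : ψ' c e
      · exact absurd ⟨y1, z1, z2, y2⟩ he3
      · right
        exact ⟨he1, by omega, by rw [← a1, ← a2]; exact hl, by rw [z2, y2], hno⟩
    · left
      exact ⟨he1, by omega, hl, by rw [y1, z1], hno⟩
  · have y1 : ψ c' e = false := by
      cases z : ψ c' e
      · rfl
      · have := hψ.odd c' e hj z
        rw [x2] at this; simp at this
    have y2 : ψ' c e = false := by
      cases z : ψ' c e
      · rfl
      · have := hψ'.odd c e hj z
        rw [x3] at this; simp at this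
    cases z1 : ψ c e
    · left
      exact ⟨he1, by omega, hl, by rw [y1, z1], hno⟩
    · cases z2 : ψ' c' e
      · right
        exact ⟨he1, by omega, by rw [← a1, ← a2]; exact hl, by rw [y2, z2], hno⟩
      · exact absurd ⟨z1, y1, y2, z2⟩ he3

/-- mismatch of two states at a gap -/
def mis (ψ ψ' : ι → ℤ → Bool) (g : ℤ) : Finset ι :=
  univ.filter (fun c => ψ c g = true ∧ ψ' c g = false)

lemma mem_mis {c : ι} {g : ℤ} : c ∈ mis ψ ψ' g ↔ ψ c g = true ∧ ψ' c g = false := by
  simp [mis]

lemma exists_rev_of_mis (h : cnt univ ψ = cnt univ ψ') {g : ℤ} (hne : (mis ψ ψ' g).Nonempty) :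
    (mis ψ' ψ g).Nonempty := by
  by_contra hcon
  rw [Finset.not_nonempty_iff_eq_empty] at hcon
  obtain ⟨c, hc⟩ := hne
  have hsub : univ.filter (fun c => ψ' c g = true) ⊂ univ.filter (fun c => ψ c g = true) := by
    refine ⟨?_, ?_⟩
    · intro x hx
      simp only [mem_filter, mem_univ, true_and] at hx ⊢
      by_contra hx'
      have : x ∈ mis ψ' ψ g := mem_mis.2 ⟨hx, by simpa using hx'⟩
      rw [hcon] at this
      simp at this
    · intro hsub
      have hc1 : c ∈ univ.filter (fun c => ψ c g = true) := by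
        simpa using (mem_mis.1 hc).1
      have := hsub hc1
      simp only [mem_filter, mem_univ, true_and] at this
      rw [(mem_mis.1 hc).2] at this
      simp at this
  have h1 := Finset.card_lt_card hsub
  have h2 := congrFun h g
  unfold cnt at h2
  omega

lemma eq_of_mis_empty (h : cnt univ ψ = cnt univ ψ') {g : ℤ} (he : mis ψ ψ' g = ∅) (c : ι) :
    ψ c g = ψ' c g := by
  have h2 : mis ψ' ψ g = ∅ := by
    by_contra hne
    have := exists_rev_of_mis h.symm (Finset.nonempty_iff_ne_empty.2 hne)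
    rw [he] at this
    simp at this
  have m1 : c ∉ mis ψ ψ' g := by rw [he]; simp
  have m2 : c ∉ mis ψ' ψ g := by rw [h2]; simp
  rw [mem_mis] at m1 m2
  cases z : ψ c g <;> cases z' : ψ' c g <;> simp_all

lemma mis_sw_left {A : ℤ → Prop} [DecidablePred A] {c c' : ι} {g : ℤ} (hA : A g)
    (h1 : ψ c g = true) (h2 : ψ c' g = false) (h3 : ψ' c g = false) (h4 : ψ' c' g = true) :
    mis (swapOn A c c' ψ) ψ' g ⊂ mis ψ ψ' g := by
  have hne : c ≠ c' := by rintro rfl; rw [h1] at h2; simp at h2
  refine ⟨?_, ?_⟩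
  · intro x hx
    rw [mem_mis] at hx ⊢
    obtain ⟨hx1, hx2⟩ := hx
    simp only [swapOn, hA, if_true] at hx1
    by_cases e1 : x = c
    · subst e1
      simp only [Equiv.swap_apply_left] at hx1
      rw [h2] at hx1; simp at hx1
    by_cases e2 : x = c'
    · subst e2
      rw [h4] at hx2; simp at hx2
    rw [Equiv.swap_apply_of_ne_of_ne e1 e2] at hx1
    exact ⟨hx1, hx2⟩
  · intro hsub
    have hc : c ∈ mis ψ ψ' g := mem_mis.2 ⟨h1, h3⟩
    have := mem_mis.1 (hsub hc)
    simp only [swapOn, hA, if_true, Equiv.swap_apply_left] at this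
    rw [h2] at this; simp at this

lemma mis_sw_right {A : ℤ → Prop} [DecidablePred A] {c c' : ι} {g : ℤ} (hA : A g)
    (h1 : ψ c g = true) (h2 : ψ c' g = false) (h3 : ψ' c g = false) (h4 : ψ' c' g = true) :
    mis ψ (swapOn A c c' ψ') g ⊂ mis ψ ψ' g := by
  have hne : c ≠ c' := by rintro rfl; rw [h1] at h2; simp at h2
  refine ⟨?_, ?_⟩
  · intro x hx
    rw [mem_mis] at hx ⊢
    obtain ⟨hx1, hx2⟩ := hx
    simp only [swapOn, hA, if_true] at hx2
    by_cases e1 : x = c
    · subst e1
      simp only [Equiv.swap_apply_left] at hx2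
      rw [h4] at hx2; simp at hx2
    by_cases e2 : x = c'
    · subst e2
      rw [h2] at hx1; simp at hx1
    rw [Equiv.swap_apply_of_ne_of_ne e1 e2] at hx2
    exact ⟨hx1, hx2⟩
  · intro hsub
    have hc : c ∈ mis ψ ψ' g := mem_mis.2 ⟨h1, h3⟩
    have := mem_mis.1 (hsub hc)
    simp only [swapOn, hA, if_true, Equiv.swap_apply_left] at this
    rw [h4] at this; simp at this

lemma eq_of_agree (hm : 0 < m) (hψ : Valid m b pos ψ) (hψ' : Valid m b pos ψ') {g0 : ℤ}
    (h : ∀ g, g0 ≤ g → g < g0 + m → ∀ c, ψ c g = ψ' c g) : ψ = ψ' := by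
  funext c g
  refine hψ.congr hψ' (h (g0 + (g - g0) % m) ?_ ?_ c) ?_
  · have := Int.emod_nonneg (g - g0) hm.ne'
    omega
  · have := Int.emod_lt_of_pos (g - g0) hm
    omega
  · have := Int.emod_add_mul_ediv (g - g0) m
    exact ⟨(g - g0) / m, by linarith⟩

/-- **Lemma L.** Two states in the same fiber which agree at one gap are connected by 2-row
moves. -/
lemma conn_of_agree_aux (g0 : ℤ) (n : ℕ) : ∀ (l : ℕ) (ψ ψ' : ι → ℤ → Bool),
    Same m b pos ψ ψ' → (n : ℤ) < m →
    (∀ g, g0 ≤ g → g < g0 + m - n → ∀ c, ψ c g = ψ' c g) →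
    (mis ψ ψ' (g0 + m - n)).card = l → Conn m b pos 2 ψ ψ' := by
  induction n with
  | zero =>
    intro l ψ ψ' hs hn hag _
    have := eq_of_agree (by omega) hs.left hs.right (g0 := g0) (by
      intro g h1 h2 c; exact hag g h1 (by simpa using h2) c)
    rw [this]
    exact .refl
  | succ n ih =>
    intro l
    induction l using Nat.strong_induction_on with
    | _ l ihl =>
      intro ψ ψ' hs hn hag hcard
      set τ : ℤ := g0 + m - ((n + 1 : ℕ) : ℤ) with hτ
      push_cast at hτ hn
      rcases Finset.eq_empty_or_nonempty (mis ψ ψ' τ) with he | hne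
      · refine ih _ ψ ψ' hs (by omega) ?_ rfl
        intro g h1 h2 c
        by_cases hg : g < τ
        · exact hag g h1 hg c
        · have : g = τ := by omega
          rw [this]
          exact eq_of_mis_empty (funext hs.cnt) he c
      · obtain ⟨c', hc'⟩ := exists_rev_of_mis (funext hs.cnt) hne
        obtain ⟨c, hc⟩ := hne
        rw [mem_mis] at hc hc'
        obtain ⟨e, he1, he2, he3⟩ := chain hs.left hs.right (c := c) (c' := c') (τ := τ)
          (h := g0 + m) hc.1 hc'.2 hc.2 hc'.1
          (hag _ (by omega) (by omega) c) (hag _ (by omega) (by omega) c') (by omega) (by omega)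
          (hs.left.congr hs.right (hag g0 le_rfl (by omega) c) ⟨1, by ring⟩)
        have hA : arc m τ (e - τ) τ := by rw [arc_of_ge (by omega) (by omega)]; omega
        have hnA : ∀ g, g0 ≤ g → g < τ → ¬ arc m τ (e - τ) g := by
          intro g h1 h2
          rw [arc_of_lt (by omega) (by omega)]
          omega
        rcases he3 with hsw | hsw
        · have hst := hsw.step hs.left
          refine hst.conn.trans (ihl _ ?_ (sw m ψ c c' τ e) ψ' (hst.1.symm.trans hs) (by
            push_cast; omega) ?_ rfl)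
          · rw [← hcard]
            exact Finset.card_lt_card (mis_sw_left hA hc.1 hc'.2 hc.2 hc'.1)
          · intro g h1 h2 x
            rw [← hag g h1 h2 x]
            simp [sw, swapOn, hnA g h1 h2]
        · have hst := hsw.step hs.right
          refine Conn.trans (ihl _ ?_ ψ (sw m ψ' c c' τ e) (hs.trans hst.1) (by
            push_cast; omega) ?_ rfl) hst.conn.symm
          · rw [← hcard]
            exact Finset.card_lt_card (mis_sw_right hA hc.1 hc'.2 hc.2 hc'.1)
          · intro g h1 h2 x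
            rw [hag g h1 h2 x]
            simp [sw, swapOn, hnA g h1 h2]

theorem conn_of_agree (hm : 0 < m) (hs : Same m b pos ψ ψ') (g0 : ℤ)
    (h : ∀ c, ψ c g0 = ψ' c g0) : Conn m b pos 2 ψ ψ' := by
  refine conn_of_agree_aux g0 (m - 1).toNat _ ψ ψ' hs (by omega) ?_ rfl
  intro g h1 h2 c
  have : g = g0 := by omega
  rw [this]
  exact h c

end

end Pool.Agent.Helper16.Wheel
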