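import Mathlib

/-! Matchings and the toric ideal of the matching polytope of a graph. -/

namespace Pool.Agent.Helper16.Wheel

open MvPolynomial

/-- The wheel graph `W_d` on `Fin d`: the hub is the last vertex `d - 1`, the rim is the cycle
`0, 1, …, d - 2`. -/
def wheel (d : ℕ) : SimpleGraph (Fin d) :=
  SimpleGraph.fromRel fun i j =>
    i.val + 1 = j.val ∨ (i.val = 0 ∧ j.val + 2 = d) ∨ j.val + 1 = d

/-- The matchings of `G`: finite sets of edges of which no two different ones share a vertex. -/
abbrev Matching {V : Type*} (G : SimpleGraph V) : Type _ :=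
  {M : Finset G.edgeSet // ∀ e ∈ M, ∀ f ∈ M, ∀ v : V,
    v ∈ (e : Sym2 V) → v ∈ (f : Sym2 V) → e = f}

/-- The toric ideal of the matching polytope of `G`: the kernel of
`K[x_M : M a matching] → K[s, t_e : e an edge]`, `x_M ↦ s ∏_{e ∈ M} t_e`
(the variable `s` is `X none`, the variable `t_e` is `X (some e)`). -/
noncomputable def toricIdeal (K : Type*) [Field K] {V : Type*} (G : SimpleGraph V) :
    Ideal (MvPolynomial (Matching G) K) :=
  RingHom.ker (aeval fun M : Matching G =>
    (X none * ∏ e ∈ M.1, X (some e) : MvPolynomial (Option G.edgeSet) K))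

/-- `S` is a minimal homogeneous generating set of the ideal `I`: a set of homogeneous polynomials
that generates `I` and no proper subset of which generates `I`. -/
structure IsMinHomGen {σ K : Type*} [Field K] (I : Ideal (MvPolynomial σ K))
    (S : Set (MvPolynomial σ K)) : Prop where
  hom : ∀ f ∈ S, ∃ n, f.IsHomogeneous n
  span_eq : Ideal.span S = I
  min : ∀ T, T ⊂ S → Ideal.span T ≠ I

/-- `ω(I) = w`: the ideal `I` is nonzero, it has a minimal homogeneous generating set, and in every
minimal homogeneous generating set the largest degree of an element is `w`; with the convention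
`ω({0}) = 2`. -/
def HasOmega {σ K : Type*} [Field K] (I : Ideal (MvPolynomial σ K)) (w : ℕ) : Prop :=
  (I = ⊥ ∧ w = 2) ∨
  (I ≠ ⊥ ∧ (∃ S, IsMinHomGen I S) ∧ ∀ S, IsMinHomGen I S → IsGreatest (totalDegree '' S) w)

end Pool.Agent.Helper16.Wheel
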