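import Mathlib

/-! Row model for tuples of matchings of a wheel.

A row is a map `ℤ → Bool` (value on the gaps of the rim, unrolled), which may only go up at an even
vertex and only go down at an odd vertex; vertex `j` is between the gaps `j - 1` and `j`. -/

set_option linter.unusedSectionVars false

namespace Pool.Agent.Helper16.Wheel

open Finset

/-- Row `c` has its spoke at the (unrolled) rim vertex `j`. -/
def Mark {ι : Type*} (m : ℤ) (pos : ι → Option ℤ) (c : ι) (j : ℤ) : Prop :=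
  ∃ s, pos c = some s ∧ m ∣ j - s

structure Valid {ι : Type*} (m : ℤ) (b : Bool) (pos : ι → Option ℤ) (ψ : ι → ℤ → Bool) : Prop where
  even : ∀ c j, Even j → ψ c (j - 1) = true → ψ c j = true
  odd : ∀ c j, Odd j → ψ c j = true → ψ c (j - 1) = true
  mark : ∀ c j, Mark m pos c j → ψ c (j - 1) ≠ ψ c j
  per : ∀ c j, ψ c (j + m) = xor (ψ c j) b

lemma exists_first (P : ℤ → Prop) {a b : ℤ} (hab : a < b) (ha : P a) (hb : ¬ P b) :
    ∃ e, a < e ∧ e ≤ b ∧ ¬ P e ∧ ∀ g, a ≤ g → g < e → P g := by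
  classical
  have hex : ∃ n : ℕ, ¬ P (a + n) := ⟨(b - a).toNat, by
    rw [Int.toNat_of_nonneg (by omega)]; simpa using hb⟩
  refine ⟨a + Nat.find hex, ?_, ?_, Nat.find_spec hex, ?_⟩
  · have : Nat.find hex ≠ 0 := by
      intro h
      have := Nat.find_spec hex
      rw [h] at this
      simp at this
      exact this ha
    omega
  · have : Nat.find hex ≤ (b - a).toNat := Nat.find_min' hex (by
      rw [Int.toNat_of_nonneg (by omega)]; simpa using hb)
    omega
  · intro g h1 h2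
    by_contra hg
    have : Nat.find hex ≤ (g - a).toNat := Nat.find_min' hex (by
      rw [Int.toNat_of_nonneg (by omega)]; simpa using hg)
    omega

lemma exists_last (P : ℤ → Prop) {a b : ℤ} (hab : b < a) (ha : P a) (hb : ¬ P b) :
    ∃ e, e < a ∧ b ≤ e ∧ ¬ P e ∧ ∀ g, g ≤ a → e < g → P g := by
  obtain ⟨e, h1, h2, h3, h4⟩ := exists_first (fun x => P (-x)) (a := -a) (b := -b) (by omega)
    (by simpa using ha) (by simpa using hb)
  refine ⟨-e, by omega, by omega, h3, ?_⟩
  intro g hg hg'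
  have := h4 (-g) (by omega) (by omega)
  simpa using this

/-- Quasi-periodic functions that agree at one place agree on its residue class. -/
lemma qp_congr {m : ℤ} {b : Bool} {f g : ℤ → Bool} (hf : ∀ j, f (j + m) = xor (f j) b)
    (hg : ∀ j, g (j + m) = xor (g j) b) {i j : ℤ} (h : f i = g i) (hd : m ∣ j - i) :
    f j = g j := by
  obtain ⟨n, hn⟩ := hd
  have key : ∀ n : ℤ, f (i + m * n) = g (i + m * n) := by
    intro n
    induction n using Int.induction_on with
    | zero => simpa using h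
    | succ k ih =>
      have e : i + m * ((k : ℤ) + 1) = (i + m * k) + m := by ring
      rw [e, hf, hg, ih]
    | pred k ih =>
      have e : i + m * (-(k : ℤ)) = (i + m * (-(k : ℤ) - 1)) + m := by ring
      rw [e, hf, hg] at ih
      revert ih
      cases f (i + m * (-(k : ℤ) - 1)) <;> cases g (i + m * (-(k : ℤ) - 1)) <;> cases b <;> simp
  have := key n
  rw [← hn] at this
  simpa using this

section
variable {ι : Type*} [DecidableEq ι] {m : ℤ} {b : Bool} {pos : ι → Option ℤ} {ψ ψ' : ι → ℤ → Bool}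

lemma Mark.congr {c : ι} {i j : ℤ} (h : Mark m pos c i) (hd : m ∣ j - i) : Mark m pos c j := by
  obtain ⟨s, h1, h2⟩ := h
  exact ⟨s, h1, by have := dvd_add hd h2; simpa using this⟩

lemma Mark.dvd {c : ι} {i j : ℤ} (h : Mark m pos c i) (h' : Mark m pos c j) : m ∣ j - i := by
  obtain ⟨s, h1, h2⟩ := h
  obtain ⟨s', h1', h2'⟩ := h'
  rw [h1] at h1'
  cases h1'
  have := dvd_sub h2' h2
  simpa using this

lemma Valid.congr (hψ : Valid m b pos ψ) (hψ' : Valid m b pos ψ') {c c' : ι} {i j : ℤ}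
    (h : ψ c i = ψ' c' i) (hd : m ∣ j - i) : ψ c j = ψ' c' j :=
  qp_congr (hψ.per c) (hψ'.per c') h hd

lemma Valid.mark_even (hψ : Valid m b pos ψ) {c : ι} {j : ℤ} (hj : Even j)
    (h : Mark m pos c j) : ψ c (j - 1) = false ∧ ψ c j = true := by
  have h1 := hψ.mark c j h
  have h2 := hψ.even c j hj
  cases h3 : ψ c (j - 1) <;> cases h4 : ψ c j <;> simp_all

lemma Valid.mark_odd (hψ : Valid m b pos ψ) {c : ι} {j : ℤ} (hj : Odd j)
    (h : Mark m pos c j) : ψ c (j - 1) = true ∧ ψ c j = false := by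
  have h1 := hψ.mark c j h
  have h2 := hψ.odd c j hj
  cases h3 : ψ c (j - 1) <;> cases h4 : ψ c j <;> simp_all

lemma Valid.mark_agree (hψ : Valid m b pos ψ) (hψ' : Valid m b pos ψ') {c : ι} {j : ℤ}
    (h : Mark m pos c j) : ψ c (j - 1) = ψ' c (j - 1) ∧ ψ c j = ψ' c j := by
  rcases Int.even_or_odd j with hj | hj
  · have h1 := hψ.mark_even hj h
    have h2 := hψ'.mark_even hj h
    simp [h1, h2]
  · have h1 := hψ.mark_odd hj h
    have h2 := hψ'.mark_odd hj h
    simp [h1, h2]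

/-- Exchange rows `c`, `c'` on the set of gaps `A`. -/
def swapOn (A : ℤ → Prop) [DecidablePred A] (c c' : ι) (ψ : ι → ℤ → Bool) : ι → ℤ → Bool :=
  fun x g => if A g then ψ (Equiv.swap c c' x) g else ψ x g

lemma swapOn_pair {A : ℤ → Prop} [DecidablePred A] {c c' : ι}
    (h1 : ∀ j, A j → ¬ A (j - 1) → ψ c (j - 1) = ψ c' (j - 1))
    (h2 : ∀ j, ¬ A j → A (j - 1) → ψ c j = ψ c' j)
    (hmk : ∀ j, (A j ∨ A (j - 1)) → (Mark m pos c j ↔ Mark m pos c' j)) (x : ι) (j : ℤ) :
    ∃ y, swapOn A c c' ψ x (j - 1) = ψ y (j - 1) ∧ swapOn A c c' ψ x j = ψ y j ∧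
      (Mark m pos x j → Mark m pos y j) := by
  by_cases hx : x = c
  · subst hx
    by_cases hA : A j <;> by_cases hA' : A (j - 1)
    · exact ⟨c', by simp [swapOn, hA'], by simp [swapOn, hA], (hmk j (Or.inl hA)).1⟩
    · exact ⟨c', by simp [swapOn, hA', h1 j hA hA'], by simp [swapOn, hA], (hmk j (Or.inl hA)).1⟩
    · exact ⟨c', by simp [swapOn, hA'], by simp [swapOn, hA, h2 j hA hA'],
        (hmk j (Or.inr hA')).1⟩
    · exact ⟨x, by simp [swapOn, hA'], by simp [swapOn, hA], id⟩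
  by_cases hx' : x = c'
  · subst hx'
    by_cases hA : A j <;> by_cases hA' : A (j - 1)
    · exact ⟨c, by simp [swapOn, hA'], by simp [swapOn, hA], (hmk j (Or.inl hA)).2⟩
    · exact ⟨c, by simp [swapOn, hA', h1 j hA hA'], by simp [swapOn, hA], (hmk j (Or.inl hA)).2⟩
    · exact ⟨c, by simp [swapOn, hA'], by simp [swapOn, hA, h2 j hA hA'],
        (hmk j (Or.inr hA')).2⟩
    · exact ⟨x, by simp [swapOn, hA'], by simp [swapOn, hA], id⟩
  · exact ⟨x, by simp [swapOn, Equiv.swap_apply_of_ne_of_ne hx hx'],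
      by simp [swapOn, Equiv.swap_apply_of_ne_of_ne hx hx'], id⟩

lemma Valid.swapOn (hψ : Valid m b pos ψ) {A : ℤ → Prop} [DecidablePred A] {c c' : ι}
    (hA : ∀ j, A (j + m) ↔ A j)
    (h1 : ∀ j, A j → ¬ A (j - 1) → ψ c (j - 1) = ψ c' (j - 1))
    (h2 : ∀ j, ¬ A j → A (j - 1) → ψ c j = ψ c' j)
    (hmk : ∀ j, (A j ∨ A (j - 1)) → (Mark m pos c j ↔ Mark m pos c' j)) :
    Valid m b pos (swapOn A c c' ψ) where
  even x j hj := by
    obtain ⟨y, e1, e2, -⟩ := swapOn_pair h1 h2 hmk x j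
    rw [e1, e2]; exact hψ.even y j hj
  odd x j hj := by
    obtain ⟨y, e1, e2, -⟩ := swapOn_pair h1 h2 hmk x j
    rw [e1, e2]; exact hψ.odd y j hj
  mark x j hj := by
    obtain ⟨y, e1, e2, e3⟩ := swapOn_pair h1 h2 hmk x j
    rw [e1, e2]; exact hψ.mark y j (e3 hj)
  per x j := by
    simp only [Wheel.swapOn, hA]
    split_ifs
    · exact hψ.per _ j
    · exact hψ.per _ j

/-- The periodic set of gaps of an arc. -/
def arc (m τ L : ℤ) (g : ℤ) : Prop := (g - τ) % m < L

instance (m τ L : ℤ) : DecidablePred (arc m τ L) := fun g => by unfold arc; infer_instance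

lemma arc_add {τ L : ℤ} (g : ℤ) : arc m τ L (g + m) ↔ arc m τ L g := by
  unfold arc
  rw [show g + m - τ = (g - τ) + m by ring, Int.add_emod_right]

lemma arc_of_ge {τ L g : ℤ} (h1 : τ ≤ g) (h2 : g < τ + m) : arc m τ L g ↔ g < τ + L := by
  unfold arc
  rw [Int.emod_eq_of_lt (by omega) (by omega)]
  omega

lemma arc_of_lt {τ L g : ℤ} (h1 : g < τ) (h2 : τ ≤ g + m) : arc m τ L g ↔ g + m < τ + L := by
  rw [← arc_add, arc_of_ge h2 (by omega)]

/-- Rows `c`, `c'` can be exchanged on the gaps `[τ, e)`. -/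
structure Sw (m : ℤ) (pos : ι → Option ℤ) (ψ : ι → ℤ → Bool) (c c' : ι) (τ e : ℤ) : Prop where
  lt : τ < e
  lt' : e < τ + m
  left : ψ c (τ - 1) = ψ c' (τ - 1)
  right : ψ c e = ψ c' e
  nomark : ∀ j, τ ≤ j → j ≤ e → ¬ Mark m pos c j ∧ ¬ Mark m pos c' j

/-- the result of exchanging rows on an arc -/
def sw (m : ℤ) (ψ : ι → ℤ → Bool) (c c' : ι) (τ e : ℤ) : ι → ℤ → Bool :=
  swapOn (arc m τ (e - τ)) c c' ψ

lemma Sw.valid (hψ : Valid m b pos ψ) {c c' : ι} {τ e : ℤ} (h : Sw m pos ψ c c' τ e) :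
    Valid m b pos (sw m ψ c c' τ e) := by
  have hm : 0 < m := by have := h.lt; have := h.lt'; omega
  have hlt := h.lt
  have hlt' := h.lt'
  -- representative
  have key : ∀ j : ℤ, ∃ i n : ℤ, j = i + m * n ∧ τ ≤ i ∧ i < τ + m ∧ i - τ = (j - τ) % m := by
    intro j
    refine ⟨τ + (j - τ) % m, (j - τ) / m, ?_, ?_, ?_, by ring⟩
    · have := Int.emod_add_mul_ediv (j - τ) m
      linarith
    · have := Int.emod_nonneg (j - τ) hm.ne'
      omega
    · have := Int.emod_lt_of_pos (j - τ) hm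
      omega
  refine hψ.swapOn (fun j => arc_add j) ?_ ?_ ?_
  · intro j hj hj'
    obtain ⟨i, n, e1, e2, e3, e4⟩ := key j
    have hi : i = τ := by
      by_contra hne
      apply hj'
      unfold arc at hj ⊢
      have : j - 1 - τ = (i - 1 - τ) + m * n := by rw [e1]; ring
      rw [this, Int.add_mul_emod_self_left, Int.emod_eq_of_lt (by omega) (by omega)]
      omega
    exact hψ.congr hψ h.left ⟨n, by rw [e1, hi]; ring⟩
  · intro j hj hj'
    obtain ⟨i, n, e1, e2, e3, e4⟩ := key j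
    have hi : i = e := by
      unfold arc at hj hj'
      by_cases hi0 : i = τ
      · exfalso; apply hj; rw [← e4]; omega
      · have : j - 1 - τ = (i - 1 - τ) + m * n := by rw [e1]; ring
        rw [this, Int.add_mul_emod_self_left, Int.emod_eq_of_lt (by omega) (by omega)] at hj'
        omega
    exact hψ.congr hψ h.right ⟨n, by rw [e1, hi]; ring⟩
  · intro j hj
    obtain ⟨i, n, e1, e2, e3, e4⟩ := key j
    have hi : τ ≤ i ∧ i ≤ e := by
      refine ⟨e2, ?_⟩
      unfold arc at hj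
      rcases hj with hj | hj
      · omega
      · by_cases hi0 : i = τ
        · omega
        · have : j - 1 - τ = (i - 1 - τ) + m * n := by rw [e1]; ring
          rw [this, Int.add_mul_emod_self_left, Int.emod_eq_of_lt (by omega) (by omega)] at hj
          omega
    have hno := h.nomark i hi.1 hi.2
    constructor
    · intro hmk
      exact absurd (hmk.congr ⟨-n, by rw [e1]; ring⟩) hno.1
    · intro hmk
      exact absurd (hmk.congr ⟨-n, by rw [e1]; ring⟩) hno.2

end

/-- number of rows of `S` which are in at gap `g` -/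
def cnt {ι : Type*} (S : Finset ι) (ψ : ι → ℤ → Bool) (g : ℤ) : ℕ :=
  (S.filter (fun c => ψ c g = true)).card

/-- valid states which have the same column sums -/
structure Same {ι : Type*} [Fintype ι] (m : ℤ) (b : Bool) (pos : ι → Option ℤ)
    (ψ ψ' : ι → ℤ → Bool) : Prop where
  left : Valid m b pos ψ
  right : Valid m b pos ψ'
  cnt : ∀ g, cnt univ ψ g = cnt univ ψ' g

/-- a move changing at most `k` rows -/
def Step {ι : Type*} [Fintype ι] (m : ℤ) (b : Bool) (pos : ι → Option ℤ) (k : ℕ)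
    (ψ ψ' : ι → ℤ → Bool) : Prop :=
  Same m b pos ψ ψ' ∧ ∃ D : Finset ι, D.card ≤ k ∧ ∀ c, c ∉ D → ψ c = ψ' c

/-- connected by moves changing at most `k` rows -/
def Conn {ι : Type*} [Fintype ι] (m : ℤ) (b : Bool) (pos : ι → Option ℤ) (k : ℕ) :
    (ι → ℤ → Bool) → (ι → ℤ → Bool) → Prop :=
  Relation.ReflTransGen (Step m b pos k)

section
variable {ι : Type*} [Fintype ι] [DecidableEq ι] {m : ℤ} {b : Bool} {pos : ι → Option ℤ}
  {ψ ψ' ψ'' : ι → ℤ → Bool} {k : ℕ}

lemma Same.symm (h : Same m b pos ψ ψ') : Same m b pos ψ' ψ :=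
  ⟨h.right, h.left, fun g => (h.cnt g).symm⟩

lemma Same.trans (h : Same m b pos ψ ψ') (h' : Same m b pos ψ' ψ'') : Same m b pos ψ ψ'' :=
  ⟨h.left, h'.right, fun g => (h.cnt g).trans (h'.cnt g)⟩

lemma Step.symm (h : Step m b pos k ψ ψ') : Step m b pos k ψ' ψ :=
  ⟨h.1.symm, by obtain ⟨D, h1, h2⟩ := h.2; exact ⟨D, h1, fun c hc => (h2 c hc).symm⟩⟩

lemma Conn.symm (h : Conn m b pos k ψ ψ') : Conn m b pos k ψ' ψ := by
  induction h with
  | refl => exact .refl
  | tail _ h2 ih => exact Relation.ReflTransGen.head h2.symm ih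

lemma Conn.trans (h : Conn m b pos k ψ ψ') (h' : Conn m b pos k ψ' ψ'') :
    Conn m b pos k ψ ψ'' := Relation.ReflTransGen.trans h h'

lemma Step.conn (h : Step m b pos k ψ ψ') : Conn m b pos k ψ ψ' := Relation.ReflTransGen.single h

lemma Conn.mono {k' : ℕ} (hk : k ≤ k') (h : Conn m b pos k ψ ψ') : Conn m b pos k' ψ ψ' := by
  induction h with
  | refl => exact .refl
  | tail _ h2 ih =>
    obtain ⟨h1, D, h2, h3⟩ := h2
    exact ih.tail ⟨h1, D, h2.trans hk, h3⟩

lemma Conn.same (hψ : Valid m b pos ψ) (h : Conn m b pos k ψ ψ') : Same m b pos ψ ψ' := by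
  induction h with
  | refl => exact ⟨hψ, hψ, fun _ => rfl⟩
  | tail _ h2 ih => exact ih.trans h2.1

lemma cnt_swapOn {A : ℤ → Prop} [DecidablePred A] {c c' : ι} (g : ℤ) :
    cnt univ (swapOn A c c' ψ) g = cnt univ ψ g := by
  unfold cnt swapOn
  by_cases hA : A g
  · simp only [hA, if_true]
    refine Finset.card_bij (fun x _ => Equiv.swap c c' x) ?_ ?_ ?_
    · intro a ha; simpa using ha
    · intro a _ b _ h; exact (Equiv.swap c c').injective h
    · intro d hd
      exact ⟨Equiv.swap c c' d, by simpa using hd, by simp⟩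
  · simp [hA]

lemma swapOn_step {A : ℤ → Prop} [DecidablePred A] {c c' : ι} (hψ : Valid m b pos ψ)
    (h : Valid m b pos (swapOn A c c' ψ)) : Step m b pos 2 ψ (swapOn A c c' ψ) := by
  refine ⟨⟨hψ, h, fun g => (cnt_swapOn g).symm⟩, {c, c'}, Finset.card_le_two, ?_⟩
  intro x hx
  simp only [mem_insert, mem_singleton, not_or] at hx
  funext g
  simp [swapOn, Equiv.swap_apply_of_ne_of_ne hx.1 hx.2]

lemma Sw.step (hψ : Valid m b pos ψ) {c c' : ι} {τ e : ℤ} (h : Sw m pos ψ c c' τ e) :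
    Step m b pos 2 ψ (sw m ψ c c' τ e) :=
  swapOn_step hψ (h.valid hψ)

/-- exchanging two complete rows with the same marks -/
lemma whole_step (hψ : Valid m b pos ψ) {c c' : ι} (h : pos c = pos c') :
    Step m b pos 2 ψ (swapOn (fun _ => True) c c' ψ) := by
  refine swapOn_step hψ (hψ.swapOn (fun _ => Iff.rfl) (by simp) (by simp) ?_)
  intro j _
  simp [Mark, h]

end

end Pool.Agent.Helper16.Wheel
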