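import Pool.Agent.Helper16.Wheel.Defs
import Pool.Agent.Helper16.Wheel.Model

set_option linter.unusedSectionVars false

namespace Pool.Agent.Helper16.Wheel

open Finset

section
variable {n : ℕ} (hn : 3 ≤ n)

/-- rim vertex number `j` (mod `n`) -/
def vtx (n : ℕ) (j : ℤ) : Fin (n + 1) := Fin.ofNat (n + 1) (j % n).toNat

lemma emod_bounds (hn : 3 ≤ n) (j : ℤ) : 0 ≤ j % n ∧ j % n < n :=
  ⟨Int.emod_nonneg _ (by omega), Int.emod_lt_of_pos _ (by omega)⟩

lemma vtx_val (hn : 3 ≤ n) (j : ℤ) : ((vtx n j).val : ℤ) = j % n := by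
  have := emod_bounds hn j
  have h2 : (vtx n j).val = (j % n).toNat := by
    unfold vtx
    rw [Fin.val_ofNat, Nat.mod_eq_of_lt]
    omega
  rw [h2, Int.toNat_of_nonneg this.1]

lemma vtx_eq_iff (hn : 3 ≤ n) (i j : ℤ) : vtx n i = vtx n j ↔ (n : ℤ) ∣ j - i := by
  rw [Fin.ext_iff]
  have h1 := vtx_val hn i
  have h2 := vtx_val hn j
  constructor
  · intro h
    rw [h] at h1
    rw [h1] at h2
    exact Int.ModEq.dvd h2
  · intro h
    have : i % n = j % n := (Int.modEq_iff_dvd.2 h)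
    omega

lemma vtx_ne_last (hn : 3 ≤ n) (j : ℤ) : vtx n j ≠ Fin.last n := by
  intro h
  have h1 := vtx_val hn j
  have := emod_bounds hn j
  rw [h, Fin.val_last] at h1
  omega

lemma not_dvd_one (hn : 3 ≤ n) : ¬ (n : ℤ) ∣ 1 := by
  intro h
  have := Int.le_of_dvd one_pos h
  omega

lemma not_dvd_two (hn : 3 ≤ n) : ¬ (n : ℤ) ∣ 2 := by
  intro h
  have := Int.le_of_dvd two_pos h
  omega

lemma vtx_ne_succ (hn : 3 ≤ n) (j : ℤ) : vtx n j ≠ vtx n (j + 1) := by
  rw [Ne, vtx_eq_iff hn]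
  have : j + 1 - j = 1 := by ring
  rw [this]
  exact not_dvd_one hn

lemma rim_adj (hn : 3 ≤ n) (j : ℤ) : (wheel (n + 1)).Adj (vtx n j) (vtx n (j + 1)) := by
  unfold wheel
  rw [SimpleGraph.fromRel_adj]
  refine ⟨vtx_ne_succ hn j, ?_⟩
  have h1 := vtx_val hn j
  have h2 := vtx_val hn (j + 1)
  have b1 := emod_bounds hn j
  have b2 := emod_bounds hn (j + 1)
  have e1 := Int.emod_add_mul_ediv j n
  by_cases h : j % n = n - 1
  · right; right; left
    have : (j + 1) % n = 0 := by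
      apply Int.emod_eq_zero_of_dvd
      exact ⟨j / n + 1, by rw [mul_add]; omega⟩
    rw [this] at h2
    rw [h] at h1
    omega
  · left; left
    have : (j + 1) % n = j % n + 1 := by
      have h3 : j + 1 = (j % n + 1) + n * (j / n) := by omega
      rw [h3, Int.add_mul_emod_self_left, Int.emod_eq_of_lt (by omega) (by omega)]
    rw [this] at h2
    omega

lemma spoke_adj (hn : 3 ≤ n) (j : ℤ) : (wheel (n + 1)).Adj (vtx n j) (Fin.last n) := by
  unfold wheel
  rw [SimpleGraph.fromRel_adj]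
  refine ⟨vtx_ne_last hn j, ?_⟩
  left; right; right
  simp

/-- rim edges -/
def rimE (hn : 3 ≤ n) (j : ℤ) : (wheel (n + 1)).edgeSet :=
  ⟨s(vtx n j, vtx n (j + 1)), rim_adj hn j⟩

/-- spokes -/
def spE (hn : 3 ≤ n) (j : ℤ) : (wheel (n + 1)).edgeSet :=
  ⟨s(vtx n j, Fin.last n), spoke_adj hn j⟩

lemma mem_rimE (j : ℤ) (v : Fin (n + 1)) :
    v ∈ ((rimE hn j : (wheel (n + 1)).edgeSet) : Sym2 (Fin (n + 1))) ↔
      v = vtx n j ∨ v = vtx n (j + 1) := by
  simp [rimE]

lemma mem_spE (j : ℤ) (v : Fin (n + 1)) :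
    v ∈ ((spE hn j : (wheel (n + 1)).edgeSet) : Sym2 (Fin (n + 1))) ↔
      v = vtx n j ∨ v = Fin.last n := by
  simp [spE]

lemma rimE_eq_iff (i j : ℤ) : rimE hn i = rimE hn j ↔ (n : ℤ) ∣ j - i := by
  constructor
  · intro h
    have h1 : vtx n i ∈ ((rimE hn j : (wheel (n + 1)).edgeSet) : Sym2 (Fin (n + 1))) := by
      rw [← h, mem_rimE]; simp
    have h2 : vtx n (i + 1) ∈ ((rimE hn j : (wheel (n + 1)).edgeSet) : Sym2 (Fin (n + 1))) := by
      rw [← h, mem_rimE]; simp
    rw [mem_rimE, vtx_eq_iff hn, vtx_eq_iff hn] at h1 h2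
    rcases h1 with h1 | h1
    · exact h1
    · rcases h2 with h2 | h2
      · exfalso
        have := dvd_sub h1 h2
        have e : j + 1 - i - (j - (i + 1)) = 2 := by ring
        rw [e] at this
        exact not_dvd_two hn this
      · have e : j + 1 - (i + 1) = j - i := by ring
        rwa [e] at h2
  · intro h
    apply Subtype.ext
    simp only [rimE]
    have h1 : vtx n i = vtx n j := (vtx_eq_iff hn _ _).2 h
    have h2 : vtx n (i + 1) = vtx n (j + 1) := (vtx_eq_iff hn _ _).2 (by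
      have e : j + 1 - (i + 1) = j - i := by ring
      rwa [e])
    rw [h1, h2]

lemma spE_eq_iff (i j : ℤ) : spE hn i = spE hn j ↔ (n : ℤ) ∣ j - i := by
  constructor
  · intro h
    have h1 : vtx n i ∈ ((spE hn j : (wheel (n + 1)).edgeSet) : Sym2 (Fin (n + 1))) := by
      rw [← h, mem_spE]; simp
    rw [mem_spE, vtx_eq_iff hn] at h1
    rcases h1 with h1 | h1
    · exact h1
    · exact absurd h1 (vtx_ne_last hn i)
  · intro h
    apply Subtype.ext
    simp only [spE]
    rw [(vtx_eq_iff hn i j).2 h]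

lemma rimE_ne_spE (i j : ℤ) : rimE hn i ≠ spE hn j := by
  intro h
  have h1 : Fin.last n ∈ ((rimE hn i : (wheel (n + 1)).edgeSet) : Sym2 (Fin (n + 1))) := by
    rw [h, mem_spE]; simp
  rw [mem_rimE] at h1
  rcases h1 with h1 | h1
  · exact vtx_ne_last hn _ h1.symm
  · exact vtx_ne_last hn _ h1.symm

lemma vtx_self (hn : 3 ≤ n) {i : ℕ} (hi : i < n) (h : i < n + 1) : vtx n (i : ℤ) = ⟨i, h⟩ := by
  rw [Fin.ext_iff]
  have := vtx_val hn (i : ℤ)
  rw [Int.emod_eq_of_lt (by omega) (by omega)] at this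
  simp only
  omega

lemma vtx_n (hn : 3 ≤ n) : vtx n (n : ℤ) = 0 := by
  rw [Fin.ext_iff]
  have := vtx_val hn (n : ℤ)
  rw [Int.emod_self] at this
  simp only [Fin.val_zero]
  omega

/-- every edge of the wheel is a rim edge or a spoke -/
lemma edge_cases (e : (wheel (n + 1)).edgeSet) : ∃ j, e = rimE hn j ∨ e = spE hn j := by
  obtain ⟨e, he⟩ := e
  induction e using Sym2.ind with
  | _ a b =>
    have hadj : (wheel (n + 1)).Adj a b := he
    have key : ∀ (a b : Fin (n + 1)), a ≠ b → (a.val + 1 = b.val ∨ (a.val = 0 ∧ b.val + 2 = n + 1) ∨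
        b.val + 1 = n + 1) → ∃ j, s(a, b) = s(vtx n j, vtx n (j + 1)) ∨
          s(a, b) = s(vtx n j, Fin.last n) := by
      intro a b hne hab
      by_cases hb : b.val = n
      · refine ⟨(a.val : ℤ), Or.inr ?_⟩
        have ha : a.val < n := by
          have := a.isLt
          rcases Nat.lt_or_ge a.val n with h | h
          · exact h
          · exact absurd (Fin.ext (by omega)) hne
        rw [vtx_self hn ha a.isLt]
        have : b = Fin.last n := Fin.ext (by simp [hb])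
        rw [this]
      · rcases hab with h | ⟨h1, h2⟩ | h
        · refine ⟨(a.val : ℤ), Or.inl ?_⟩
          have hb' := b.isLt
          rw [vtx_self hn (by omega) a.isLt]
          have : ((a.val : ℤ) + 1) = ((b.val : ℕ) : ℤ) := by omega
          rw [this, vtx_self hn (by omega) b.isLt]
        · refine ⟨(b.val : ℤ), Or.inl ?_⟩
          rw [vtx_self hn (by omega) b.isLt]
          have : ((b.val : ℤ) + 1) = (n : ℤ) := by omega
          have ha : a = 0 := Fin.ext (by simpa using h1)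
          rw [this, vtx_n hn, Sym2.eq_swap, ha]
        · omega
    unfold wheel at hadj
    rw [SimpleGraph.fromRel_adj] at hadj
    obtain ⟨hne, h | h⟩ := hadj
    · obtain ⟨j, hj | hj⟩ := key a b hne h
      · exact ⟨j, Or.inl (Subtype.ext hj)⟩
      · exact ⟨j, Or.inr (Subtype.ext hj)⟩
    · obtain ⟨j, hj | hj⟩ := key b a hne.symm h
      · exact ⟨j, Or.inl (Subtype.ext (Sym2.eq_swap.trans hj))⟩
      · exact ⟨j, Or.inr (Subtype.ext (Sym2.eq_swap.trans hj))⟩

/-- rim edges present in a row -/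
def Rof (ρ : ℤ → Bool) (j : ℤ) : Prop := ρ j = true ↔ Odd j

/-- conditions on a row -/
structure RowOK (n : ℕ) (ρ : ℤ → Bool) (p : Option ℤ) : Prop where
  per : ∀ j, Rof ρ (j + n) ↔ Rof ρ j
  disj : ∀ j, ¬ (Rof ρ (j - 1) ∧ Rof ρ j)
  sp : ∀ j s, p = some s → (n : ℤ) ∣ j - s → ¬ Rof ρ (j - 1) ∧ ¬ Rof ρ j

lemma RowOK.congr {ρ : ℤ → Bool} {p : Option ℤ} (h : RowOK n ρ p) {i j : ℤ}
    (hd : (n : ℤ) ∣ j - i) : Rof ρ i ↔ Rof ρ j := by
  obtain ⟨q, hq⟩ := hd
  have key : ∀ q : ℤ, Rof ρ (i + n * q) ↔ Rof ρ i := by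
    intro q
    induction q using Int.induction_on with
    | zero => simp
    | succ k ih =>
      have e : i + n * ((k : ℤ) + 1) = (i + n * k) + n := by ring
      rw [e, h.per, ih]
    | pred k ih =>
      have e : i + n * (-(k : ℤ)) = (i + n * (-(k : ℤ) - 1)) + n := by ring
      rw [e, h.per] at ih
      exact ih
  have := key q
  rw [← hq] at this
  rw [← this]
  ring_nf

open Classical in
/-- the set of edges of a row -/
noncomputable def mset (ρ : ℤ → Bool) (p : Option ℤ) : Finset (wheel (n + 1)).edgeSet :=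
  univ.filter (fun e => (∃ j, e = rimE hn j ∧ Rof ρ j) ∨
    (∃ j s, e = spE hn j ∧ p = some s ∧ (n : ℤ) ∣ j - s))

lemma rim_mem_mset {ρ : ℤ → Bool} {p : Option ℤ} (h : RowOK n ρ p) (j : ℤ) :
    rimE hn j ∈ mset hn ρ p ↔ Rof ρ j := by
  simp only [mset, mem_filter, mem_univ, true_and]
  constructor
  · rintro (⟨i, h1, h2⟩ | ⟨i, s, h1, -⟩)
    · rw [rimE_eq_iff] at h1
      exact (h.congr h1).2 h2
    · exact absurd h1 (rimE_ne_spE hn _ _)
  · intro hj
    exact Or.inl ⟨j, rfl, hj⟩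

lemma sp_mem_mset {ρ : ℤ → Bool} {p : Option ℤ} (j : ℤ) :
    spE hn j ∈ mset hn ρ p ↔ ∃ s, p = some s ∧ (n : ℤ) ∣ j - s := by
  simp only [mset, mem_filter, mem_univ, true_and]
  constructor
  · rintro (⟨i, h1, h2⟩ | ⟨i, s, h1, h2, h3⟩)
    · exact absurd h1.symm (rimE_ne_spE hn _ _)
    · rw [spE_eq_iff] at h1
      refine ⟨s, h2, ?_⟩
      have := dvd_sub h3 h1
      have e : i - s - (i - j) = j - s := by ring
      rwa [e] at this
  · rintro ⟨s, h1, h2⟩
    exact Or.inr ⟨j, s, rfl, h1, h2⟩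

lemma mset_matching {ρ : ℤ → Bool} {p : Option ℤ} (h : RowOK n ρ p) :
    ∀ e ∈ mset hn ρ p, ∀ f ∈ mset hn ρ p, ∀ v : Fin (n + 1),
      v ∈ (e : Sym2 (Fin (n + 1))) → v ∈ (f : Sym2 (Fin (n + 1))) → e = f := by
  intro e he f hf v hve hvf
  obtain ⟨i, rfl | rfl⟩ := edge_cases hn e <;> obtain ⟨j, rfl | rfl⟩ := edge_cases hn f
  · rw [rim_mem_mset hn h] at he hf
    rw [mem_rimE] at hve hvf
    rw [rimE_eq_iff]
    have aux : ∀ i j : ℤ, Rof ρ i → Rof ρ j → vtx n i = vtx n (j + 1) → False := by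
      intro i j h1 h2 h3
      rw [vtx_eq_iff hn] at h3
      have h4 := (h.congr h3).1 h1
      apply h.disj (j + 1)
      rw [add_sub_cancel_right]
      exact ⟨h2, h4⟩
    rcases hve with rfl | rfl
    · rcases hvf with hvf | hvf
      · exact (vtx_eq_iff hn _ _).1 hvf
      · exact absurd (aux i j he hf hvf) id
    · rcases hvf with hvf | hvf
      · exact absurd (aux j i hf he hvf.symm) id
      · rw [vtx_eq_iff hn] at hvf
        have e : j + 1 - (i + 1) = j - i := by ring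
        rwa [e] at hvf
  · exfalso
    rw [rim_mem_mset hn h] at he
    rw [sp_mem_mset] at hf
    rw [mem_rimE] at hve
    rw [mem_spE] at hvf
    obtain ⟨s, h1, h2⟩ := hf
    have h3 := h.sp j s h1 h2
    rcases hvf with rfl | rfl
    · rcases hve with h4 | h4
      · rw [vtx_eq_iff hn] at h4
        exact h3.2 ((h.congr h4).2 he)
      · rw [vtx_eq_iff hn] at h4
        have : (n : ℤ) ∣ i - (j - 1) := by
          have e : i - (j - 1) = i + 1 - j := by ring
          rwa [e]
        exact h3.1 ((h.congr this).2 he)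
    · rcases hve with h4 | h4
      · exact vtx_ne_last hn _ h4.symm
      · exact vtx_ne_last hn _ h4.symm
  · exfalso
    rw [rim_mem_mset hn h] at hf
    rw [sp_mem_mset] at he
    rw [mem_rimE] at hvf
    rw [mem_spE] at hve
    obtain ⟨s, h1, h2⟩ := he
    have h3 := h.sp i s h1 h2
    rcases hve with rfl | rfl
    · rcases hvf with h4 | h4
      · rw [vtx_eq_iff hn] at h4
        exact h3.2 ((h.congr h4).2 hf)
      · rw [vtx_eq_iff hn] at h4
        have : (n : ℤ) ∣ j - (i - 1) := by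
          have e : j - (i - 1) = j + 1 - i := by ring
          rwa [e]
        exact h3.1 ((h.congr this).2 hf)
    · rcases hvf with h4 | h4
      · exact vtx_ne_last hn _ h4.symm
      · exact vtx_ne_last hn _ h4.symm
  · rw [sp_mem_mset] at he hf
    obtain ⟨s, h1, h2⟩ := he
    obtain ⟨s', h1', h2'⟩ := hf
    rw [h1] at h1'
    cases h1'
    rw [spE_eq_iff]
    have := dvd_sub h2' h2
    have e : j - s - (i - s) = j - i := by ring
    rwa [e] at this

open Classical in
/-- the matching of a row -/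
noncomputable def matOf (ρ : ℤ → Bool) (p : Option ℤ) : Matching (wheel (n + 1)) :=
  if h : RowOK n ρ p then ⟨mset hn ρ p, mset_matching hn h⟩ else ⟨∅, by simp⟩

lemma matOf_val {ρ : ℤ → Bool} {p : Option ℤ} (h : RowOK n ρ p) :
    (matOf hn ρ p).1 = mset hn ρ p := by
  simp [matOf, h]

open Classical in
/-- the row of a matching -/
noncomputable def rowOf (M : Matching (wheel (n + 1))) : ℤ → Bool :=
  fun j => decide (rimE hn j ∈ M.1 ↔ Odd j)

open Classical in
/-- the spoke of a matching -/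
noncomputable def posOf (M : Matching (wheel (n + 1))) : Option ℤ :=
  if h : ∃ j : ℤ, 0 ≤ j ∧ j < n ∧ spE hn j ∈ M.1 then some h.choose else none

lemma Rof_rowOf (M : Matching (wheel (n + 1))) (j : ℤ) : Rof (rowOf hn M) j ↔ rimE hn j ∈ M.1 := by
  unfold Rof rowOf
  rw [decide_eq_true_iff]
  tauto

lemma sp_unique (M : Matching (wheel (n + 1))) {i j : ℤ} (hi : spE hn i ∈ M.1)
    (hj : spE hn j ∈ M.1) : (n : ℤ) ∣ j - i := by
  rw [← spE_eq_iff hn]
  exact M.2 _ hi _ hj (Fin.last n) (by rw [mem_spE]; simp) (by rw [mem_spE]; simp)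

lemma posOf_spec (M : Matching (wheel (n + 1))) {s : ℤ} (h : posOf hn M = some s) :
    0 ≤ s ∧ s < n ∧ spE hn s ∈ M.1 := by
  unfold posOf at h
  split_ifs at h with h1
  cases h
  exact h1.choose_spec

lemma mark_posOf (M : Matching (wheel (n + 1))) (j : ℤ) :
    (∃ s, posOf hn M = some s ∧ (n : ℤ) ∣ j - s) ↔ spE hn j ∈ M.1 := by
  constructor
  · rintro ⟨s, h1, h2⟩
    obtain ⟨-, -, h3⟩ := posOf_spec hn M h1
    rwa [(spE_eq_iff hn s j).2 h2] at h3
  · intro h
    have hex : ∃ j : ℤ, 0 ≤ j ∧ j < n ∧ spE hn j ∈ M.1 := by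
      have b := emod_bounds hn j
      refine ⟨j % n, b.1, b.2, ?_⟩
      have : spE hn (j % n) = spE hn j := by
        rw [spE_eq_iff]
        have := Int.emod_add_mul_ediv j n
        exact ⟨j / n, by omega⟩
      rwa [this]
    have hs : posOf hn M = some hex.choose := by simp [posOf, hex]
    refine ⟨hex.choose, hs, ?_⟩
    exact sp_unique hn M hex.choose_spec.2.2 h

lemma posOf_eq_some_iff (M : Matching (wheel (n + 1))) {s : ℤ} (h0 : 0 ≤ s) (h1 : s < n) :
    posOf hn M = some s ↔ spE hn s ∈ M.1 := by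
  constructor
  · intro h; exact (posOf_spec hn M h).2.2
  · intro h
    obtain ⟨s', h2, h3⟩ := (mark_posOf hn M s).2 h
    obtain ⟨h4, h5, h6⟩ := posOf_spec hn M h2
    obtain ⟨q, hq⟩ := h3
    have hs : s = s' := by
      have hq0 : q = 0 := by
        by_contra hne
        rcases lt_or_gt_of_ne hne with h7 | h7
        · have : (n : ℤ) * q ≤ n * (-1) := mul_le_mul_of_nonneg_left (by omega) (by omega)
          omega
        · have : (n : ℤ) * 1 ≤ n * q := mul_le_mul_of_nonneg_left (by omega) (by omega)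
          omega
      rw [hq0] at hq
      omega
    rw [hs]; exact h2

lemma rowOK_rowOf (M : Matching (wheel (n + 1))) : RowOK n (rowOf hn M) (posOf hn M) := by
  refine ⟨?_, ?_, ?_⟩
  · intro j
    rw [Rof_rowOf, Rof_rowOf]
    have : rimE hn (j + n) = rimE hn j := by
      rw [rimE_eq_iff]; exact ⟨-1, by ring⟩
    rw [this]
  · rintro j ⟨h1, h2⟩
    rw [Rof_rowOf] at h1 h2
    have := M.2 _ h1 _ h2 (vtx n j) (by rw [mem_rimE]; right; rw [sub_add_cancel])
      (by rw [mem_rimE]; simp)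
    rw [rimE_eq_iff] at this
    have e : j - (j - 1) = 1 := by ring
    rw [e] at this
    exact not_dvd_one hn this
  · intro j s h1 h2
    have hsp := (mark_posOf hn M j).1 ⟨s, h1, h2⟩
    rw [Rof_rowOf, Rof_rowOf]
    constructor
    · intro h3
      exact rimE_ne_spE hn _ _ (M.2 _ h3 _ hsp (vtx n j)
        (by rw [mem_rimE]; right; rw [sub_add_cancel]) (by rw [mem_spE]; simp))
    · intro h3
      exact rimE_ne_spE hn _ _ (M.2 _ h3 _ hsp (vtx n j)
        (by rw [mem_rimE]; simp) (by rw [mem_spE]; simp))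

lemma matOf_rowOf (M : Matching (wheel (n + 1))) : matOf hn (rowOf hn M) (posOf hn M) = M := by
  have hok := rowOK_rowOf hn M
  apply Subtype.ext
  rw [matOf_val hn hok]
  ext e
  obtain ⟨j, rfl | rfl⟩ := edge_cases hn e
  · rw [rim_mem_mset hn hok, Rof_rowOf]
  · rw [sp_mem_mset, mark_posOf]

end

end Pool.Agent.Helper16.Wheel
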