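import Pool.Agent.Helper16.Wheel.Upper
import Pool.Agent.Helper16.Wheel.Chain

set_option linter.unusedSectionVars false

namespace Pool.Agent.Helper16.Wheel

open Finset

section
variable {n : ℕ} (hn : 3 ≤ n)

lemma posOf_matOf {ρ : ℤ → Bool} {s : ℤ} (h : RowOK n ρ (some s)) (h0 : 0 ≤ s) (h1 : s < n) :
    posOf hn (matOf hn ρ (some s)) = some s := by
  rw [posOf_eq_some_iff hn _ h0 h1, matOf_val hn h, sp_mem_mset]
  exact ⟨s, rfl, by simp⟩

lemma rowOf_matOf {ρ : ℤ → Bool} {p : Option ℤ} (h : RowOK n ρ p) :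
    rowOf hn (matOf hn ρ p) = ρ := by
  funext j
  have h1 : Rof (rowOf hn (matOf hn ρ p)) j ↔ Rof ρ j := by
    rw [Rof_rowOf, matOf_val hn h, rim_mem_mset hn h]
  rcases Int.even_or_odd j with hj | hj
  · rw [Rof_even hj, Rof_even hj] at h1
    cases h2 : rowOf hn (matOf hn ρ p) j <;> cases h3 : ρ j <;> simp_all
  · rw [Rof_odd hj, Rof_odd hj] at h1
    cases h2 : rowOf hn (matOf hn ρ p) j <;> cases h3 : ρ j <;> simp_all

/-- the four base rows -/
def base (n : ℕ) (c : Fin 4) (g : ℤ) : Bool :=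
  if c = 0 then decide (g % n = 0) else if c = 1 then decide (g % n ≠ 1) else
    if c = 2 then decide (g % n = 2) else decide (g % n < 3)

/-- the positions of the spokes -/
def pos4 (c : Fin 4) : Option ℤ := some (c.val : ℤ)

/-- first state -/
def ψA (n : ℕ) : Fin 4 → ℤ → Bool := base n

/-- second state -/
def ψB (n : ℕ) : Fin 4 → ℤ → Bool := fun c =>
  base n (if c = 0 then 3 else if c = 1 then 0 else if c = 2 then 1 else 2)

lemma emod_pred (hn : 3 ≤ n) (j : ℤ) : (1 ≤ j % n ∧ (j - 1) % n = j % n - 1) ∨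
    (j % n = 0 ∧ (j - 1) % n = n - 1) := by
  have b := emod_bounds hn j
  have e := Int.emod_add_mul_ediv j n
  by_cases h : j % n = 0
  · right
    refine ⟨h, ?_⟩
    have : j - 1 = (n - 1) + n * (j / n - 1) := by
      have : (n : ℤ) * (j / n - 1) = n * (j / n) - n := by ring
      omega
    rw [this, Int.add_mul_emod_self_left, Int.emod_eq_of_lt (by omega) (by omega)]
  · left
    refine ⟨by omega, ?_⟩
    have : j - 1 = (j % n - 1) + n * (j / n) := by omega
    calc (j - 1) % n = ((j % n - 1) + n * (j / n)) % n := by rw [← this]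
      _ = j % n - 1 := by
        rw [Int.add_mul_emod_self_left, Int.emod_eq_of_lt (by omega) (by omega)]

lemma parity_emod (hne : Even (n : ℤ)) (j : ℤ) : Even j ↔ Even (j % n) := by
  have e := Int.emod_add_mul_ediv j n
  have h : Even ((n : ℤ) * (j / n)) := hne.mul_right _
  constructor
  · intro hj
    have : j % n = j - n * (j / n) := by omega
    rw [this]; exact hj.sub h
  · intro hj
    rw [← e]; exact hj.add h

lemma base_valid (hne : Even (n : ℤ)) (hn4 : 4 ≤ n) (c : Fin 4) :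
    (∀ j, Even j → base n c (j - 1) = true → base n c j = true) ∧
    (∀ j, Odd j → base n c j = true → base n c (j - 1) = true) := by
  have hn : 3 ≤ n := by omega
  constructor
  · intro j hj h
    rw [parity_emod hne] at hj
    have b := emod_bounds hn j
    rcases emod_pred hn j with ⟨h1, h2⟩ | ⟨h1, h2⟩
    · obtain ⟨q, hq⟩ := hj
      fin_cases c <;> simp [base, h2] at h ⊢ <;> omega
    · fin_cases c <;> (simp [base, h2, h1] at h ⊢; try omega)
  · intro j hj h
    rw [← Int.not_even_iff_odd, parity_emod hne, Int.not_even_iff_odd] at hj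
    have b := emod_bounds hn j
    rcases emod_pred hn j with ⟨h1, h2⟩ | ⟨h1, h2⟩
    · obtain ⟨q, hq⟩ := hj
      fin_cases c <;> simp [base, h2] at h ⊢ <;> omega
    · rw [h1] at hj
      simp at hj

lemma mark4 {c : Fin 4} {j : ℤ} (hn4 : 4 ≤ n) (h : Mark (n : ℤ) pos4 c j) :
    j % n = c.val := by
  obtain ⟨s, h1, h2⟩ := h
  have h3 : s = (c.val : ℤ) := by
    unfold pos4 at h1
    exact (Option.some.inj h1).symm
  have hc := c.isLt
  rw [h3] at h2
  have h4 : (c.val : ℤ) % n = j % n := Int.modEq_iff_dvd.2 h2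
  rw [← h4, Int.emod_eq_of_lt (by omega) (by omega)]

lemma par_even (hne : Even (n : ℤ)) : par n = false := by
  unfold par
  simpa using hne

lemma valid_A (hne : Even (n : ℤ)) (hn4 : 4 ≤ n) : Valid (n : ℤ) (par n) pos4 (ψA n) := by
  have hn : 3 ≤ n := by omega
  refine ⟨fun c => (base_valid hne hn4 c).1, fun c => (base_valid hne hn4 c).2, ?_, ?_⟩
  · intro c j h
    have h1 := mark4 hn4 h
    have h2 := emod_pred hn j
    fin_cases c <;> simp [ψA, base] at h1 ⊢ <;> omega
  · intro c j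
    rw [par_even hne, Bool.xor_false]
    simp [ψA, base]

lemma valid_B (hne : Even (n : ℤ)) (hn4 : 4 ≤ n) : Valid (n : ℤ) (par n) pos4 (ψB n) := by
  have hn : 3 ≤ n := by omega
  refine ⟨fun c => (base_valid hne hn4 _).1, fun c => (base_valid hne hn4 _).2, ?_, ?_⟩
  · intro c j h
    have h1 := mark4 hn4 h
    have h2 := emod_pred hn j
    fin_cases c <;> simp [ψB, base] at h1 ⊢ <;> omega
  · intro c j
    rw [par_even hne, Bool.xor_false]
    simp [ψB, base]


lemma cnt_four (ψ : Fin 4 → ℤ → Bool) (g : ℤ) : cnt univ ψ g =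
    (ψ 0 g).toNat + (ψ 1 g).toNat + (ψ 2 g).toNat + (ψ 3 g).toNat := by
  unfold cnt
  rw [Finset.card_filter, Fin.sum_univ_four]
  cases ψ 0 g <;> cases ψ 1 g <;> cases ψ 2 g <;> cases ψ 3 g <;> rfl

lemma same_AB (hne : Even (n : ℤ)) (hn4 : 4 ≤ n) :
    Same (n : ℤ) (par n) pos4 (ψA n) (ψB n) := by
  refine ⟨valid_A hne hn4, valid_B hne hn4, fun g => ?_⟩
  rw [cnt_four, cnt_four]
  have b0 : ψB n 0 = ψA n 3 := rfl
  have b1 : ψB n 1 = ψA n 0 := rfl
  have b2 : ψB n 2 = ψA n 1 := rfl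
  have b3 : ψB n 3 = ψA n 2 := rfl
  rw [b0, b1, b2, b3]
  omega

lemma flat_of_cnt {ι : Type*} [Fintype ι] [DecidableEq ι] {m : ℤ} {b : Bool} {pos : ι → Option ℤ}
    {φ : ι → ℤ → Bool} (hφ : Valid m b pos φ) {j : ℤ} (h : cnt univ φ (j - 1) = cnt univ φ j)
    (x : ι) : φ x j = φ x (j - 1) := by
  unfold cnt at h
  rcases Int.even_or_odd j with hj | hj
  · have hsub : univ.filter (fun c => φ c (j - 1) = true) ⊆ univ.filter (fun c => φ c j = true) := by
      intro y hy
      simp only [mem_filter, mem_univ, true_and] at hy ⊢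
      exact hφ.even y j hj hy
    have heq := Finset.eq_of_subset_of_card_le hsub h.ge
    have : x ∈ univ.filter (fun c => φ c (j - 1) = true) ↔
        x ∈ univ.filter (fun c => φ c j = true) := by rw [heq]
    simp only [mem_filter, mem_univ, true_and] at this
    cases h1 : φ x j <;> cases h2 : φ x (j - 1) <;> simp_all
  · have hsub : univ.filter (fun c => φ c j = true) ⊆ univ.filter (fun c => φ c (j - 1) = true) := by
      intro y hy
      simp only [mem_filter, mem_univ, true_and] at hy ⊢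
      exact hφ.odd y j hj hy
    have heq := Finset.eq_of_subset_of_card_le hsub h.le
    have : x ∈ univ.filter (fun c => φ c (j - 1) = true) ↔
        x ∈ univ.filter (fun c => φ c j = true) := by rw [heq]
    simp only [mem_filter, mem_univ, true_and] at this
    cases h1 : φ x j <;> cases h2 : φ x (j - 1) <;> simp_all

lemma finite_check (x : Fin 4 → Fin 4 → Bool)
    (m00 : x 0 0 = true) (m03 : x 0 3 = false) (m10 : x 1 0 = true) (m11 : x 1 1 = false)
    (m21 : x 2 1 = false) (m22 : x 2 2 = true) (m32 : x 3 2 = true) (m33 : x 3 3 = false)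
    (v1 : x 3 1 = true → x 3 0 = true) (v2 : x 0 1 = true → x 0 2 = true)
    (v3 : x 1 3 = true → x 1 2 = true) (v0 : x 2 3 = true → x 2 0 = true)
    (s0 : (x 0 0).toNat + (x 1 0).toNat + (x 2 0).toNat + (x 3 0).toNat = 3)
    (s1 : (x 0 1).toNat + (x 1 1).toNat + (x 2 1).toNat + (x 3 1).toNat = 1)
    (s2 : (x 0 2).toNat + (x 1 2).toNat + (x 2 2).toNat + (x 3 2).toNat = 3)
    (s3 : (x 0 3).toNat + (x 1 3).toNat + (x 2 3).toNat + (x 3 3).toNat = 1) :
    (x 0 1 = false ∧ x 0 2 = false ∧ x 1 2 = true ∧ x 1 3 = true ∧ x 2 0 = false ∧ x 2 3 = false ∧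
      x 3 0 = true ∧ x 3 1 = true) ∨
    (x 0 1 = true ∧ x 0 2 = true ∧ x 1 2 = false ∧ x 1 3 = false ∧ x 2 0 = true ∧ x 2 3 = true ∧
      x 3 0 = false ∧ x 3 1 = false) := by
  rw [m00, m10] at s0
  rw [m11, m21] at s1
  rw [m22, m32] at s2
  rw [m03, m33] at s3
  revert v1 v2 v3 v0 s0 s1 s2 s3
  generalize x 0 1 = a
  generalize x 0 2 = b
  generalize x 1 2 = c
  generalize x 1 3 = d
  generalize x 2 0 = e
  generalize x 2 3 = f
  generalize x 3 0 = g
  generalize x 3 1 = h
  cases a <;> cases h <;> cases g <;> cases e <;> cases b <;> cases c <;> cases d <;> cases f <;>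
    simp

/-- a state with the same column sums as `ψA` sharing a row with it is equal to it -/
lemma unique_A (hne : Even (n : ℤ)) (hn4 : 4 ≤ n) {ψ : Fin 4 → ℤ → Bool}
    (hs : Same (n : ℤ) (par n) pos4 (ψA n) ψ) {c : Fin 4} (hc : ψ c = ψA n c) : ψ = ψA n := by
  have hn : 3 ≤ n := by omega
  have hA : ∀ g : ℤ, 0 ≤ g → g < n → g % n = g := fun g h1 h2 => Int.emod_eq_of_lt h1 h2
  have tab : ∀ g : ℤ, 0 ≤ g → g < n → (ψA n 0 g = decide (g = 0) ∧ ψA n 1 g = decide (g ≠ 1) ∧
      ψA n 2 g = decide (g = 2) ∧ ψA n 3 g = decide (g < 3)) := by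
    intro g h1 h2
    simp [ψA, base, hA g h1 h2]
  have cntA : ∀ g : ℤ, 0 ≤ g → g < n → cnt univ (ψA n) g = if g = 0 ∨ g = 2 then 3 else 1 := by
    intro g h1 h2
    obtain ⟨t0, t1, t2, t3⟩ := tab g h1 h2
    rw [cnt_four, t0, t1, t2, t3]
    by_cases e0 : g = 0
    · subst e0; simp
    by_cases e1 : g = 1
    · subst e1; simp
    by_cases e2 : g = 2
    · subst e2; simp
    have e3 : ¬ g < 3 := by omega
    simp [e0, e1, e2, e3]
  have vA := hs.left
  have v := hs.right
  have cntψ : ∀ g : ℤ, 0 ≤ g → g < n → cnt univ ψ g = if g = 0 ∨ g = 2 then 3 else 1 := by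
    intro g h1 h2
    rw [← hs.cnt, cntA g h1 h2]
  have hflat : ∀ (φ : Fin 4 → ℤ → Bool), Valid (n : ℤ) (par n) pos4 φ →
      (∀ g : ℤ, 0 ≤ g → g < n → cnt univ φ g = if g = 0 ∨ g = 2 then 3 else 1) →
      ∀ k : ℕ, (3 : ℤ) + k < n → ∀ x, φ x (3 + k) = φ x 3 := by
    intro φ hφ hcnt k
    induction k with
    | zero => intro _ x; simp
    | succ k ih =>
      intro hk x
      push_cast at hk ⊢
      have ih' := ih (by omega) x
      rw [← ih']
      have hj : (3 : ℤ) + (k + 1) - 1 = 3 + k := by ring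
      have := flat_of_cnt hφ (j := 3 + (k + 1)) (by
        rw [hj, hcnt _ (by omega) (by omega), hcnt _ (by omega) (by omega), if_neg (by omega),
          if_neg (by omega)]) x
      rw [hj] at this
      exact this
  have hm1 : ∀ (φ : Fin 4 → ℤ → Bool), Valid (n : ℤ) (par n) pos4 φ →
      (∀ g : ℤ, 0 ≤ g → g < n → cnt univ φ g = if g = 0 ∨ g = 2 then 3 else 1) →
      ∀ x, φ x (-1) = φ x 3 := by
    intro φ hφ hcnt x
    have h1 := hφ.per x (-1)
    rw [par_even hne, Bool.xor_false] at h1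
    rw [← h1]
    have := hflat φ hφ hcnt (n - 4) (by omega) x
    rw [← this]
    congr 1
    omega
  -- marks
  have mk : ∀ x : Fin 4, Mark (n : ℤ) pos4 x x.val := fun x => ⟨x.val, rfl, by simp⟩
  have k0 := v.mark_even (c := 0) (j := 0) (by decide) (by simpa using mk 0)
  have k1 := v.mark_odd (c := 1) (j := 1) (by decide) (by simpa using mk 1)
  have k2 := v.mark_even (c := 2) (j := 2) (by decide) (by simpa using mk 2)
  have k3 := v.mark_odd (c := 3) (j := 3) (by decide) (by simpa using mk 3)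
  norm_num at k0 k1 k2 k3
  rw [hm1 ψ v cntψ] at k0
  have e0 := v.even 2 0 (by decide)
  norm_num at e0
  rw [hm1 ψ v cntψ] at e0
  have e1 := v.odd 3 1 (by decide)
  have e2 := v.even 0 2 (by decide)
  have e3 := v.odd 1 3 (by decide)
  norm_num at e1 e2 e3
  have c0 := cntψ 0 (by omega) (by omega)
  have c1 := cntψ 1 (by omega) (by omega)
  have c2 := cntψ 2 (by omega) (by omega)
  have c3 := cntψ 3 (by omega) (by omega)
  rw [cnt_four] at c0 c1 c2 c3
  norm_num at c0 c1 c2 c3
  have chk := finite_check (fun a b => ψ a (b.val : ℤ)) (by simpa using k0.2) (by simpa using k0.1)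
    (by simpa using k1.1) (by simpa using k1.2) (by simpa using k2.1) (by simpa using k2.2)
    (by simpa using k3.1) (by simpa using k3.2) (by simpa using e1) (by simpa using e2)
    (by simpa using e3) (by simpa using e0) (by simpa using c0) (by simpa using c1)
    (by simpa using c2) (by simpa using c3)
  simp only [Fin.val_zero, Fin.val_one, Fin.val_two, Nat.cast_zero, Nat.cast_one, Nat.cast_ofNat,
    show (3 : Fin 4).val = 3 from rfl] at chk
  have tA : ∀ x : Fin 4, ψA n x 0 = (x ≠ 2 : Bool) ∧ ψA n x 1 = (x = 3 : Bool) ∧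
      ψA n x 2 = (x ≠ 0 : Bool) ∧ ψA n x 3 = (x = 1 : Bool) := by
    intro x
    have t0 := tab 0 (by omega) (by omega)
    have t1 := tab 1 (by omega) (by omega)
    have t2 := tab 2 (by omega) (by omega)
    have t3 := tab 3 (by omega) (by omega)
    fin_cases x <;> simp_all
  have good : ψ 0 1 = false ∧ ψ 0 2 = false ∧ ψ 1 2 = true ∧ ψ 1 3 = true ∧ ψ 2 0 = false ∧
      ψ 2 3 = false ∧ ψ 3 0 = true ∧ ψ 3 1 = true := by
    rcases chk with h | h
    · exact h
    · exfalso
      have q0 := congrFun hc 0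
      have q1 := congrFun hc 1
      have q2 := congrFun hc 2
      have q3 := congrFun hc 3
      rw [(tA c).1] at q0
      rw [(tA c).2.1] at q1
      rw [(tA c).2.2.1] at q2
      rw [(tA c).2.2.2] at q3
      fin_cases c <;> simp_all
  have small : ∀ x : Fin 4, ψ x 0 = ψA n x 0 ∧ ψ x 1 = ψA n x 1 ∧ ψ x 2 = ψA n x 2 ∧
      ψ x 3 = ψA n x 3 := by
    intro x
    rw [(tA x).1, (tA x).2.1, (tA x).2.2.1, (tA x).2.2.2]
    fin_cases x <;> simp_all
  refine eq_of_agree (m := (n : ℤ)) (g0 := 0) (by omega) v vA ?_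
  intro g h1 h2 x
  by_cases g0 : g = 0
  · subst g0; exact (small x).1
  by_cases g1 : g = 1
  · subst g1; exact (small x).2.1
  by_cases g2 : g = 2
  · subst g2; exact (small x).2.2.1
  have f1 := hflat ψ v cntψ (g - 3).toNat (by omega) x
  have f2 := hflat (ψA n) vA cntA (g - 3).toNat (by omega) x
  have e : (3 : ℤ) + ((g - 3).toNat : ℤ) = g := by omega
  rw [e] at f1 f2
  rw [f1, f2]
  exact (small x).2.2.2

end

end Pool.Agent.Helper16.Wheel
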