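import Pool.Agent.Helper16.Wheel.Lower

set_option linter.unusedSectionVars false

namespace Pool.Agent.Helper16.Wheel

open Finset

section
variable {n : ℕ} (hn : 3 ≤ n)

lemma ex_apply {r : ℕ} {σ : Type*} (T : Fin r → σ) (M : σ) (h : ex T M ≠ 0) : ∃ i, T i = M := by
  classical
  by_contra hcon
  push Not at hcon
  apply h
  unfold ex
  rw [Finsupp.finsetSum_apply]
  apply Finset.sum_eq_zero
  intro i _
  rw [Finsupp.single_apply, if_neg (hcon i)]

lemma ex_apply_ne {r : ℕ} {σ : Type*} (T : Fin r → σ) (i : Fin r) : ex T (T i) ≠ 0 := by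
  classical
  unfold ex
  rw [Finsupp.finsetSum_apply]
  intro h
  rw [Finset.sum_eq_zero_iff] at h
  have := h i (Finset.mem_univ i)
  simp at this

lemma posOf_tup {ψ : Fin 4 → ℤ → Bool} (hn4 : 4 ≤ n) (h : Valid (n : ℤ) (par n) pos4 ψ)
    (i : Fin 4) : posOf hn (tup hn pos4 ψ i) = pos4 i := by
  have hr := rowOK_of_valid h i
  unfold tup
  have : (i.val : ℤ) < n := by have := i.isLt; omega
  exact posOf_matOf hn hr (by omega) this

lemma rowOf_tup {ψ : Fin 4 → ℤ → Bool} (h : Valid (n : ℤ) (par n) pos4 ψ)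
    (i : Fin 4) : rowOf hn (tup hn pos4 ψ i) = ψ i := rowOf_matOf hn (rowOK_of_valid h i)

lemma pos4_inj {i j : Fin 4} (h : pos4 i = pos4 j) : i = j := by
  unfold pos4 at h
  have := Option.some.inj h
  exact Fin.ext (by omega)

/-- factorisations sharing a matching with the first state are equal to it -/
lemma fiber_A (hne : Even (n : ℤ)) (hn4 : 4 ≤ n) {w : Matching (wheel (n + 1)) →₀ ℕ}
    (hw : EE expo w = EE expo (ex (tup hn pos4 (ψA n)))) {i : Fin 4}
    (hi : w (tup hn pos4 (ψA n) i) ≠ 0) : w = ex (tup hn pos4 (ψA n)) := by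
  have vA := valid_A hne hn4
  obtain ⟨S, h1, h2, h3⟩ := align hn (tup hn pos4 (ψA n)) hw
  have hpos : (fun i => posOf hn (tup hn pos4 (ψA n) i)) = pos4 := by
    funext i; exact posOf_tup hn hn4 vA i
  have hrow : (fun c => rowOf hn (tup hn pos4 (ψA n) c)) = ψA n := by
    funext i; exact rowOf_tup hn vA i
  rw [hpos, hrow] at h3
  rw [← h1] at hi
  obtain ⟨k, hk⟩ := ex_apply S _ hi
  have hki : k = i := by
    apply pos4_inj
    rw [← posOf_tup hn hn4 vA k, ← h2 k, hk, posOf_tup hn hn4 vA]
  subst hki
  have huniq := unique_A hne hn4 h3 (c := k) (by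
    rw [hk]; exact rowOf_tup hn vA k)
  rw [← h1]
  congr 1
  have hS : ∀ c, posOf hn (S c) = pos4 c := fun c => (h2 c).trans (posOf_tup hn hn4 vA c)
  rw [← tup_rowOf hn hS, huniq]

lemma degree_ex {r : ℕ} {σ : Type*} (T : Fin r → σ) : (ex T).degree = r := by
  unfold ex
  rw [map_sum]
  simp

include hn in
/-- For even rim length at least 4 the ideal is not generated in degrees at most 3. -/
theorem lower_even (K : Type*) [Field K] (hne : Even (n : ℤ)) (hn4 : 4 ≤ n) :
    Ideal.span (lowSet (toricIdeal K (wheel (n + 1))) 3) ≠ toricIdeal K (wheel (n + 1)) := by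
  rw [toricIdeal_eq]
  have vA := valid_A hne hn4
  have vB := valid_B hne hn4
  have hsame := same_AB hne hn4
  have hEE : EE expo (ex (tup hn pos4 (ψB n))) = EE expo (ex (tup hn pos4 (ψA n))) := by
    rw [ex, ex, EE_tuple, EE_tuple, expo_of_same hn hsame]
  refine span_low_ne expo (u := ex (tup hn pos4 (ψA n))) (u' := ex (tup hn pos4 (ψB n)))
    (degree_ex _) hEE ?_ ?_
  · intro h
    have h0 : ex (tup hn pos4 (ψB n)) (tup hn pos4 (ψA n) 0) ≠ 0 := by
      rw [h]; exact ex_apply_ne _ 0
    obtain ⟨k, hk⟩ := ex_apply _ _ h0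
    have hk0 : k = 0 := by
      apply pos4_inj
      rw [← posOf_tup hn hn4 vB k, hk, posOf_tup hn hn4 vA]
    subst hk0
    have hr : ψB n 0 = ψA n 0 := by
      rw [← rowOf_tup hn vB 0, hk, rowOf_tup hn vA 0]
    have := congrFun hr 1
    have h1 : (1 : ℤ) % n = 1 := Int.emod_eq_of_lt (by omega) (by omega)
    simp [ψA, ψB, base, h1] at this
  · intro v hv hvne v' hv'
    obtain ⟨z, hz⟩ := exists_add_of_le hv
    have hz0 : z ≠ 0 := by
      rintro rfl
      rw [add_zero] at hz
      exact hvne hz.symm
    obtain ⟨M, hM⟩ := Finsupp.ne_iff.1 hz0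
    simp only [Finsupp.coe_zero, Pi.zero_apply] at hM
    have hMu : ex (tup hn pos4 (ψA n)) M ≠ 0 := by
      rw [hz, Finsupp.add_apply]; omega
    obtain ⟨i, rfl⟩ := ex_apply _ _ hMu
    have hw : v' + z = ex (tup hn pos4 (ψA n)) := by
      apply fiber_A hn hne hn4 (i := i)
      · rw [EE_add, hv', ← EE_add, ← hz]
      · rw [Finsupp.add_apply]; omega
    rw [hz] at hw
    exact add_right_cancel hw

/-- matchings with given edges -/
lemma match_single {V : Type*} {G : SimpleGraph V} (e : G.edgeSet) :
    ∀ a ∈ ({e} : Finset G.edgeSet), ∀ b ∈ ({e} : Finset G.edgeSet), ∀ v : V,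
      v ∈ (a : Sym2 V) → v ∈ (b : Sym2 V) → a = b := by
  intro a ha b hb _ _ _
  rw [Finset.mem_singleton] at ha hb
  rw [ha, hb]

/-- fibers in degree at most one are singletons -/
lemma fiber_one {V : Type*} {G : SimpleGraph V} {v v' : Matching G →₀ ℕ} (hv : v.degree ≤ 1)
    (h : EE expo v' = EE expo v) : v' = v := by
  classical
  obtain ⟨T, hT⟩ := exists_tuple v
  obtain ⟨T', hT'⟩ := exists_tuple v'
  have hTE : EE expo v = ∑ i, expo (T i) := by rw [← EE_tuple, hT]
  have hTE' : EE expo v' = ∑ i, expo (T' i) := by rw [← EE_tuple, hT']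
  have hdeg : v'.degree = v.degree := by
    have h1 := congrArg (fun f => f none) h
    simp only [hTE, hTE'] at h1
    rw [sum_expo_none, sum_expo_none] at h1
    simpa using h1
  rcases Nat.lt_or_ge v.degree 1 with h0 | h0
  · have hv0 : v = 0 := (Finsupp.degree_eq_zero_iff v).1 (by omega)
    have hv0' : v' = 0 := (Finsupp.degree_eq_zero_iff v').1 (by omega)
    rw [hv0, hv0']
  · have h1 : v.degree = 1 := by omega
    have h1' : v'.degree = 1 := by omega
    have key : ∀ v : Matching G →₀ ℕ, v.degree = 1 → ∃ M, v = Finsupp.single M 1 := by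
      intro v hv
      obtain ⟨T, hT⟩ := exists_tuple v
      rw [← hT]
      revert T
      rw [hv]
      intro T _
      exact ⟨T 0, by simp⟩
    obtain ⟨M, rfl⟩ := key v h1
    obtain ⟨M', rfl⟩ := key v' h1'
    rw [EE_single, EE_single] at h
    have : M' = M := by
      apply Subtype.ext
      ext e
      have := congrArg (fun f => f (some e)) h
      simp only [expo_some] at this
      by_cases ha : e ∈ M'.1 <;> by_cases hb : e ∈ M.1 <;> simp_all
    rw [this]

/-- A graph with two disjoint edges has nonzero relations of degree 2. -/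
theorem lower_two (K : Type*) [Field K] {V : Type*} {G : SimpleGraph V} {e f : G.edgeSet}
    (hef : e ≠ f) (hdisj : ∀ v : V, v ∈ (e : Sym2 V) → ¬ v ∈ (f : Sym2 V)) :
    Ideal.span (lowSet (toricIdeal K G) 1) ≠ toricIdeal K G := by
  classical
  rw [toricIdeal_eq]
  set M0 : Matching G := ⟨∅, by simp⟩ with hM0
  set M1 : Matching G := ⟨{e}, match_single e⟩ with hM1
  set M2 : Matching G := ⟨{f}, match_single f⟩ with hM2
  set M12 : Matching G := ⟨{e, f}, by
    intro a ha b hb v hva hvb
    rw [Finset.mem_insert, Finset.mem_singleton] at ha hb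
    rcases ha with rfl | rfl <;> rcases hb with rfl | rfl
    · rfl
    · exact absurd hvb (hdisj v hva)
    · exact absurd hva (hdisj v hvb)
    · rfl⟩ with hM12
  have hEE : EE expo (Finsupp.single M1 1 + Finsupp.single M2 1) =
      EE expo (Finsupp.single M12 1 + Finsupp.single M0 1) := by
    rw [EE_add, EE_add, EE_single, EE_single, EE_single, EE_single]
    ext x
    rw [Finsupp.add_apply, Finsupp.add_apply]
    cases x with
    | none => simp [expo_none]
    | some g =>
      simp only [expo_some, hM0, hM1, hM2, hM12, Finset.mem_insert, Finset.mem_singleton,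
        Finset.notMem_empty, if_false]
      by_cases h1 : g = e
      · subst h1; simp [hef]
      · by_cases h2 : g = f
        · subst h2; simp [h1]
        · simp [h1, h2]
  refine span_low_ne expo (u := Finsupp.single M12 1 + Finsupp.single M0 1)
    (u' := Finsupp.single M1 1 + Finsupp.single M2 1) (k := 1) ?_ hEE ?_ ?_
  · rw [map_add]; simp
  · intro h
    have h1 := congrArg (fun u => u M0) h
    have n1 : M1 ≠ M0 := by
      intro hh
      have := congrArg Subtype.val hh
      simp [hM1, hM0] at this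
    have n2 : M2 ≠ M0 := by
      intro hh
      have := congrArg Subtype.val hh
      simp [hM2, hM0] at this
    simp [Finsupp.single_apply, n1, n2] at h1
  · intro v hv hvne v' hv'
    refine fiber_one ?_ hv'
    obtain ⟨z, hz⟩ := exists_add_of_le hv
    have hz0 : z.degree ≠ 0 := by
      intro h0
      rw [Finsupp.degree_eq_zero_iff] at h0
      rw [h0, add_zero] at hz
      exact hvne hz.symm
    have hd := congrArg Finsupp.degree hz
    rw [map_add, map_add] at hd
    simp at hd
    omega

end

end Pool.Agent.Helper16.Wheel
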