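import Pool.Agent.Helper16.Wheel.MoebiusMain
import Pool.Agent.Helper16.Wheel.Annulus
import Pool.Agent.Helper16.Wheel.LowerMain

namespace Pool.Agent.Helper16.Wheel

theorem main (K : Type*) [Field K] (d : ℕ) (hd : 4 ≤ d) :
    HasOmega (toricIdeal K (wheel d)) (if Even d then 2 else 4) := by
  obtain ⟨n, rfl⟩ : ∃ n, d = n + 1 := ⟨d - 1, by omega⟩
  have hn : 3 ≤ n := by omega
  by_cases hev : Even (n + 1)
  · rw [if_pos hev]
    have hodd : Odd (n : ℤ) := by
      have : Odd n := by
        rcases Nat.even_or_odd n with h | h
        · exact absurd (h.add_one) (Nat.not_odd_iff_even.2 hev)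
        · exact h
      exact_mod_cast this
    have hpar : par n = true := by unfold par; simpa using hodd
    refine hasOmega_of (w := 1) (upper hn K 2 ?_) ?_
    · intro r pos ψ ψ' hs
      rw [hpar] at hs ⊢
      exact moebius (by omega) hodd hs
    · refine lower_two K (e := rimE hn 0) (f := spE hn 2) (rimE_ne_spE hn _ _) ?_
      intro v hv hv'
      rw [mem_rimE] at hv
      rw [mem_spE] at hv'
      rcases hv with rfl | rfl
      · rcases hv' with h | h
        · rw [vtx_eq_iff hn] at h
          exact not_dvd_two hn (by simpa using h)
        · exact vtx_ne_last hn _ h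
      · rcases hv' with h | h
        · rw [vtx_eq_iff hn] at h
          exact not_dvd_one hn (by simpa using h)
        · exact vtx_ne_last hn _ h
  · rw [if_neg hev]
    have hne : Even (n : ℤ) := by
      have : Even n := by
        rcases Nat.even_or_odd n with h | h
        · exact h
        · exact absurd (h.add_one) hev
      exact_mod_cast this
    have hn4 : 4 ≤ n := by
      by_contra h
      have : n = 3 := by omega
      subst this
      exact hev (by decide)
    have hpar : par n = false := par_even hne
    refine hasOmega_of (w := 3) (upper hn K 4 ?_) (lower_even hn K hne hn4)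
    intro r pos ψ ψ' hs
    rw [hpar] at hs ⊢
    exact annulus (by omega) hne hs

end Pool.Agent.Helper16.Wheel
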