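import Pool.Agent.Helper16.Wheel.Reduce

set_option linter.unusedSectionVars false

namespace Pool.Agent.Helper16.Wheel

open Finset

section
variable {ι : Type*} [Fintype ι] [DecidableEq ι] {m : ℤ} {b : Bool} {pos : ι → Option ℤ}
  {ψ ψ' ψ'' : ι → ℤ → Bool} {k : ℕ}

lemma exists_last_mark (hm : 0 < m) {c : ι} (hc : pos c ≠ none) (g : ℤ) :
    ∃ s, Mark m pos c s ∧ s ≤ g ∧ g < s + m := by
  obtain ⟨s0, hs0⟩ := Option.ne_none_iff_exists'.1 hc
  refine ⟨g - (g - s0) % m, ⟨s0, hs0, ?_⟩, ?_, ?_⟩
  · have := Int.emod_add_mul_ediv (g - s0) m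
    exact ⟨(g - s0) / m, by linarith⟩
  · have := Int.emod_nonneg (g - s0) hm.ne'
    omega
  · have := Int.emod_lt_of_pos (g - s0) hm
    omega

lemma Mark.ne_none {c : ι} {s : ℤ} (h : Mark m pos c s) : pos c ≠ none := by
  obtain ⟨s0, h1, -⟩ := h
  rw [h1]; simp

lemma Mark.add {c : ι} {s : ℤ} (h : Mark m pos c s) : Mark m pos c (s + m) :=
  h.congr ⟨1, by ring⟩

lemma Mark.sub {c : ι} {s : ℤ} (h : Mark m pos c s) : Mark m pos c (s - m) :=
  h.congr ⟨-1, by ring⟩

lemma Mark.not_between {c : ι} {s j : ℤ} (h : Mark m pos c s) (h1 : s < j) (h2 : j < s + m) :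
    ¬ Mark m pos c j := by
  intro hj
  have hm : 0 < m := by omega
  have := h.dvd hj
  have := Int.le_of_dvd (by omega) this
  omega

lemma Mark.unique {c : ι} {s s' g : ℤ} (h : Mark m pos c s) (h' : Mark m pos c s')
    (h1 : s ≤ g) (h2 : g < s + m) (h1' : s' ≤ g) (h2' : g < s' + m) : s = s' := by
  rcases lt_trichotomy s s' with hlt | heq | hgt
  · exact absurd h' (h.not_between hlt (by omega))
  · exact heq
  · exact absurd h (h'.not_between hgt (by omega))

/-- row `c` can be enlarged/reduced to the value `v` around `g` -/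
def Win (m : ℤ) (pos : ι → Option ℤ) (ψ : ι → ℤ → Bool) (c : ι) (g : ℤ) (v : Bool) : Prop :=
  pos c = none ∨ ∃ s, s < g ∧ g < s + m - 1 ∧ ψ c s = v ∧ ψ c (s + m - 1) = v ∧
    ∀ j, s < j → j < s + m → ¬ Mark m pos c j

lemma arcswap (hψ : Valid m b pos ψ) {c c' : ι} {g : ℤ} (h : ψ c g = false)
    (h' : ψ c' g = true) (hc : Win m pos ψ c g true) (hc' : Win m pos ψ c' g false)
    (hne : ¬ (pos c = none ∧ pos c' = none)) :
    ∃ τ e, τ ≤ g ∧ g < e ∧ Sw m pos ψ c c' τ e ∧
      ∀ x, τ ≤ x → x < e → ψ c x = false ∧ ψ c' x = true := by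
  have hnomark : ∀ {x : ι}, pos x = none → ∀ j, ¬ Mark m pos x j := by
    intro x hx j hj
    exact hj.ne_none hx
  rcases hc with hc | ⟨s, s1, s2, s3, s4, s5⟩
  · rcases hc' with hc' | ⟨t, t1, t2, t3, t4, t5⟩
    · exact absurd ⟨hc, hc'⟩ hne
    · obtain ⟨τ, e, h1, h2, h3, h4, h5, h6⟩ := two_sided hψ h h' t1 t2 (Or.inr t3) (Or.inr t4)
        (by omega) (fun j hj1 hj2 => ⟨hnomark hc j, t5 j hj1 (by omega)⟩)
      exact ⟨τ, e, h2, h3, h5, h6⟩
  · rcases hc' with hc' | ⟨t, t1, t2, t3, t4, t5⟩
    · obtain ⟨τ, e, h1, h2, h3, h4, h5, h6⟩ := two_sided hψ h h' s1 s2 (Or.inl s3) (Or.inl s4)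
        (by omega) (fun j hj1 hj2 => ⟨s5 j hj1 (by omega), hnomark hc' j⟩)
      exact ⟨τ, e, h2, h3, h5, h6⟩
    · obtain ⟨τ, e, h1, h2, h3, h4, h5, h6⟩ := two_sided hψ h h' (lo := max s t)
        (hi := min (s + m - 1) (t + m - 1)) (by omega) (by omega)
        (by rcases max_choice s t with z | z <;> rw [z] <;> simp [s3, t3])
        (by rcases min_choice (s + m - 1) (t + m - 1) with z | z <;> rw [z] <;> simp [s4, t4])
        (by omega) (fun j hj1 hj2 => ⟨s5 j (by omega) (by omega), t5 j (by omega) (by omega)⟩)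
      exact ⟨τ, e, h2, h3, h5, h6⟩

/-- the default value of a marked row in the Moebius case -/
def Din (m : ℤ) (pos : ι → Option ℤ) (c : ι) (g : ℤ) : Prop :=
  ∃ s, Even s ∧ Mark m pos c s ∧ s ≤ g ∧ g < s + m

lemma win_of_Din (hmo : Odd m) (hψ : Valid m b pos ψ) {c : ι} {g : ℤ} (hD : Din m pos c g)
    (h : ψ c g = false) : Win m pos ψ c g true := by
  obtain ⟨s, h1, h2, h3, h4⟩ := hD
  have e1 := (hψ.mark_even h1 h2).2
  have e2 := (hψ.mark_odd (h1.add_odd hmo) h2.add).1
  refine Or.inr ⟨s, ?_, ?_, e1, e2, fun j hj1 hj2 => h2.not_between hj1 hj2⟩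
  · rcases eq_or_lt_of_le h3 with hh | hh
    · rw [← hh, e1] at h; simp at h
    · exact hh
  · rcases eq_or_lt_of_le (show g ≤ s + m - 1 by omega) with hh | hh
    · rw [hh, e2] at h; simp at h
    · exact hh

lemma win_of_not_Din (hm : 0 < m) (hmo : Odd m) (hψ : Valid m b pos ψ) {c : ι} {g : ℤ}
    (hD : ¬ Din m pos c g) (h : ψ c g = true) : Win m pos ψ c g false := by
  by_cases hc : pos c = none
  · exact Or.inl hc
  obtain ⟨s, h2, h3, h4⟩ := exists_last_mark hm hc g
  have h1 : Odd s := by
    by_contra hodd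
    exact hD ⟨s, Int.not_odd_iff_even.1 hodd, h2, h3, h4⟩
  have e1 := (hψ.mark_odd h1 h2).2
  have e2 := (hψ.mark_even (h1.add_odd hmo) h2.add).1
  refine Or.inr ⟨s, ?_, ?_, e1, e2, fun j hj1 hj2 => h2.not_between hj1 hj2⟩
  · rcases eq_or_lt_of_le h3 with hh | hh
    · rw [← hh, e1] at h; simp at h
    · exact hh
  · rcases eq_or_lt_of_le (show g ≤ s + m - 1 by omega) with hh | hh
    · rw [hh, e2] at h; simp at h
    · exact hh

lemma Din.ne_none {c : ι} {g : ℤ} (h : Din m pos c g) : pos c ≠ none := by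
  obtain ⟨s, -, h2, -⟩ := h
  exact h2.ne_none

lemma Din_add (hm : 0 < m) (hmo : Odd m) {c : ι} (hc : pos c ≠ none) (g : ℤ) :
    Din m pos c (g + m) ↔ ¬ Din m pos c g := by
  constructor
  · rintro ⟨s, h1, h2, h3, h4⟩ ⟨s', h1', h2', h3', h4'⟩
    have := Mark.unique h2 h2'.add h3 h4 (by omega) (by omega)
    rw [this] at h1
    exact (Int.not_even_iff_odd.2 (h1'.add_odd hmo)) h1
  · intro h
    obtain ⟨s, h2, h3, h4⟩ := exists_last_mark hm hc g
    have h1 : Odd s := by
      by_contra hodd
      exact h ⟨s, Int.not_odd_iff_even.1 hodd, h2, h3, h4⟩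
    exact ⟨s + m, h1.add_odd hmo, h2.add, by omega, by omega⟩

lemma Din_even (hmo : Odd m) {c : ι} {j : ℤ} (hj : Even j) (h : Din m pos c (j - 1)) :
    Din m pos c j := by
  obtain ⟨s, h1, h2, h3, h4⟩ := h
  refine ⟨s, h1, h2, by omega, ?_⟩
  by_contra hcon
  have : j = s + m := by omega
  rw [this] at hj
  exact (Int.not_even_iff_odd.2 (h1.add_odd hmo)) hj

lemma Din_odd {c : ι} {j : ℤ} (hj : Odd j) (h : Din m pos c j) :
    Din m pos c (j - 1) := by
  obtain ⟨s, h1, h2, h3, h4⟩ := h
  refine ⟨s, h1, h2, ?_, by omega⟩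
  rcases eq_or_lt_of_le h3 with hh | hh
  · rw [hh] at h1
    exact absurd h1 (Int.not_even_iff_odd.2 hj)
  · omega

lemma Din_of_mark_odd (hm : 0 < m) (hmo : Odd m) {c : ι} {j : ℤ} (hj : Odd j)
    (h : Mark m pos c j) : Din m pos c (j - 1) ∧ ¬ Din m pos c j := by
  constructor
  · exact ⟨j - m, hj.sub_odd hmo, h.sub, by omega, by omega⟩
  · rintro ⟨s, h1, h2, h3, h4⟩
    have := Mark.unique h h2 (g := j) le_rfl (by omega) h3 h4
    rw [← this] at h1
    exact absurd h1 (Int.not_even_iff_odd.2 hj)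

open Classical in
/-- rows whose default is in -/
noncomputable def Dset (m : ℤ) (pos : ι → Option ℤ) (g : ℤ) : Finset ι :=
  univ.filter (fun c => Din m pos c g)

/-- unmarked rows -/
def Kset (pos : ι → Option ℤ) : Finset ι := univ.filter (fun c => pos c = none)

/-- rows which are in -/
def Uset (ψ : ι → ℤ → Bool) (g : ℤ) : Finset ι := univ.filter (fun c => ψ c g = true)

lemma mem_Dset {c : ι} {g : ℤ} : c ∈ Dset m pos g ↔ Din m pos c g := by simp [Dset]
lemma mem_Kset {c : ι} : c ∈ Kset pos ↔ pos c = none := by simp [Kset]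
lemma mem_Uset {c : ι} {g : ℤ} : c ∈ Uset ψ g ↔ ψ c g = true := by simp [Uset]
lemma not_mem_Uset {c : ι} {g : ℤ} : c ∉ Uset ψ g ↔ ψ c g = false := by simp [Uset]

lemma card_Uset (g : ℤ) : (Uset ψ g).card = cnt univ ψ g := rfl

lemma Uset_congr (h : Same m b pos ψ ψ') (g : ℤ) : (Uset ψ g).card = (Uset ψ' g).card := by
  rw [card_Uset, card_Uset, h.cnt]

lemma Uset_swap {A : ℤ → Prop} [DecidablePred A] {c c' : ι} {g : ℤ} (hA : A g)
    (h : ψ c g = false) (h' : ψ c' g = true) :
    Uset (swapOn A c c' ψ) g = insert c ((Uset ψ g).erase c') := by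
  have hne : c ≠ c' := by rintro rfl; rw [h] at h'; simp at h'
  ext x
  simp only [mem_Uset, mem_insert, mem_erase, swapOn, hA, if_true]
  by_cases e1 : x = c
  · subst e1; simp [h']
  by_cases e2 : x = c'
  · subst e2; simp [h, e1]
  · simp [Equiv.swap_apply_of_ne_of_ne e1 e2, e1, e2]

lemma Uset_swap_not {A : ℤ → Prop} [DecidablePred A] {c c' : ι} {g : ℤ} (hA : ¬ A g) :
    Uset (swapOn A c c' ψ) g = Uset ψ g := by
  ext x
  simp [mem_Uset, swapOn, hA]

lemma arcswap_Din (hm : 0 < m) (hmo : Odd m) (hψ : Valid m b pos ψ) {c c' : ι} {g : ℤ}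
    (h : ψ c g = false) (h' : ψ c' g = true) (hc : c ∈ Dset m pos g ∪ Kset pos)
    (hc' : c' ∉ Dset m pos g) (hne : ¬ (pos c = none ∧ pos c' = none)) :
    ∃ τ e, τ ≤ g ∧ g < e ∧ Sw m pos ψ c c' τ e ∧
      ∀ x, τ ≤ x → x < e → ψ c x = false ∧ ψ c' x = true := by
  refine arcswap hψ h h' ?_ (win_of_not_Din hm hmo hψ (by rwa [mem_Dset] at hc') h') hne
  rw [mem_union, mem_Dset, mem_Kset] at hc
  rcases hc with hc | hc
  · exact win_of_Din hmo hψ hc h
  · exact Or.inl hc

/-- Case I normalisation. -/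
lemma normI (hm : 0 < m) (hmo : Odd m) (g : ℤ) : ∀ (l : ℕ) (ψ : ι → ℤ → Bool),
    Valid m b pos ψ → (Dset m pos g).card ≤ (Uset ψ g).card →
    (Uset ψ g).card ≤ (Dset m pos g ∪ Kset pos).card →
    (Dset m pos g \ Uset ψ g).card + (Uset ψ g \ (Dset m pos g ∪ Kset pos)).card = l →
    ∃ ψ₁, Conn m b pos 2 ψ ψ₁ ∧ Dset m pos g ⊆ Uset ψ₁ g ∧
      Uset ψ₁ g ⊆ Dset m pos g ∪ Kset pos := by
  intro l
  induction l using Nat.strong_induction_on with
  | _ l ih =>
    intro ψ hψ h1 h2 hl
    -- generic step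
    have step : ∀ c c', c ∈ Dset m pos g ∪ Kset pos → c ∉ Uset ψ g → c' ∈ Uset ψ g →
        c' ∉ Dset m pos g → ¬ (pos c = none ∧ pos c' = none) →
        ∃ ψ₁, Conn m b pos 2 ψ ψ₁ ∧ Dset m pos g ⊆ Uset ψ₁ g ∧
          Uset ψ₁ g ⊆ Dset m pos g ∪ Kset pos := by
      intro c c' hc hcU hc' hcD hne
      obtain ⟨τ, e, t1, t2, hsw, hst⟩ := arcswap_Din hm hmo hψ (not_mem_Uset.1 hcU)
        (mem_Uset.1 hc') hc hcD hne
      have hA : arc m τ (e - τ) g := by
        have := hsw.lt'
        rw [arc_of_ge (by omega) (by omega)]; omega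
      have hU : Uset (sw m ψ c c' τ e) g = insert c ((Uset ψ g).erase c') :=
        Uset_swap hA (not_mem_Uset.1 hcU) (mem_Uset.1 hc')
      have hcard : (Uset (sw m ψ c c' τ e) g).card = (Uset ψ g).card :=
        (Uset_congr (hsw.step hψ).1 g).symm
      have hsub1 : Dset m pos g \ Uset (sw m ψ c c' τ e) g ⊆ Dset m pos g \ Uset ψ g := by
        intro x hx
        rw [hU] at hx
        simp only [mem_sdiff, mem_insert, mem_erase, not_or, not_and] at hx ⊢
        refine ⟨hx.1, fun hxU => ?_⟩
        by_cases hxc : x = c'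
        · subst hxc; exact hcD hx.1
        · exact hx.2.2 hxc hxU
      have hsub2 : Uset (sw m ψ c c' τ e) g \ (Dset m pos g ∪ Kset pos) ⊆
          Uset ψ g \ (Dset m pos g ∪ Kset pos) := by
        intro x hx
        rw [hU] at hx
        rw [mem_sdiff, mem_insert, mem_erase] at hx
        rw [mem_sdiff]
        rcases hx.1 with hxc | hxc
        · subst hxc; exact absurd hc hx.2
        · exact ⟨hxc.2, hx.2⟩
      have hlt : (Dset m pos g \ Uset (sw m ψ c c' τ e) g).card +
          (Uset (sw m ψ c c' τ e) g \ (Dset m pos g ∪ Kset pos)).card < l := by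
        rw [← hl]
        by_cases hpc : pos c = none
        · have hpc' : c' ∉ Dset m pos g ∪ Kset pos := by
            rw [mem_union, mem_Kset]
            push Not
            exact ⟨hcD, fun hh => hne ⟨hpc, hh⟩⟩
          have : Uset (sw m ψ c c' τ e) g \ (Dset m pos g ∪ Kset pos) ⊂
              Uset ψ g \ (Dset m pos g ∪ Kset pos) := by
            refine ⟨hsub2, fun hh => ?_⟩
            have hx := hh (mem_sdiff.2 ⟨hc', hpc'⟩)
            rw [hU, mem_sdiff, mem_insert, mem_erase] at hx
            rcases hx.1 with hx1 | hx1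
            · subst hx1; exact hcU hc'
            · exact hx1.1 rfl
          have a1 := Finset.card_le_card hsub1
          have a2 := Finset.card_lt_card this
          omega
        · have hcD' : c ∈ Dset m pos g := by
            rcases mem_union.1 hc with hh | hh
            · exact hh
            · exact absurd (mem_Kset.1 hh) hpc
          have : Dset m pos g \ Uset (sw m ψ c c' τ e) g ⊂ Dset m pos g \ Uset ψ g := by
            refine ⟨hsub1, fun hh => ?_⟩
            have hx := hh (mem_sdiff.2 ⟨hcD', hcU⟩)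
            rw [hU, mem_sdiff, mem_insert] at hx
            exact hx.2 (Or.inl rfl)
          have a1 := Finset.card_le_card hsub2
          have a2 := Finset.card_lt_card this
          omega
      obtain ⟨ψ₁, g1, g2, g3⟩ := ih _ hlt (sw m ψ c c' τ e) (hsw.valid hψ) (by omega) (by omega) rfl
      exact ⟨ψ₁, (hsw.step hψ).conn.trans g1, g2, g3⟩
    by_cases hA : Dset m pos g ⊆ Uset ψ g
    · by_cases hB : Uset ψ g ⊆ Dset m pos g ∪ Kset pos
      · exact ⟨ψ, .refl, hA, hB⟩
      · -- c' ∈ U outside D ∪ K ; find c ∈ (D ∪ K) \ U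
        rw [Finset.not_subset] at hB
        obtain ⟨c', hc', hcn⟩ := hB
        have : ∃ c ∈ Dset m pos g ∪ Kset pos, c ∉ Uset ψ g := by
          by_contra hcon
          push Not at hcon
          have hss : Dset m pos g ∪ Kset pos ⊂ Uset ψ g :=
            ⟨hcon, fun hh => hcn (hh hc')⟩
          have := Finset.card_lt_card hss
          omega
        obtain ⟨c, hc, hcU⟩ := this
        rw [mem_union, not_or, mem_Kset] at hcn
        exact step c c' hc hcU hc' hcn.1 (fun hh => hcn.2 hh.2)
    · rw [Finset.not_subset] at hA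
      obtain ⟨c, hc, hcU⟩ := hA
      have : ∃ c' ∈ Uset ψ g, c' ∉ Dset m pos g := by
        by_contra hcon
        push Not at hcon
        have hss : Uset ψ g ⊂ Dset m pos g :=
          ⟨hcon, fun hh => hcU (hh hc)⟩
        have := Finset.card_lt_card hss
        omega
      obtain ⟨c', hc', hcD⟩ := this
      refine step c c' (mem_union_left _ hc) hcU hc' hcD (fun hh => ?_)
      exact (mem_Dset.1 hc).ne_none hh.1

/-- Case II normalisation. -/
lemma normII (hm : 0 < m) (hmo : Odd m) {j : ℤ} (hj : Even j) : ∀ (l : ℕ) (ψ : ι → ℤ → Bool),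
    Valid m b pos ψ → (Uset ψ (j - 1)).card < (Dset m pos (j - 1)).card →
    (Dset m pos j ∪ Kset pos).card < (Uset ψ j).card →
    (Uset ψ (j - 1) \ Dset m pos (j - 1)).card + ((Dset m pos j ∪ Kset pos) \ Uset ψ j).card = l →
    ∃ ψ₁, Conn m b pos 2 ψ ψ₁ ∧ Uset ψ₁ (j - 1) ⊆ Dset m pos (j - 1) ∧
      Dset m pos j ∪ Kset pos ⊆ Uset ψ₁ j := by
  intro l
  induction l using Nat.strong_induction_on with
  | _ l ih =>
    intro ψ hψ h1 h2 hl
    have hDD : Dset m pos (j - 1) ⊆ Dset m pos j := by
      intro x hx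
      exact mem_Dset.2 (Din_even hmo hj (mem_Dset.1 hx))
    have hUU : Uset ψ (j - 1) ⊆ Uset ψ j := by
      intro x hx
      exact mem_Uset.2 (hψ.even x j hj (mem_Uset.1 hx))
    by_cases hA : Uset ψ (j - 1) ⊆ Dset m pos (j - 1)
    · by_cases hB : Dset m pos j ∪ Kset pos ⊆ Uset ψ j
      · exact ⟨ψ, .refl, hA, hB⟩
      · rw [Finset.not_subset] at hB
        obtain ⟨c, hc, hcU⟩ := hB
        have : ∃ c' ∈ Uset ψ j, c' ∉ Dset m pos j ∪ Kset pos := by
          by_contra hcon
          push Not at hcon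
          have := Finset.card_le_card (show Uset ψ j ⊆ Dset m pos j ∪ Kset pos from hcon)
          omega
        obtain ⟨d, hd, hdn⟩ := this
        have hdn' := hdn
        rw [mem_union, not_or, mem_Kset] at hdn'
        obtain ⟨τ, e, t1, t2, hsw, hst⟩ := arcswap_Din hm hmo hψ (not_mem_Uset.1 hcU)
          (mem_Uset.1 hd) hc hdn'.1 (fun hh => hdn'.2 hh.2)
        have hlt' := hsw.lt'
        have hAj : arc m τ (e - τ) j := by
          rw [arc_of_ge (by omega) (by omega)]; omega
        have hU : Uset (sw m ψ c d τ e) j = insert c ((Uset ψ j).erase d) :=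
          Uset_swap hAj (not_mem_Uset.1 hcU) (mem_Uset.1 hd)
        have hs1 : (Dset m pos j ∪ Kset pos) \ Uset (sw m ψ c d τ e) j ⊂
            (Dset m pos j ∪ Kset pos) \ Uset ψ j := by
          refine ⟨?_, fun hh => ?_⟩
          · intro x hx
            rw [hU] at hx
            rw [mem_sdiff, mem_insert, mem_erase] at hx
            rw [mem_sdiff]
            refine ⟨hx.1, fun hxU => ?_⟩
            apply hx.2
            right
            refine ⟨?_, hxU⟩
            rintro rfl
            exact hdn hx.1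
          · have hx := hh (mem_sdiff.2 ⟨hc, hcU⟩)
            rw [hU, mem_sdiff, mem_insert] at hx
            exact hx.2 (Or.inl rfl)
        have hs2 : (Uset (sw m ψ c d τ e) (j - 1) \ Dset m pos (j - 1)).card ≤
            (Uset ψ (j - 1) \ Dset m pos (j - 1)).card := by
          by_cases hA' : arc m τ (e - τ) (j - 1)
          · have hcj : ψ c (j - 1) = false := by
              rw [← not_mem_Uset]
              intro hh; exact hcU (hUU hh)
            have hdj : ψ d (j - 1) = true := by
              by_cases hτ : τ ≤ j - 1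
              · exact (hst (j - 1) hτ (by omega)).2
              · -- then τ = j, but arc does not contain j-1
                exfalso
                have : τ = j := by omega
                rw [arc_of_lt (by omega) (by omega)] at hA'
                omega
            have hU' : Uset (sw m ψ c d τ e) (j - 1) = insert c ((Uset ψ (j - 1)).erase d) :=
              Uset_swap hA' hcj hdj
            have hdm : d ∈ Uset ψ (j - 1) \ Dset m pos (j - 1) :=
              mem_sdiff.2 ⟨mem_Uset.2 hdj, fun hh => hdn'.1 (hDD hh)⟩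
            have hss : Uset (sw m ψ c d τ e) (j - 1) \ Dset m pos (j - 1) ⊆
                insert c ((Uset ψ (j - 1) \ Dset m pos (j - 1)).erase d) := by
              intro x hx
              rw [hU', mem_sdiff, mem_insert, mem_erase] at hx
              rw [mem_insert, mem_erase, mem_sdiff]
              rcases hx.1 with hx1 | hx1
              · exact Or.inl hx1
              · exact Or.inr ⟨hx1.1, hx1.2, hx.2⟩
            have a1 := Finset.card_le_card hss
            have a2 := Finset.card_insert_le c ((Uset ψ (j - 1) \ Dset m pos (j - 1)).erase d)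
            have a3 := Finset.card_erase_of_mem hdm
            have a4 := Finset.card_pos.2 ⟨d, hdm⟩
            omega
          · have : Uset (sw m ψ c d τ e) (j - 1) = Uset ψ (j - 1) := Uset_swap_not hA'
            rw [this]
        have hlt : (Uset (sw m ψ c d τ e) (j - 1) \ Dset m pos (j - 1)).card +
            ((Dset m pos j ∪ Kset pos) \ Uset (sw m ψ c d τ e) j).card < l := by
          have := Finset.card_lt_card hs1
          omega
        have hc1 := Uset_congr (hsw.step hψ).1 j
        have hc2 := Uset_congr (hsw.step hψ).1 (j - 1)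
        obtain ⟨ψ₁, g1, g2, g3⟩ := ih _ hlt (sw m ψ c d τ e) (hsw.valid hψ) (by omega) (by omega)
          rfl
        exact ⟨ψ₁, (hsw.step hψ).conn.trans g1, g2, g3⟩
    · rw [Finset.not_subset] at hA
      obtain ⟨d, hd, hdn⟩ := hA
      have : ∃ c ∈ Dset m pos (j - 1), c ∉ Uset ψ (j - 1) := by
        by_contra hcon
        push Not at hcon
        have := Finset.card_le_card (show Dset m pos (j - 1) ⊆ Uset ψ (j - 1) from hcon)
        omega
      obtain ⟨c, hc, hcU⟩ := this
      obtain ⟨τ, e, t1, t2, hsw, hst⟩ := arcswap_Din hm hmo hψ (not_mem_Uset.1 hcU)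
        (mem_Uset.1 hd) (mem_union_left _ hc) hdn (fun hh => (mem_Dset.1 hc).ne_none hh.1)
      have hlt' := hsw.lt'
      have hAj : arc m τ (e - τ) (j - 1) := by
        rw [arc_of_ge (by omega) (by omega)]; omega
      have hU : Uset (sw m ψ c d τ e) (j - 1) = insert c ((Uset ψ (j - 1)).erase d) :=
        Uset_swap hAj (not_mem_Uset.1 hcU) (mem_Uset.1 hd)
      have hs1 : Uset (sw m ψ c d τ e) (j - 1) \ Dset m pos (j - 1) ⊂
          Uset ψ (j - 1) \ Dset m pos (j - 1) := by
        refine ⟨?_, fun hh => ?_⟩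
        · intro x hx
          rw [hU] at hx
          rw [mem_sdiff, mem_insert, mem_erase] at hx
          rw [mem_sdiff]
          rcases hx.1 with hx1 | hx1
          · subst hx1; exact absurd hc hx.2
          · exact ⟨hx1.2, hx.2⟩
        · have hx := hh (mem_sdiff.2 ⟨hd, hdn⟩)
          rw [hU, mem_sdiff, mem_insert, mem_erase] at hx
          rcases hx.1 with hx1 | hx1
          · subst hx1; exact hx.2 hc
          · exact hx1.1 rfl
      have hs2 : ((Dset m pos j ∪ Kset pos) \ Uset (sw m ψ c d τ e) j).card ≤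
          ((Dset m pos j ∪ Kset pos) \ Uset ψ j).card := by
        by_cases hA' : arc m τ (e - τ) j
        · have he : j < e := by
            rw [arc_of_ge (by omega) (by omega)] at hA'
            omega
          obtain ⟨hcj, hdj⟩ := hst j (by omega) he
          have hU' : Uset (sw m ψ c d τ e) j = insert c ((Uset ψ j).erase d) :=
            Uset_swap hA' hcj hdj
          have hcm : c ∈ (Dset m pos j ∪ Kset pos) \ Uset ψ j :=
            mem_sdiff.2 ⟨mem_union_left _ (hDD hc), not_mem_Uset.2 hcj⟩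
          have hss : (Dset m pos j ∪ Kset pos) \ Uset (sw m ψ c d τ e) j ⊆
              insert d (((Dset m pos j ∪ Kset pos) \ Uset ψ j).erase c) := by
            intro x hx
            rw [hU', mem_sdiff, mem_insert, mem_erase] at hx
            rw [mem_insert, mem_erase, mem_sdiff]
            push Not at hx
            by_cases hxd : x = d
            · exact Or.inl hxd
            · exact Or.inr ⟨hx.2.1, hx.1, hx.2.2 hxd⟩
          have a1 := Finset.card_le_card hss
          have a2 := Finset.card_insert_le d (((Dset m pos j ∪ Kset pos) \ Uset ψ j).erase c)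
          have a3 := Finset.card_erase_of_mem hcm
          have a4 := Finset.card_pos.2 ⟨c, hcm⟩
          omega
        · have : Uset (sw m ψ c d τ e) j = Uset ψ j := Uset_swap_not hA'
          rw [this]
      have hlt : (Uset (sw m ψ c d τ e) (j - 1) \ Dset m pos (j - 1)).card +
          ((Dset m pos j ∪ Kset pos) \ Uset (sw m ψ c d τ e) j).card < l := by
        have := Finset.card_lt_card hs1
        omega
      have hc1 := Uset_congr (hsw.step hψ).1 j
      have hc2 := Uset_congr (hsw.step hψ).1 (j - 1)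
      obtain ⟨ψ₁, g1, g2, g3⟩ := ih _ hlt (sw m ψ c d τ e) (hsw.valid hψ) (by omega) (by omega)
        rfl
      exact ⟨ψ₁, (hsw.step hψ).conn.trans g1, g2, g3⟩

end

end Pool.Agent.Helper16.Wheel
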