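import Pool.Agent.Helper16.Wheel.Moebius

set_option linter.unusedSectionVars false

namespace Pool.Agent.Helper16.Wheel

open Finset

section
variable {ι : Type*} [Fintype ι] [DecidableEq ι] {m : ℤ} {b : Bool} {pos : ι → Option ℤ}
  {ψ ψ' ψ'' : ι → ℤ → Bool} {k : ℕ}

lemma conn_virtual (hm : 1 < m) {j : ℤ} (V : Finset ι) (hs : Same m b pos ψ ψ')
    (h1 : Uset ψ (j - 1) ⊆ V) (h2 : Uset ψ' (j - 1) ⊆ V) (h3 : V ⊆ Uset ψ j)
    (h4 : V ⊆ Uset ψ' j) : Conn m b pos 2 ψ ψ' := by
  refine conn_of_reduce (by omega) j (fun ψ ψ' => Uset ψ (j - 1) ⊆ V ∧ Uset ψ' (j - 1) ⊆ V ∧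
    V ⊆ Uset ψ j ∧ V ⊆ Uset ψ' j) ?_ hs ⟨h1, h2, h3, h4⟩
  clear hs h1 h2 h3 h4
  rintro ψ ψ' hs ⟨h1, h2, h3, h4⟩ c hc c' hc'
  rw [mem_mis] at hc hc'
  have hcV : c ∉ V := fun hh => not_mem_Uset.2 hc.2 (h4 hh)
  have hcV' : c' ∉ V := fun hh => not_mem_Uset.2 hc'.2 (h3 hh)
  have z1 : ψ c (j - 1) = false := not_mem_Uset.1 (fun hh => hcV (h1 hh))
  have z2 : ψ' c (j - 1) = false := not_mem_Uset.1 (fun hh => hcV (h2 hh))
  have z3 : ψ c' (j - 1) = false := not_mem_Uset.1 (fun hh => hcV' (h1 hh))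
  have z4 : ψ' c' (j - 1) = false := not_mem_Uset.1 (fun hh => hcV' (h2 hh))
  obtain ⟨e, he1, he2, he3⟩ := chain hs.left hs.right (c := c) (c' := c') (τ := j)
    (h := j - 1 + m) hc.1 hc'.2 hc.2 hc'.1 (by rw [z1, z2]) (by rw [z3, z4]) (by omega) (by omega)
    (hs.left.congr hs.right (show ψ c (j - 1) = ψ' c (j - 1) by rw [z1, z2]) ⟨1, by ring⟩)
  have hA : arc m j (e - j) j := by rw [arc_of_ge (by omega) (by omega)]; omega
  have hnA : ¬ arc m j (e - j) (j - 1) := by rw [arc_of_lt (by omega) (by omega)]; omega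
  rcases he3 with hsw | hsw
  · left
    refine ⟨_, hsw.step hs.left, ⟨?_, h2, ?_, h4⟩, mis_sw_left hA hc.1 hc'.2 hc.2 hc'.1⟩
    · rw [sw, Uset_swap_not hnA]; exact h1
    · intro x hx
      rw [mem_Uset]
      have e1 : x ≠ c := by rintro rfl; exact hcV hx
      have e2 : x ≠ c' := by rintro rfl; exact hcV' hx
      simp [sw, swapOn, hA, Equiv.swap_apply_of_ne_of_ne e1 e2, mem_Uset.1 (h3 hx)]
  · right
    refine ⟨_, hsw.step hs.right, ⟨h1, ?_, h3, ?_⟩, mis_sw_right hA hc.1 hc'.2 hc.2 hc'.1⟩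
    · rw [sw, Uset_swap_not hnA]; exact h2
    · intro x hx
      rw [mem_Uset]
      have e1 : x ≠ c := by rintro rfl; exact hcV hx
      have e2 : x ≠ c' := by rintro rfl; exact hcV' hx
      simp [sw, swapOn, hA, Equiv.swap_apply_of_ne_of_ne e1 e2, mem_Uset.1 (h4 hx)]

lemma conn_I (hm : 0 < m) (g : ℤ) (D : Finset ι) (hs : Same m b pos ψ ψ')
    (h1 : D ⊆ Uset ψ g) (h2 : Uset ψ g ⊆ D ∪ Kset pos) (h3 : D ⊆ Uset ψ' g)
    (h4 : Uset ψ' g ⊆ D ∪ Kset pos) : Conn m b pos 2 ψ ψ' := by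
  refine conn_of_reduce hm g (fun ψ ψ' => D ⊆ Uset ψ g ∧ Uset ψ g ⊆ D ∪ Kset pos ∧
    D ⊆ Uset ψ' g ∧ Uset ψ' g ⊆ D ∪ Kset pos) ?_ hs ⟨h1, h2, h3, h4⟩
  clear hs h1 h2 h3 h4
  rintro ψ ψ' hs ⟨h1, h2, h3, h4⟩ c hc c' hc'
  rw [mem_mis] at hc hc'
  have hcD : c ∉ D := fun hh => not_mem_Uset.2 hc.2 (h3 hh)
  have hcD' : c' ∉ D := fun hh => not_mem_Uset.2 hc'.2 (h1 hh)
  have hcK : pos c = none := by
    rcases mem_union.1 (h2 (mem_Uset.2 hc.1)) with hh | hh
    · exact absurd hh hcD
    · exact mem_Kset.1 hh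
  have hcK' : pos c' = none := by
    rcases mem_union.1 (h4 (mem_Uset.2 hc'.1)) with hh | hh
    · exact absurd hh hcD'
    · exact mem_Kset.1 hh
  left
  refine ⟨_, whole_step hs.left (c := c') (c' := c) (by rw [hcK, hcK']), ⟨?_, ?_, h3, h4⟩, ?_⟩
  · rw [Uset_swap trivial hc'.2 hc.1]
    intro x hx
    rw [mem_insert, mem_erase]
    refine Or.inr ⟨?_, h1 hx⟩
    rintro rfl; exact hcD hx
  · rw [Uset_swap trivial hc'.2 hc.1]
    intro x hx
    rw [mem_insert, mem_erase] at hx
    rcases hx with hx | hx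
    · subst hx; exact mem_union_right _ (mem_Kset.2 hcK')
    · exact h2 hx.2
  · have : swapOn (fun _ => True) c' c ψ = swapOn (fun _ => True) c c' ψ := by
      funext x g; simp [swapOn, Equiv.swap_comm]
    rw [this]
    exact mis_sw_left trivial hc.1 hc'.2 hc.2 hc'.1

lemma card_DK (g : ℤ) : (Dset m pos g ∪ Kset pos).card = (Dset m pos g).card + (Kset pos).card := by
  apply Finset.card_union_of_disjoint
  rw [Finset.disjoint_left]
  intro x hx hx'
  exact (mem_Dset.1 hx).ne_none (mem_Kset.1 hx')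

lemma card_D_add (hm : 0 < m) (hmo : Odd m) (g : ℤ) :
    (Dset m pos (g + m)).card + ((Dset m pos g).card + (Kset pos).card) = Fintype.card ι := by
  rw [← card_DK, add_comm]
  have : Dset m pos (g + m) = (Dset m pos g ∪ Kset pos)ᶜ := by
    ext x
    rw [mem_compl, mem_union, mem_Dset, mem_Dset, mem_Kset, not_or]
    constructor
    · intro h
      exact ⟨(Din_add hm hmo h.ne_none g).1 h, h.ne_none⟩
    · rintro ⟨h1, h2⟩
      exact (Din_add hm hmo h2 g).2 h1
  rw [this, Finset.card_add_card_compl]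

lemma card_U_add (hψ : Valid m true pos ψ) (g : ℤ) :
    (Uset ψ (g + m)).card + (Uset ψ g).card = Fintype.card ι := by
  have : Uset ψ (g + m) = (Uset ψ g)ᶜ := by
    ext x
    rw [mem_compl, not_mem_Uset, mem_Uset, hψ.per]
    simp
  rw [this, add_comm, Finset.card_add_card_compl]

/-- In the Moebius case (`m` odd) every fiber is connected by moves changing two rows. -/
theorem moebius (hm : 1 < m) (hmo : Odd m) (hs : Same m true pos ψ ψ') :
    Conn m true pos 2 ψ ψ' := by
  have hm0 : 0 < m := by omega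
  by_cases hI : ∃ g, (Dset m pos g).card ≤ (Uset ψ g).card ∧
      (Uset ψ g).card ≤ (Dset m pos g ∪ Kset pos).card
  · obtain ⟨g, g1, g2⟩ := hI
    obtain ⟨φ, a1, a2, a3⟩ := normI hm0 hmo g _ ψ hs.left g1 g2 rfl
    have hc := Uset_congr hs g
    obtain ⟨φ', b1, b2, b3⟩ := normI hm0 hmo g _ ψ' hs.right (by omega) (by omega) rfl
    have hs' : Same m true pos φ φ' :=
      ((a1.same hs.left).symm.trans hs).trans (b1.same hs.right)
    exact (a1.trans (conn_I hm0 g _ hs' a2 a3 b2 b3)).trans b1.symm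
  · push Not at hI
    have hor : ∀ g, (Uset ψ g).card < (Dset m pos g).card ∨
        (Dset m pos g ∪ Kset pos).card < (Uset ψ g).card := by
      intro g
      by_cases hg : (Uset ψ g).card < (Dset m pos g).card
      · exact Or.inl hg
      · exact Or.inr (hI g (by omega))
    have hex : ∃ g, (Uset ψ g).card < (Dset m pos g).card := by
      rcases hor 0 with h0 | h0
      · exact ⟨0, h0⟩
      · refine ⟨0 + m, ?_⟩
        have e1 := card_D_add (pos := pos) hm0 hmo 0
        have e2 := card_U_add hs.left 0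
        rw [card_DK] at h0
        omega
    obtain ⟨g, hg⟩ := hex
    have hgm : ¬ ((Uset ψ (g + m)).card < (Dset m pos (g + m)).card) := by
      have e1 := card_D_add (pos := pos) hm0 hmo g
      have e2 := card_U_add hs.left g
      omega
    obtain ⟨j, hj1, hj2, hj3, hj4⟩ := exists_first
      (fun x => (Uset ψ x).card < (Dset m pos x).card) (show g < g + m by omega) hg hgm
    have hjm := hj4 (j - 1) (by omega) (by omega)
    have hjj : (Dset m pos j ∪ Kset pos).card < (Uset ψ j).card := (hor j).resolve_left hj3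
    have hje : Even j := by
      by_contra hodd
      rw [Int.not_even_iff_odd] at hodd
      -- the set of rows marked at j
      have hsub : Uset ψ j ⊆ Uset ψ (j - 1) := by
        intro x hx
        exact mem_Uset.2 (hs.left.odd x j hodd (mem_Uset.1 hx))
      have hD : Dset m pos j ⊆ Dset m pos (j - 1) := by
        intro x hx
        exact mem_Dset.2 (Din_odd hodd (mem_Dset.1 hx))
      -- D(j-1) \ D(j) consists of rows marked at j, which leave U
      have hle : (Dset m pos (j - 1) \ Dset m pos j).card ≤ (Uset ψ (j - 1) \ Uset ψ j).card := by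
        apply Finset.card_le_card
        intro x hx
        rw [mem_sdiff, mem_Dset, mem_Dset] at hx
        obtain ⟨⟨s, s1, s2, s3, s4⟩, hx2⟩ := hx
        have hsj : j = s + m := by
          by_contra hne
          exact hx2 ⟨s, s1, s2, by omega, by omega⟩
        have hmk : Mark m pos x j := by rw [hsj]; exact s2.add
        have := hs.left.mark_odd hodd hmk
        rw [mem_sdiff, mem_Uset, not_mem_Uset]
        exact this
      rw [Finset.card_sdiff_of_subset hD, Finset.card_sdiff_of_subset hsub] at hle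
      have := Finset.card_le_card hD
      have := Finset.card_le_card hsub
      rw [card_DK] at hjj
      omega
    obtain ⟨φ, a1, a2, a3⟩ := normII hm0 hmo hje _ ψ hs.left hjm hjj rfl
    have hc := Uset_congr hs j
    have hc' := Uset_congr hs (j - 1)
    obtain ⟨φ', b1, b2, b3⟩ := normII hm0 hmo hje _ ψ' hs.right (by omega) (by omega) rfl
    have hs' : Same m true pos φ φ' :=
      ((a1.same hs.left).symm.trans hs).trans (b1.same hs.right)
    have hDD : Dset m pos (j - 1) ⊆ Dset m pos j ∪ Kset pos := by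
      intro x hx
      exact mem_union_left _ (mem_Dset.2 (Din_even hmo hje (mem_Dset.1 hx)))
    exact (a1.trans (conn_virtual hm _ hs' a2 b2 (hDD.trans a3) (hDD.trans b3))).trans b1.symm

end

end Pool.Agent.Helper16.Wheel
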