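import Pool.Agent.Helper16.Wheel.Types

set_option linter.unusedSectionVars false

namespace Pool.Agent.Helper16.Wheel

open Finset

section
variable {ι : Type*} [Fintype ι] [DecidableEq ι] {m : ℤ} {pos : ι → Option ℤ}
  {ψ ψ' ψ'' : ι → ℤ → Bool} {k : ℕ}

/-- A place where the weight of a state can be lowered. -/
def Viol (m : ℤ) (pos : ι → Option ℤ) (ψ : ι → ℤ → Bool) (c c' : ι) (j : ℤ) : Prop :=
  ty pos c' < ty pos c ∧ ψ c (j - 1) = ψ c' (j - 1) ∧ ψ c j = true ∧ ψ c' j = false ∧
    ¬ Mark m pos c j ∧ ¬ Mark m pos c' j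

def RMin (m : ℤ) (pos : ι → Option ℤ) (ψ : ι → ℤ → Bool) : Prop :=
  ∀ c c' j, ¬ Viol m pos ψ c c' j

lemma per_congr (hψ : Valid m false pos ψ) {c : ι} {i j : ℤ} (hd : m ∣ j - i) :
    ψ c j = ψ c i :=
  qp_congr (f := ψ c) (g := fun _ => ψ c i) (hψ.per c) (by simp) (i := i) rfl hd

lemma viol_sw (hm : 1 < m) (hme : Even m) (hψ : Valid m false pos ψ) {c c' : ι} {j : ℤ}
    (h : Viol m pos ψ c c' j) :
    ∃ e, Sw m pos ψ c c' j e ∧ ∀ x, j ≤ x → x < e → ψ c x = true ∧ ψ c' x = false := by
  obtain ⟨h1, h2, h3, h4, h5, h6⟩ := h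
  obtain ⟨e, he1, he2, he3, he4⟩ := exists_first
    (fun x => ψ c x = true ∧ ψ c' x = false) (show j < j - 1 + m by omega) ⟨h3, h4⟩ (by
      rintro ⟨y1, y2⟩
      rw [hψ.per] at y1 y2
      rw [h2, y2] at y1
      simp at y1)
  refine ⟨e, ⟨he1, by omega, h2, ?_, ?_⟩, he4⟩
  · obtain ⟨x1, x2⟩ := he4 (e - 1) (by omega) (by omega)
    have ev := hψ.even c e
    have ev' := hψ.even c' e
    have od := hψ.odd c e
    have od' := hψ.odd c' e
    rcases Int.even_or_odd e with hj | hj
    · cases z1 : ψ c e <;> cases z2 : ψ c' e <;> simp_all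
    · cases z1 : ψ c e <;> cases z2 : ψ c' e <;> simp_all
  · intro i hi1 hi2
    rcases eq_or_lt_of_le hi1 with hi | hi
    · subst hi; exact ⟨h5, h6⟩
    obtain ⟨x1, x2⟩ := he4 (i - 1) (by omega) (by omega)
    constructor
    · intro hmk
      rcases Int.even_or_odd i with hj | hj
      · rw [(hψ.mark_even hj hmk).1] at x1; simp at x1
      · have := hmk.ty hme
        rw [if_neg (Int.not_even_iff_odd.2 hj)] at this
        omega
    · intro hmk
      rcases Int.even_or_odd i with hj | hj
      · have := hmk.ty hme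
        rw [if_pos hj] at this
        have := ty_cases (pos := pos) c
        omega
      · rw [(hψ.mark_odd hj hmk).1] at x2; simp at x2

/-- weight of a state at a gap -/
def wt (pos : ι → Option ℤ) (ψ : ι → ℤ → Bool) (g : ℤ) : ℕ :=
  ∑ c, if ψ c g = true then ty pos c else 0

lemma wt_swap {A : ℤ → Prop} [DecidablePred A] {c c' : ι} {g : ℤ} (hA : A g)
    (h : ψ c g = true) (h' : ψ c' g = false) (ht : ty pos c' < ty pos c) :
    wt pos (swapOn A c c' ψ) g < wt pos ψ g := by
  unfold wt swapOn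
  simp only [hA, if_true]
  have : ∑ x, (if ψ (Equiv.swap c c' x) g = true then ty pos x else 0) =
      ∑ y, (if ψ y g = true then ty pos (Equiv.swap c c' y) else 0) := by
    rw [← Equiv.sum_comp (Equiv.swap c c')]
    simp
  rw [this]
  apply Finset.sum_lt_sum
  · intro y _
    by_cases e1 : y = c
    · subst e1; simp [h]; omega
    by_cases e2 : y = c'
    · subst e2; simp [h']
    rw [Equiv.swap_apply_of_ne_of_ne e1 e2]
  · exact ⟨c, mem_univ _, by simpa [h] using ht⟩

lemma wt_swap_not {A : ℤ → Prop} [DecidablePred A] {c c' : ι} {g : ℤ} (hA : ¬ A g) :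
    wt pos (swapOn A c c' ψ) g = wt pos ψ g := by
  unfold wt swapOn
  simp [hA]

noncomputable def pot (m : ℤ) (pos : ι → Option ℤ) (ψ : ι → ℤ → Bool) : ℕ :=
  ∑ g ∈ Finset.Ico (0 : ℤ) m, wt pos ψ g

theorem exists_rmin (hm : 1 < m) (hme : Even m) : ∀ (l : ℕ) (ψ : ι → ℤ → Bool),
    Valid m false pos ψ → pot m pos ψ = l →
    ∃ ψ₁, Conn m false pos 2 ψ ψ₁ ∧ RMin m pos ψ₁ := by
  intro l
  induction l using Nat.strong_induction_on with
  | _ l ih =>
    intro ψ hψ hl
    by_cases hR : RMin m pos ψ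
    · exact ⟨ψ, .refl, hR⟩
    · unfold RMin at hR
      push Not at hR
      obtain ⟨c, c', j, hv⟩ := hR
      obtain ⟨e, hsw, hst⟩ := viol_sw hm hme hψ hv
      have hlt := hsw.lt
      have hlt' := hsw.lt'
      have hpot : pot m pos (sw m ψ c c' j e) < pot m pos ψ := by
        have hg : ∀ g, arc m j (e - j) g → ψ c g = true ∧ ψ c' g = false := by
          intro g hA
          have h0 := Int.emod_nonneg (g - j) (show m ≠ 0 by omega)
          unfold arc at hA
          have := hst (j + (g - j) % m) (by omega) (by omega)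
          have hd : m ∣ g - (j + (g - j) % m) := by
            have := Int.emod_add_mul_ediv (g - j) m
            exact ⟨(g - j) / m, by linarith⟩
          rw [per_congr hψ hd, per_congr hψ hd]
          exact this
        unfold pot
        apply Finset.sum_lt_sum
        · intro g _
          by_cases hA : arc m j (e - j) g
          · exact (wt_swap hA (hg g hA).1 (hg g hA).2 hv.1).le
          · exact (wt_swap_not hA).le
        · refine ⟨j % m, ?_, ?_⟩
          · rw [Finset.mem_Ico]
            exact ⟨Int.emod_nonneg _ (by omega), Int.emod_lt_of_pos _ (by omega)⟩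
          · have hA : arc m j (e - j) (j % m) := by
              unfold arc
              rw [Int.emod_sub_emod, sub_self, Int.zero_emod]
              omega
            exact wt_swap hA (hg _ hA).1 (hg _ hA).2 hv.1
      obtain ⟨ψ₁, g1, g2⟩ := ih _ (hl ▸ hpot) (sw m ψ c c' j e) (hsw.valid hψ) rfl
      exact ⟨ψ₁, (hsw.step hψ).conn.trans g1, g2⟩

open Classical in
/-- rows of type `t` marked at `j` -/
noncomputable def Mset (m : ℤ) (pos : ι → Option ℤ) (t : ℕ) (j : ℤ) : Finset ι :=
  univ.filter (fun c => ty pos c = t ∧ Mark m pos c j)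

open Classical in
/-- rows of type `t` which flip at `j` without being marked there -/
noncomputable def Fset (m : ℤ) (pos : ι → Option ℤ) (ψ : ι → ℤ → Bool) (t : ℕ) (j : ℤ) :
    Finset ι :=
  univ.filter (fun c => ty pos c = t ∧ ¬ Mark m pos c j ∧ ψ c (j - 1) ≠ ψ c j)

lemma mem_Mset {c : ι} {t : ℕ} {j : ℤ} : c ∈ Mset m pos t j ↔ ty pos c = t ∧ Mark m pos c j := by
  simp [Mset]

lemma mem_Fset {c : ι} {t : ℕ} {j : ℤ} : c ∈ Fset m pos ψ t j ↔
    ty pos c = t ∧ ¬ Mark m pos c j ∧ ψ c (j - 1) ≠ ψ c j := by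
  simp [Fset]

lemma Mset_eq_empty (hme : Even m) {t : ℕ} {j : ℤ} (h : t ≠ if Even j then 2 else 0) :
    Mset m pos t j = ∅ := by
  rw [Finset.eq_empty_iff_forall_notMem]
  intro c hc
  rw [mem_Mset] at hc
  exact h (hc.1 ▸ hc.2.ty hme)

lemma cnt_even (hψ : Valid m false pos ψ) (t : ℕ) {j : ℤ} (hj : Even j) :
    cnt (Tset pos t) ψ j = cnt (Tset pos t) ψ (j - 1) + (Mset m pos t j).card +
      (Fset m pos ψ t j).card := by
  unfold cnt
  rw [← Finset.card_union_of_disjoint, ← Finset.card_union_of_disjoint]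
  · congr 1
    ext c
    simp only [mem_filter, mem_union, mem_Tset, mem_Mset, mem_Fset]
    have e1 := hψ.even c j hj
    have e2 := fun h => hψ.mark_even (c := c) hj h
    by_cases hmk : Mark m pos c j
    · have := e2 hmk
      simp [hmk, this]
    · cases z1 : ψ c (j - 1) <;> cases z2 : ψ c j <;> simp_all
  · rw [Finset.disjoint_left]
    intro c hc hc'
    simp only [mem_filter, mem_union, mem_Tset, mem_Mset, mem_Fset] at hc hc'
    rcases hc with hc | hc
    · have e1 := hψ.even c j hj hc.2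
      exact hc'.2.2 (by rw [hc.2, e1])
    · exact hc'.2.1 hc.2
  · rw [Finset.disjoint_left]
    intro c hc hc'
    simp only [mem_filter, mem_Tset, mem_Mset] at hc hc'
    rw [(hψ.mark_even hj hc'.2).1] at hc
    simp at hc

lemma cnt_odd (hψ : Valid m false pos ψ) (t : ℕ) {j : ℤ} (hj : Odd j) :
    cnt (Tset pos t) ψ (j - 1) = cnt (Tset pos t) ψ j + (Mset m pos t j).card +
      (Fset m pos ψ t j).card := by
  unfold cnt
  rw [← Finset.card_union_of_disjoint, ← Finset.card_union_of_disjoint]
  · congr 1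
    ext c
    simp only [mem_filter, mem_union, mem_Tset, mem_Mset, mem_Fset]
    have e1 := hψ.odd c j hj
    have e2 := fun h => hψ.mark_odd (c := c) hj h
    by_cases hmk : Mark m pos c j
    · have := e2 hmk
      simp [hmk, this]
    · cases z1 : ψ c (j - 1) <;> cases z2 : ψ c j <;> simp_all
  · rw [Finset.disjoint_left]
    intro c hc hc'
    simp only [mem_filter, mem_union, mem_Tset, mem_Mset, mem_Fset] at hc hc'
    rcases hc with hc | hc
    · have e1 := hψ.odd c j hj hc.2
      exact hc'.2.2 (by rw [hc.2, e1])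
    · exact hc'.2.1 hc.2
  · rw [Finset.disjoint_left]
    intro c hc hc'
    simp only [mem_filter, mem_Tset, mem_Mset] at hc hc'
    rw [(hψ.mark_odd hj hc'.2).2] at hc
    simp at hc

lemma cnt_le (S : Finset ι) (g : ℤ) : cnt S ψ g ≤ S.card := Finset.card_filter_le _ _

lemma cnt_univ (pos : ι → Option ℤ) (g : ℤ) : cnt univ ψ g =
    cnt (Tset pos 0) ψ g + cnt (Tset pos 1) ψ g + cnt (Tset pos 2) ψ g := by
  unfold cnt
  rw [← Finset.card_union_of_disjoint, ← Finset.card_union_of_disjoint]
  · congr 1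
    ext c
    have := ty_cases (pos := pos) c
    simp only [mem_filter, mem_union, mem_Tset, mem_univ, true_and]
    constructor
    · intro h
      rcases this with h0 | h0 | h0 <;> simp [h0, h]
    · rintro ((h | h) | h) <;> exact h.2
  · rw [Finset.disjoint_left]
    intro c hc hc'
    simp only [mem_filter, mem_union, mem_Tset] at hc hc'
    omega
  · rw [Finset.disjoint_left]
    intro c hc hc'
    simp only [mem_filter, mem_Tset] at hc hc'
    omega

/-- up flips of a row of type `t` force all rows of smaller type to be in -/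
lemma rmin_even (hψ : Valid m false pos ψ) (hR : RMin m pos ψ) {t t' : ℕ} (ht : t' < t) {j : ℤ}
    (hj : Even j) (h : (Fset m pos ψ t j).card ≠ 0) :
    cnt (Tset pos t') ψ j = (Tset pos t').card := by
  obtain ⟨c, hc⟩ := Finset.card_ne_zero.1 h
  rw [mem_Fset] at hc
  unfold cnt
  congr 1
  apply Finset.filter_true_of_mem
  intro c' hc'
  rw [mem_Tset] at hc'
  by_contra hcon
  have h2 : ψ c' j = false := by simpa using hcon
  have h3 : ψ c' (j - 1) = false := by
    cases z : ψ c' (j - 1)
    · rfl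
    · rw [hψ.even c' j hj z] at h2; simp at h2
  have h4 : ψ c (j - 1) = false ∧ ψ c j = true := by
    have := hψ.even c j hj
    cases z1 : ψ c (j - 1) <;> cases z2 : ψ c j <;> simp_all
  refine hR c c' j ⟨by omega, by rw [h3, h4.1], h4.2, h2, hc.2.1, fun hmk => ?_⟩
  rw [(hψ.mark_even hj hmk).2] at h2
  simp at h2

/-- down flips of a row of type `t'` force all rows of larger type to be out -/
lemma rmin_odd (hψ : Valid m false pos ψ) (hR : RMin m pos ψ) {t t' : ℕ} (ht : t' < t) {j : ℤ}
    (hj : Odd j) (h : (Fset m pos ψ t' j).card ≠ 0) :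
    cnt (Tset pos t) ψ j = 0 := by
  obtain ⟨c', hc'⟩ := Finset.card_ne_zero.1 h
  rw [mem_Fset] at hc'
  unfold cnt
  rw [Finset.card_eq_zero]
  apply Finset.filter_false_of_mem
  intro c hc
  rw [mem_Tset] at hc
  intro h2
  have h3 : ψ c (j - 1) = true := hψ.odd c j hj h2
  have h4 : ψ c' (j - 1) = true ∧ ψ c' j = false := by
    have := hψ.odd c' j hj
    cases z1 : ψ c' (j - 1) <;> cases z2 : ψ c' j <;> simp_all
  refine hR c c' j ⟨by omega, by rw [h3, h4.1], h2, h4.2, fun hmk => ?_, hc'.2.1⟩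
  rw [(hψ.mark_odd hj hmk).2] at h2
  simp at h2

end

end Pool.Agent.Helper16.Wheel
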