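import Pool.Agent.Helper16.Wheel.RMin

set_option linter.unusedSectionVars false

namespace Pool.Agent.Helper16.Wheel

open Finset

lemma periodic_nat {m : ℤ} {X : ℤ → ℤ} (h : ∀ j, X (j + m) = X j) (j : ℤ) (k : ℕ) :
    X (j + m * k) = X j := by
  induction k with
  | zero => simp
  | succ k ih => rw [← ih, ← h (j + m * k)]; congr 1; push_cast; ring

/-- a periodic nonincreasing sequence is constant -/
lemma periodic_antitone {m : ℤ} (hm : 0 < m) {X : ℤ → ℤ} (h : ∀ j, X (j + m) = X j)
    (hX : ∀ j, X j ≤ X (j - 1)) (j : ℤ) : X j = X (j - 1) := by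
  have hn : ∀ (n : ℕ) (i : ℤ), X (i + n) ≤ X i := by
    intro n
    induction n with
    | zero => intro i; simp
    | succ n ih =>
      intro i
      have h1 := hX (i + ((n + 1 : ℕ) : ℤ))
      have h2 := ih i
      have : i + ((n + 1 : ℕ) : ℤ) - 1 = i + n := by push_cast; ring
      rw [this] at h1
      omega
  have h1 := hn (m - 1).toNat j
  have h2 : j + ((m - 1).toNat : ℤ) = (j - 1) + m := by
    rw [Int.toNat_of_nonneg (by omega)]; ring
  rw [h2, h] at h1
  have := hX j
  omega

lemma rec_aux {m : ℤ} (hm : 0 < m) {X X' a c : ℤ → ℤ} (hX : ∀ j, X j = min (X (j - 1) + a j) (c j))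
    (hX' : ∀ j, X' j = min (X' (j - 1) + a j) (c j)) (p : ∀ j, X (j + m) = X j)
    (p' : ∀ j, X' (j + m) = X' j) (h0 : X' 0 ≤ X 0) :
    ∀ j, X j - X' j = X (j - 1) - X' (j - 1) ∧ X' j ≤ X j := by
  have hpos : ∀ n : ℕ, X' n ≤ X n := by
    intro n
    induction n with
    | zero => simpa using h0
    | succ n ih =>
      have h1 := hX ((n + 1 : ℕ) : ℤ)
      have h2 := hX' ((n + 1 : ℕ) : ℤ)
      have : (((n + 1 : ℕ) : ℤ)) - 1 = n := by push_cast; ring
      rw [this] at h1 h2
      omega
  have hall : ∀ j, X' j ≤ X j := by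
    intro j
    have h1 := hpos (j + m * (j.natAbs : ℕ)).toNat
    have h2 : (((j + m * (j.natAbs : ℕ)).toNat : ℕ) : ℤ) = j + m * (j.natAbs : ℕ) := by
      apply Int.toNat_of_nonneg
      have h3 : (1 : ℤ) * (j.natAbs : ℕ) ≤ m * (j.natAbs : ℕ) :=
        mul_le_mul_of_nonneg_right (by omega) (by omega)
      omega
    rw [h2, periodic_nat p, periodic_nat p'] at h1
    exact h1
  intro j
  refine ⟨?_, hall j⟩
  apply periodic_antitone (X := fun j => X j - X' j) hm
  · intro j; simp only [p, p']
  · intro j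
    have h1 := hX j
    have h2 := hX' j
    have h3 := hall (j - 1)
    have h4 := hall j
    omega

lemma const_of_step {D : ℤ → ℤ} (h : ∀ j, D j = D (j - 1)) (j : ℤ) : D j = D 0 := by
  induction j using Int.induction_on with
  | zero => rfl
  | succ k ih => rw [h, ← ih]; congr 1; ring
  | pred k ih => rw [← ih, h (-(k : ℤ))]

/-- The recursion lemma: two periodic solutions of a truncated recursion either agree or differ by
a nonzero constant, in which case no truncation happens. -/
lemma rec_lemma {m : ℤ} (hm : 0 < m) {X X' a c : ℤ → ℤ}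
    (hX : ∀ j, X j = min (X (j - 1) + a j) (c j))
    (hX' : ∀ j, X' j = min (X' (j - 1) + a j) (c j)) (p : ∀ j, X (j + m) = X j)
    (p' : ∀ j, X' (j + m) = X' j) :
    ∃ δ : ℤ, (∀ j, X' j = X j + δ) ∧
      (δ ≠ 0 → ∀ j, X j = X (j - 1) + a j ∧ X' j = X' (j - 1) + a j) := by
  rcases le_total (X' 0) (X 0) with h0 | h0
  · have h := rec_aux hm hX hX' p p' h0
    have hc := const_of_step (D := fun j => X j - X' j) (fun j => (h j).1)
    refine ⟨X' 0 - X 0, fun j => ?_, fun hne j => ?_⟩
    · have := hc j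
      omega
    · have h1 := hc j
      have h2 := hc (j - 1)
      have h3 := hX j
      have h4 := hX' j
      omega
  · have h := rec_aux hm hX' hX p' p h0
    have hc := const_of_step (D := fun j => X' j - X j) (fun j => (h j).1)
    refine ⟨X' 0 - X 0, fun j => ?_, fun hne j => ?_⟩
    · have := hc j
      omega
    · have h1 := hc j
      have h2 := hc (j - 1)
      have h3 := hX j
      have h4 := hX' j
      omega

section
variable {ι : Type*} [Fintype ι] [DecidableEq ι] {m : ℤ} {pos : ι → Option ℤ}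
  {ψ ψ' ψ'' : ι → ℤ → Bool} {k : ℕ}

/-- No unmarked flips, except down flips of gain rows and up flips of loss rows. -/
def Form0 (m : ℤ) (pos : ι → Option ℤ) (ψ : ι → ℤ → Bool) : Prop :=
  ∀ c j, ψ c (j - 1) ≠ ψ c j → Mark m pos c j ∨ (ty pos c = 2 ∧ Odd j) ∨
    (ty pos c = 0 ∧ Even j)

lemma form0_of (h1 : ∀ j, Fset m pos ψ 1 j = ∅) (h2 : ∀ j, Even j → Fset m pos ψ 2 j = ∅)
    (h0 : ∀ j, Odd j → Fset m pos ψ 0 j = ∅) : Form0 m pos ψ := by
  intro c j hf
  by_cases hmk : Mark m pos c j
  · exact Or.inl hmk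
  right
  rcases ty_cases (pos := pos) c with ht | ht | ht
  · right
    refine ⟨ht, ?_⟩
    by_contra hj
    have : c ∈ Fset m pos ψ 0 j := mem_Fset.2 ⟨ht, hmk, hf⟩
    rw [h0 j (Int.not_even_iff_odd.1 hj)] at this
    simp at this
  · exfalso
    have : c ∈ Fset m pos ψ 1 j := mem_Fset.2 ⟨ht, hmk, hf⟩
    rw [h1 j] at this
    simp at this
  · left
    refine ⟨ht, ?_⟩
    by_contra hj
    have : c ∈ Fset m pos ψ 2 j := mem_Fset.2 ⟨ht, hmk, hf⟩
    rw [h2 j (Int.not_odd_iff_even.1 hj)] at this
    simp at this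

lemma cnt_per (hψ : Valid m false pos ψ) (S : Finset ι) (g : ℤ) :
    cnt S ψ (g + m) = cnt S ψ g := by
  unfold cnt
  congr 1
  ext c
  simp [hψ.per]

open Classical in
/-- increments of the recursion -/
noncomputable def incr (m : ℤ) (pos : ι → Option ℤ) (ψ : ι → ℤ → Bool) (j : ℤ) : ℤ :=
  if Even j then (cnt univ ψ j : ℤ) - cnt univ ψ (j - 1) - (Mset m pos 2 j).card
  else - ((Mset m pos 0 j).card : ℤ)

lemma incr_congr (hs : Same m false pos ψ ψ') (j : ℤ) : incr m pos ψ j = incr m pos ψ' j := by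
  unfold incr
  rw [hs.cnt, hs.cnt]

/-- data of a minimal state at a vertex -/
lemma rmin_rec (hme : Even m) (hψ : Valid m false pos ψ) (hR : RMin m pos ψ) (j : ℤ) :
    ((cnt (Tset pos 0) ψ j : ℤ) = min ((cnt (Tset pos 0) ψ (j - 1) : ℤ) + incr m pos ψ j)
      (if Even j then ((Tset pos 0).card : ℤ) else cnt univ ψ j)) ∧
    ((cnt (Tset pos 0) ψ j : ℤ) + cnt (Tset pos 1) ψ j =
      min ((cnt (Tset pos 0) ψ (j - 1) : ℤ) + cnt (Tset pos 1) ψ (j - 1) + incr m pos ψ j)
      (if Even j then ((Tset pos 0).card : ℤ) + (Tset pos 1).card else cnt univ ψ j)) := by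
  have u1 := cnt_univ (ψ := ψ) pos j
  have u2 := cnt_univ (ψ := ψ) pos (j - 1)
  have l0 := cnt_le (ψ := ψ) (Tset pos 0) j
  have l1 := cnt_le (ψ := ψ) (Tset pos 1) j
  unfold incr
  rcases Int.even_or_odd j with hj | hj
  · simp only [if_pos hj]
    have e0 := cnt_even hψ 0 hj
    have e1 := cnt_even hψ 1 hj
    have e2 := cnt_even hψ 2 hj
    have m0 : Mset m pos 0 j = ∅ := Mset_eq_empty hme (by simp [hj])
    have m1 : Mset m pos 1 j = ∅ := Mset_eq_empty hme (by simp [hj])
    rw [m0, Finset.card_empty] at e0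
    rw [m1, Finset.card_empty] at e1
    have r10 := rmin_even hψ hR (show 0 < 1 by omega) hj
    have r20 := rmin_even hψ hR (show 0 < 2 by omega) hj
    have r21 := rmin_even hψ hR (show 1 < 2 by omega) hj
    constructor
    · by_cases hF : (Fset m pos ψ 1 j).card ≠ 0 ∨ (Fset m pos ψ 2 j).card ≠ 0
      · have : cnt (Tset pos 0) ψ j = (Tset pos 0).card := by
          rcases hF with hF | hF
          · exact r10 hF
          · exact r20 hF
        omega
      · push Not at hF
        omega
    · by_cases hF : (Fset m pos ψ 2 j).card ≠ 0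
      · have := r20 hF
        have := r21 hF
        omega
      · push Not at hF
        omega
  · have hj' : ¬ Even j := Int.not_even_iff_odd.2 hj
    simp only [if_neg hj']
    have e0 := cnt_odd hψ 0 hj
    have e1 := cnt_odd hψ 1 hj
    have e2 := cnt_odd hψ 2 hj
    have m1 : Mset m pos 1 j = ∅ := Mset_eq_empty hme (by simp [hj'])
    have m2 : Mset m pos 2 j = ∅ := Mset_eq_empty hme (by simp [hj'])
    rw [m1, Finset.card_empty] at e1
    rw [m2, Finset.card_empty] at e2
    have r01 := rmin_odd hψ hR (show 0 < 1 by omega) hj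
    have r02 := rmin_odd hψ hR (show 0 < 2 by omega) hj
    have r12 := rmin_odd hψ hR (show 1 < 2 by omega) hj
    constructor
    · by_cases hF : (Fset m pos ψ 0 j).card ≠ 0
      · have := r01 hF
        have := r02 hF
        omega
      · push Not at hF
        omega
    · by_cases hF : (Fset m pos ψ 0 j).card ≠ 0
      · have := r01 hF
        have := r02 hF
        omega
      · by_cases hF' : (Fset m pos ψ 1 j).card ≠ 0
        · have := r12 hF'
          omega
        · push Not at hF hF'
          omega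

/-- From non-truncation of the first recursion. -/
lemma form0_of_X (hm : 0 < m) (hme : Even m) (hψ : Valid m false pos ψ)
    (h : ∀ j, (cnt (Tset pos 0) ψ j : ℤ) = (cnt (Tset pos 0) ψ (j - 1) : ℤ) + incr m pos ψ j) :
    Form0 m pos ψ := by
  have hev : ∀ j, Even j → (Fset m pos ψ 1 j).card = 0 ∧ (Fset m pos ψ 2 j).card = 0 := by
    intro j hj
    have u1 := cnt_univ (ψ := ψ) pos j
    have u2 := cnt_univ (ψ := ψ) pos (j - 1)
    have e0 := cnt_even hψ 0 hj
    have e1 := cnt_even hψ 1 hj
    have e2 := cnt_even hψ 2 hj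
    have m0 : Mset m pos 0 j = ∅ := Mset_eq_empty hme (by simp [hj])
    have m1 : Mset m pos 1 j = ∅ := Mset_eq_empty hme (by simp [hj])
    rw [m0, Finset.card_empty] at e0
    rw [m1, Finset.card_empty] at e1
    have hh := h j
    unfold incr at hh
    rw [if_pos hj] at hh
    omega
  have hod : ∀ j, Odd j → (Fset m pos ψ 0 j).card = 0 := by
    intro j hj
    have hj' : ¬ Even j := Int.not_even_iff_odd.2 hj
    have e0 := cnt_odd hψ 0 hj
    have hh := h j
    unfold incr at hh
    rw [if_neg hj'] at hh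
    omega
  have hk : ∀ j, (cnt (Tset pos 1) ψ j : ℤ) = cnt (Tset pos 1) ψ (j - 1) := by
    apply periodic_antitone (X := fun j => (cnt (Tset pos 1) ψ j : ℤ)) hm
    · intro j; simp only [cnt_per hψ]
    · intro j
      rcases Int.even_or_odd j with hj | hj
      · have e1 := cnt_even hψ 1 hj
        have m1 : Mset m pos 1 j = ∅ := Mset_eq_empty hme (by simp [hj])
        rw [m1, Finset.card_empty] at e1
        have := (hev j hj).1
        omega
      · have e1 := cnt_odd hψ 1 hj
        omega
  refine form0_of ?_ (fun j hj => Finset.card_eq_zero.1 (hev j hj).2)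
    (fun j hj => Finset.card_eq_zero.1 (hod j hj))
  intro j
  rcases Int.even_or_odd j with hj | hj
  · exact Finset.card_eq_zero.1 (hev j hj).1
  · have e1 := cnt_odd hψ 1 hj
    have := hk j
    rw [← Finset.card_eq_zero]
    omega

/-- From non-truncation of the second recursion. -/
lemma form0_of_Y (hm : 0 < m) (hme : Even m) (hψ : Valid m false pos ψ)
    (h : ∀ j, (cnt (Tset pos 0) ψ j : ℤ) + cnt (Tset pos 1) ψ j =
      (cnt (Tset pos 0) ψ (j - 1) : ℤ) + cnt (Tset pos 1) ψ (j - 1) + incr m pos ψ j) :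
    Form0 m pos ψ := by
  have hev : ∀ j, Even j → (Fset m pos ψ 2 j).card = 0 := by
    intro j hj
    have u1 := cnt_univ (ψ := ψ) pos j
    have u2 := cnt_univ (ψ := ψ) pos (j - 1)
    have e0 := cnt_even hψ 0 hj
    have e1 := cnt_even hψ 1 hj
    have e2 := cnt_even hψ 2 hj
    have m0 : Mset m pos 0 j = ∅ := Mset_eq_empty hme (by simp [hj])
    have m1 : Mset m pos 1 j = ∅ := Mset_eq_empty hme (by simp [hj])
    rw [m0, Finset.card_empty] at e0
    rw [m1, Finset.card_empty] at e1
    have hh := h j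
    unfold incr at hh
    rw [if_pos hj] at hh
    omega
  have hod : ∀ j, Odd j → (Fset m pos ψ 0 j).card = 0 ∧ (Fset m pos ψ 1 j).card = 0 := by
    intro j hj
    have hj' : ¬ Even j := Int.not_even_iff_odd.2 hj
    have e0 := cnt_odd hψ 0 hj
    have e1 := cnt_odd hψ 1 hj
    have m1 : Mset m pos 1 j = ∅ := Mset_eq_empty hme (by simp [hj'])
    rw [m1, Finset.card_empty] at e1
    have hh := h j
    unfold incr at hh
    rw [if_neg hj'] at hh
    omega
  have hk : ∀ j, -(cnt (Tset pos 1) ψ j : ℤ) = -(cnt (Tset pos 1) ψ (j - 1) : ℤ) := by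
    apply periodic_antitone (X := fun j => -(cnt (Tset pos 1) ψ j : ℤ)) hm
    · intro j; simp only [cnt_per hψ]
    · intro j
      rcases Int.even_or_odd j with hj | hj
      · have e1 := cnt_even hψ 1 hj
        omega
      · have e1 := cnt_odd hψ 1 hj
        have hj' : ¬ Even j := Int.not_even_iff_odd.2 hj
        have m1 : Mset m pos 1 j = ∅ := Mset_eq_empty hme (by simp [hj'])
        rw [m1, Finset.card_empty] at e1
        have := (hod j hj).2
        omega
  refine form0_of ?_ (fun j hj => Finset.card_eq_zero.1 (hev j hj))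
    (fun j hj => Finset.card_eq_zero.1 (hod j hj).1)
  intro j
  rcases Int.even_or_odd j with hj | hj
  · have e1 := cnt_even hψ 1 hj
    have := hk j
    rw [← Finset.card_eq_zero]
    omega
  · exact Finset.card_eq_zero.1 (hod j hj).2

/-- Two minimal states of a fiber: their type counts differ by constants, and if they differ,
both are in `Form0`. -/
theorem rmin_dichotomy (hm : 0 < m) (hme : Even m) (hs : Same m false pos ψ ψ')
    (hR : RMin m pos ψ) (hR' : RMin m pos ψ') :
    ∃ a b : ℤ, (∀ j, (cnt (Tset pos 0) ψ' j : ℤ) = cnt (Tset pos 0) ψ j + a) ∧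
      (∀ j, (cnt (Tset pos 2) ψ j : ℤ) = cnt (Tset pos 2) ψ' j + b) ∧
      (a ≠ 0 ∨ b ≠ 0 → Form0 m pos ψ ∧ Form0 m pos ψ') := by
  have hr := rmin_rec hme hs.left hR
  have hr' := rmin_rec hme hs.right hR'
  obtain ⟨a, ha, ha'⟩ := rec_lemma hm (X := fun j => (cnt (Tset pos 0) ψ j : ℤ))
    (X' := fun j => (cnt (Tset pos 0) ψ' j : ℤ)) (a := incr m pos ψ)
    (c := fun j => if Even j then ((Tset pos 0).card : ℤ) else cnt univ ψ j)
    (fun j => (hr j).1) (fun j => by
      have := (hr' j).1
      rw [← incr_congr hs, ← hs.cnt] at this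
      exact this) (fun j => by simp only [cnt_per hs.left]) (fun j => by simp only [cnt_per hs.right])
  obtain ⟨b, hb, hb'⟩ := rec_lemma hm
    (X := fun j => (cnt (Tset pos 0) ψ j : ℤ) + cnt (Tset pos 1) ψ j)
    (X' := fun j => (cnt (Tset pos 0) ψ' j : ℤ) + cnt (Tset pos 1) ψ' j) (a := incr m pos ψ)
    (c := fun j => if Even j then ((Tset pos 0).card : ℤ) + (Tset pos 1).card else cnt univ ψ j)
    (fun j => (hr j).2) (fun j => by
      have := (hr' j).2
      rw [← incr_congr hs, ← hs.cnt] at this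
      exact this) (fun j => by simp only [cnt_per hs.left]) (fun j => by simp only [cnt_per hs.right])
  refine ⟨a, b, ha, ?_, ?_⟩
  · intro j
    have u1 := cnt_univ (ψ := ψ) pos j
    have u2 := cnt_univ (ψ := ψ') pos j
    have := hs.cnt j
    have := hb j
    omega
  · rintro (h | h)
    · refine ⟨form0_of_X hm hme hs.left (fun j => (ha' h j).1), form0_of_X hm hme hs.right ?_⟩
      intro j
      rw [← incr_congr hs]
      exact (ha' h j).2
    · refine ⟨form0_of_Y hm hme hs.left (fun j => (hb' h j).1), form0_of_Y hm hme hs.right ?_⟩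
      intro j
      rw [← incr_congr hs]
      exact (hb' h j).2

end

end Pool.Agent.Helper16.Wheel
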