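import Pool.Agent.Helper16.Wheel.Chain

set_option linter.unusedSectionVars false

namespace Pool.Agent.Helper16.Wheel

open Finset

section
variable {ι : Type*} [Fintype ι] [DecidableEq ι] {m : ℤ} {b : Bool} {pos : ι → Option ℤ}
  {ψ ψ' ψ'' : ι → ℤ → Bool} {k : ℕ}

/-- Lemma L together with a reduction procedure at the gap `g`. -/
lemma conn_of_reduce (hm : 0 < m) (g : ℤ) (P : (ι → ℤ → Bool) → (ι → ℤ → Bool) → Prop)
    (hred : ∀ ψ ψ', Same m b pos ψ ψ' → P ψ ψ' → ∀ c ∈ mis ψ ψ' g, ∀ c' ∈ mis ψ' ψ g,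
      (∃ ψ₁, Step m b pos 2 ψ ψ₁ ∧ P ψ₁ ψ' ∧ mis ψ₁ ψ' g ⊂ mis ψ ψ' g) ∨
      (∃ ψ₁, Step m b pos 2 ψ' ψ₁ ∧ P ψ ψ₁ ∧ mis ψ ψ₁ g ⊂ mis ψ ψ' g))
    (hs : Same m b pos ψ ψ') (hP : P ψ ψ') : Conn m b pos 2 ψ ψ' := by
  have main : ∀ (l : ℕ) (ψ ψ' : ι → ℤ → Bool), Same m b pos ψ ψ' → P ψ ψ' →
      (mis ψ ψ' g).card = l → Conn m b pos 2 ψ ψ' := by
    intro l
    induction l using Nat.strong_induction_on with
    | _ l ih =>
      intro ψ ψ' hs hP hl
      rcases Finset.eq_empty_or_nonempty (mis ψ ψ' g) with he | hne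
      · exact conn_of_agree hm hs g (eq_of_mis_empty (funext hs.cnt) he)
      · obtain ⟨c', hc'⟩ := exists_rev_of_mis (funext hs.cnt) hne
        obtain ⟨c, hc⟩ := hne
        rcases hred ψ ψ' hs hP c hc c' hc' with ⟨ψ₁, h1, h2, h3⟩ | ⟨ψ₁, h1, h2, h3⟩
        · exact h1.conn.trans (ih _ (hl ▸ Finset.card_lt_card h3) ψ₁ ψ' (h1.1.symm.trans hs) h2 rfl)
        · exact Conn.trans (ih _ (hl ▸ Finset.card_lt_card h3) ψ ψ₁ (hs.trans h1.1) h2 rfl)
            h1.conn.symm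
  exact main _ ψ ψ' hs hP rfl

/-- A maximal arc around `g` on which `c` is out and `c'` is in. -/
lemma two_sided (hψ : Valid m b pos ψ) {c c' : ι} {g lo hi : ℤ} (h : ψ c g = false)
    (h' : ψ c' g = true) (hlo : lo < g) (hhi : g < hi) (hlo' : ψ c lo = true ∨ ψ c' lo = false)
    (hhi' : ψ c hi = true ∨ ψ c' hi = false) (hw : hi - lo ≤ m)
    (hno : ∀ j, lo < j → j ≤ hi → ¬ Mark m pos c j ∧ ¬ Mark m pos c' j) :
    ∃ τ e, lo < τ ∧ τ ≤ g ∧ g < e ∧ e ≤ hi ∧ Sw m pos ψ c c' τ e ∧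
      ∀ x, τ ≤ x → x < e → ψ c x = false ∧ ψ c' x = true := by
  obtain ⟨e, he1, he2, he3, he4⟩ := exists_first
    (fun x => ψ c x = false ∧ ψ c' x = true) hhi ⟨h, h'⟩ (by
      rintro ⟨y1, y2⟩
      rcases hhi' with z | z
      · rw [y1] at z; simp at z
      · rw [y2] at z; simp at z)
  obtain ⟨l, hl1, hl2, hl3, hl4⟩ := exists_last
    (fun x => ψ c x = false ∧ ψ c' x = true) hlo ⟨h, h'⟩ (by
      rintro ⟨y1, y2⟩
      rcases hlo' with z | z
      · rw [y1] at z; simp at z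
      · rw [y2] at z; simp at z)
  refine ⟨l + 1, e, by omega, by omega, he1, he2, ⟨by omega, by omega, ?_, ?_, ?_⟩, ?_⟩
  · obtain ⟨x1, x2⟩ := hl4 (l + 1) (by omega) (by omega)
    have ev := hψ.even c (l + 1)
    have ev' := hψ.even c' (l + 1)
    have od := hψ.odd c (l + 1)
    have od' := hψ.odd c' (l + 1)
    simp only [add_sub_cancel_right] at *
    rcases Int.even_or_odd (l + 1) with hj | hj
    · cases z1 : ψ c l <;> cases z2 : ψ c' l <;> simp_all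
    · cases z1 : ψ c l <;> cases z2 : ψ c' l <;> simp_all
  · obtain ⟨x1, x2⟩ := he4 (e - 1) (by omega) (by omega)
    have ev := hψ.even c e
    have ev' := hψ.even c' e
    have od := hψ.odd c e
    have od' := hψ.odd c' e
    rcases Int.even_or_odd e with hj | hj
    · cases z1 : ψ c e <;> cases z2 : ψ c' e <;> simp_all
    · cases z1 : ψ c e <;> cases z2 : ψ c' e <;> simp_all
  · intro j h1 h2
    exact hno j (by omega) (by omega)
  · intro x hx1 hx2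
    by_cases hx : x ≤ g
    · exact hl4 x hx (by omega)
    · exact he4 x (by omega) hx2

end

end Pool.Agent.Helper16.Wheel
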