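import Pool.Agent.Helper16.Wheel.Defs

/-! Toric ideals and minimal homogeneous generating sets. -/

set_option linter.unusedSectionVars false

namespace Pool.Agent.Helper16.Wheel

open MvPolynomial

section omega
variable {σ : Type*} {K : Type*} [Field K]

/-- homogeneous elements of degree at most `k` -/
def lowSet (I : Ideal (MvPolynomial σ K)) (k : ℕ) : Set (MvPolynomial σ K) :=
  {f | f ∈ I ∧ ∃ n ≤ k, f.IsHomogeneous n}

lemma span_lowSet_le (I : Ideal (MvPolynomial σ K)) (k : ℕ) : Ideal.span (lowSet I k) ≤ I :=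
  Ideal.span_le.2 fun _ hf => hf.1

lemma lowSet_mono (I : Ideal (MvPolynomial σ K)) {k k' : ℕ} (h : k ≤ k') :
    lowSet I k ⊆ lowSet I k' := by
  rintro f ⟨h1, n, h2, h3⟩
  exact ⟨h1, n, h2.trans h, h3⟩

/-- components of elements of the ideal generated by homogeneous elements -/
lemma component_mem_span {S : Set (MvPolynomial σ K)} (hS : ∀ f ∈ S, ∃ n, f.IsHomogeneous n)
    {g : MvPolynomial σ K} (hg : g ∈ Ideal.span S) :
    ∀ m, homogeneousComponent m g ∈ Ideal.span {s | s ∈ S ∧ s.totalDegree ≤ m} := by
  unfold Ideal.span at hg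
  induction hg using Submodule.span_induction with
  | mem x hx =>
    intro m
    obtain ⟨n, hn⟩ := hS x hx
    rw [homogeneousComponent_of_mem hn]
    split_ifs with h
    · apply Ideal.subset_span
      exact ⟨hx, h ▸ hn.totalDegree_le⟩
    · exact Ideal.zero_mem _
  | zero => intro m; rw [map_zero]; exact Ideal.zero_mem _
  | add x y _ _ hx hy =>
    intro m
    rw [map_add]
    exact Ideal.add_mem _ (hx m) (hy m)
  | smul a x _ hx =>
    intro m
    rw [smul_eq_mul]
    have ha := sum_homogeneousComponent a
    have hx' := sum_homogeneousComponent x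
    rw [← ha, ← hx', Finset.sum_mul_sum, map_sum]
    apply Ideal.sum_mem
    intro i _
    rw [map_sum]
    apply Ideal.sum_mem
    intro j _
    have hij : (homogeneousComponent i a * homogeneousComponent j x).IsHomogeneous (i + j) :=
      (homogeneousComponent_isHomogeneous i a).mul (homogeneousComponent_isHomogeneous j x)
    rw [homogeneousComponent_of_mem hij]
    split_ifs with h
    · apply Ideal.mul_mem_left
      refine Ideal.span_mono ?_ (hx j)
      rintro s ⟨h1, h2⟩
      exact ⟨h1, by omega⟩
    · exact Ideal.zero_mem _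

lemma IsMinHomGen.ne_zero {I : Ideal (MvPolynomial σ K)} {S : Set (MvPolynomial σ K)}
    (h : IsMinHomGen I S) {f : MvPolynomial σ K} (hf : f ∈ S) : f ≠ 0 := by
  rintro rfl
  refine h.min (S \ {0}) ⟨Set.sdiff_subset, fun hh => (hh hf).2 rfl⟩ ?_
  rw [Ideal.span_sdiff_singleton_zero, h.span_eq]

/-- upper bound for the degrees in a minimal homogeneous generating set -/
lemma IsMinHomGen.degree_le {I : Ideal (MvPolynomial σ K)} {S : Set (MvPolynomial σ K)}
    (h : IsMinHomGen I S) {w : ℕ} (hw : Ideal.span (lowSet I w) = I) {f : MvPolynomial σ K}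
    (hf : f ∈ S) : f.totalDegree ≤ w := by
  by_contra hcon
  push Not at hcon
  refine h.min (S \ {f}) ⟨Set.sdiff_subset, fun hh => (hh hf).2 rfl⟩ ?_
  apply le_antisymm
  · rw [← h.span_eq]; exact Ideal.span_mono Set.sdiff_subset
  · rw [← hw, Ideal.span_le]
    rintro g ⟨hg1, n, hn, hg2⟩
    rw [← h.span_eq] at hg1
    have := component_mem_span h.hom hg1 n
    rw [homogeneousComponent_of_mem hg2, if_pos rfl] at this
    refine Ideal.span_mono ?_ this
    rintro s ⟨h1, h2⟩
    refine ⟨h1, ?_⟩
    rintro rfl
    omega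

lemma IsMinHomGen.exists_degree {I : Ideal (MvPolynomial σ K)} {S : Set (MvPolynomial σ K)}
    (h : IsMinHomGen I S) {w : ℕ} (hw : Ideal.span (lowSet I w) ≠ I) : 
    ∃ f ∈ S, w < f.totalDegree := by
  by_contra hcon
  push Not at hcon
  apply hw
  apply le_antisymm (span_lowSet_le I w)
  conv_lhs => rw [← h.span_eq]
  apply Ideal.span_mono
  intro f hf
  obtain ⟨n, hn⟩ := h.hom f hf
  refine ⟨h.span_eq ▸ Ideal.subset_span hf, n, ?_, hn⟩
  rw [← hn.totalDegree (h.ne_zero hf)]
  exact hcon f hf

lemma exists_minHomGen [Finite σ] {I : Ideal (MvPolynomial σ K)} {w : ℕ}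
    (hw : Ideal.span (lowSet I w) = I) : ∃ S, IsMinHomGen I S := by
  classical
  have hfg : (Submodule.span (MvPolynomial σ K) (lowSet I w)).FG :=
    (isNoetherianRing_iff_ideal_fg _).1 inferInstance _
  rw [Submodule.fg_span_iff_fg_span_finset_subset] at hfg
  obtain ⟨s0, hs0, hs0'⟩ := hfg
  -- choose a subset of minimal size
  have hex : ∃ n, ∃ s : Finset (MvPolynomial σ K), (s : Set _) ⊆ lowSet I w ∧
      Ideal.span (s : Set (MvPolynomial σ K)) = I ∧ s.card = n :=
    ⟨_, s0, hs0, by rw [← hw]; exact hs0'.symm, rfl⟩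
  obtain ⟨s, hs1, hs2, hs3⟩ := Nat.find_spec hex
  refine ⟨s, ⟨?_, hs2, ?_⟩⟩
  · intro f hf
    obtain ⟨-, n, -, hn⟩ := hs1 hf
    exact ⟨n, hn⟩
  · intro T hT hTI
    have hfin : T.Finite := s.finite_toSet.subset hT.1
    have hlt : hfin.toFinset.card < s.card := by
      apply Finset.card_lt_card
      rw [← Finset.coe_ssubset]
      simpa using hT
    rw [hs3] at hlt
    refine Nat.find_min hex hlt ⟨hfin.toFinset, ?_, ?_, rfl⟩
    · simpa using hT.1.trans hs1
    · simpa using hTI

/-- Criterion for the value of `ω`. -/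
theorem hasOmega_of [Finite σ] {I : Ideal (MvPolynomial σ K)} {w : ℕ}
    (h1 : Ideal.span (lowSet I (w + 1)) = I) (h2 : Ideal.span (lowSet I w) ≠ I) :
    HasOmega I (w + 1) := by
  refine Or.inr ⟨?_, exists_minHomGen h1, ?_⟩
  · rintro rfl
    apply h2
    exact le_bot_iff.1 (span_lowSet_le _ _)
  · intro S hS
    constructor
    · obtain ⟨f, hf, hfd⟩ := hS.exists_degree h2
      exact ⟨f, hf, le_antisymm (hS.degree_le h1 hf) hfd⟩
    · rintro _ ⟨f, hf, rfl⟩
      exact hS.degree_le h1 hf

end omega

section toric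
variable {σ τ : Type*} {K : Type*} [Field K] (E : σ → (τ →₀ ℕ))

/-- the exponent of the image of a monomial -/
noncomputable def EE (u : σ →₀ ℕ) : τ →₀ ℕ := Finsupp.linearCombination ℕ E u

variable (K) in
/-- a toric map -/
noncomputable def tor : MvPolynomial σ K →ₐ[K] MvPolynomial τ K :=
  aeval fun i => monomial (E i) 1

lemma EE_add (u v : σ →₀ ℕ) : EE E (u + v) = EE E u + EE E v := map_add _ _ _

lemma EE_single (i : σ) : EE E (Finsupp.single i 1) = E i := by
  simp [EE]

lemma EE_sum {ι : Type*} (s : Finset ι) (f : ι → (σ →₀ ℕ)) :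
    EE E (∑ i ∈ s, f i) = ∑ i ∈ s, EE E (f i) := map_sum _ _ _

lemma tor_monomial (u : σ →₀ ℕ) (c : K) : tor K E (monomial u c) = monomial (EE E u) c := by
  unfold tor EE
  rw [aeval_monomial, Finsupp.linearCombination_apply, monomial_finsupp_sum_index]
  congr 1
  apply Finsupp.prod_congr
  intro i _
  rw [monomial_pow, one_pow]

/-- coefficients at monomials with a singleton fiber vanish on the kernel -/
lemma coeff_eq_zero_of_fiber {u : σ →₀ ℕ} (hu : ∀ v, EE E v = EE E u → v = u)
    {f : MvPolynomial σ K} (hf : tor K E f = 0) : coeff u f = 0 := by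
  classical
  have key : (lcoeff K (EE E u)) ∘ₗ (tor K E).toLinearMap = lcoeff K u := by
    apply MvPolynomial.linearMap_ext
    intro v
    ext
    simp only [LinearMap.comp_apply, AlgHom.toLinearMap_apply, tor_monomial, lcoeff_apply,
      coeff_monomial]
    by_cases h : EE E v = EE E u
    · rw [if_pos h, if_pos (hu v h)]
    · rw [if_neg h, if_neg (fun hh => h (by rw [hh]))]
  have := LinearMap.congr_fun key f
  simp only [LinearMap.comp_apply, AlgHom.toLinearMap_apply, lcoeff_apply, hf, coeff_zero] at this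
  exact this.symm

/-- the toric ideal -/
noncomputable def torI (K : Type*) [Field K] : Ideal (MvPolynomial σ K) := RingHom.ker (tor K E)

/-- Lower bound criterion. -/
theorem span_low_ne {u u' : σ →₀ ℕ} {k : ℕ} (hdeg : u.degree = k + 1) (hE : EE E u' = EE E u)
    (hne : u' ≠ u) (hfib : ∀ v, v ≤ u → v ≠ u → ∀ v', EE E v' = EE E v → v' = v) :
    Ideal.span (lowSet (torI E K) k) ≠ torI E K := by
  classical
  intro hcon
  have hmem : (monomial u (1 : K) - monomial u' 1) ∈ torI E K := by
    rw [torI, RingHom.mem_ker, map_sub, tor_monomial, tor_monomial, hE, sub_self]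
  rw [← hcon] at hmem
  have key : ∀ f ∈ Ideal.span (lowSet (torI E K) k), coeff u f = 0 := by
    intro f hf
    unfold Ideal.span at hf
    induction hf using Submodule.span_induction with
    | mem g hg =>
      obtain ⟨-, n, hn, hg2⟩ := hg
      exact hg2.coeff_eq_zero (by omega)
    | zero => simp
    | add x y _ _ hx hy => rw [coeff_add, hx, hy, add_zero]
    | smul a x hx _ =>
      rw [smul_eq_mul]
      -- use that x is in the span
      have hx' : ∀ b, b ≤ u → b ≠ u → coeff b x = 0 := by
        intro b hb hb'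
        apply coeff_eq_zero_of_fiber E (hfib b hb hb')
        have : x ∈ torI E K := span_lowSet_le _ _ hx
        exact this
      rw [coeff_mul]
      apply Finset.sum_eq_zero
      rintro ⟨c, b⟩ hcb
      rw [Finset.HasAntidiagonal.mem_antidiagonal] at hcb
      simp only at hcb ⊢
      have hbu : b ≤ u := by rw [← hcb]; exact le_add_self
      by_cases hb : b = u
      · have : coeff u x = 0 := by assumption
        rw [hb, this, mul_zero]
      · rw [hx' b hbu hb, mul_zero]
  have := key _ hmem
  rw [coeff_sub, coeff_monomial, coeff_monomial, if_pos rfl, if_neg hne] at this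
  simp at this

/-- monomials as products of variables -/
lemma exists_tuple (u : σ →₀ ℕ) : ∃ T : Fin u.degree → σ, ∑ i, Finsupp.single (T i) 1 = u := by
  classical
  have hlen : (Finsupp.toMultiset u).toList.length = u.degree := by
    rw [Multiset.length_toList, Finsupp.card_toMultiset]
    rfl
  refine ⟨fun i => (Finsupp.toMultiset u).toList.get (Fin.cast hlen.symm i), ?_⟩
  have hinj : Function.Injective (Finsupp.toMultiset : (σ →₀ ℕ) → Multiset σ) :=
    Function.LeftInverse.injective (g := Multiset.toFinsupp)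
      (fun f => Finsupp.toMultiset_toFinsupp f)
  apply hinj
  rw [Finsupp.toMultiset_sum]
  simp only [Finsupp.toMultiset_single, one_smul]
  have h1 : ∑ i : Fin u.degree, ({(Finsupp.toMultiset u).toList.get (Fin.cast hlen.symm i)} :
      Multiset σ) = ∑ i : Fin (Finsupp.toMultiset u).toList.length,
        {(Finsupp.toMultiset u).toList.get i} := by
    apply Fintype.sum_equiv (finCongr hlen.symm)
    intro i
    rfl
  rw [h1]
  conv_rhs => rw [← Multiset.coe_toList (Finsupp.toMultiset u)]
  generalize (Finsupp.toMultiset u).toList = l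
  simp only [List.get_eq_getElem]
  rw [Fin.sum_univ_fun_getElem l (fun a => ({a} : Multiset σ))]
  induction l with
  | nil => simp
  | cons a l ih =>
    rw [List.map_cons, List.sum_cons, ih, Multiset.singleton_add, Multiset.cons_coe]

/-- Upper bound criterion. -/
theorem torI_le {J : Ideal (MvPolynomial σ K)}
    (h : ∀ u v : σ →₀ ℕ, EE E u = EE E v → monomial u (1 : K) - monomial v 1 ∈ J) :
    torI E K ≤ J := by
  intro f hf
  rw [torI, RingHom.mem_ker] at hf
  let q : MvPolynomial σ K →ₗ[K] (MvPolynomial σ K ⧸ J) := (Ideal.Quotient.mkₐ K J).toLinearMap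
  let hh : (τ →₀ ℕ) → (MvPolynomial σ K ⧸ J) :=
    Function.extend (EE E) (fun u => q (monomial u 1)) 0
  have hfac : Function.FactorsThrough (fun u => q (monomial u (1 : K))) (EE E) := by
    intro u v huv
    have := h u v huv
    rw [← Ideal.Quotient.eq] at this
    exact this
  let L : MvPolynomial τ K →ₗ[K] (MvPolynomial σ K ⧸ J) := (basisMonomials τ K).constr K hh
  have hL : ∀ s : τ →₀ ℕ, L (monomial s 1) = hh s := by
    intro s
    have := (basisMonomials τ K).constr_basis K hh s
    simpa using this
  have key : L ∘ₗ (tor K E).toLinearMap = q := by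
    apply (basisMonomials σ K).ext
    intro u
    simp only [coe_basisMonomials, LinearMap.comp_apply, AlgHom.toLinearMap_apply, tor_monomial, hL]
    exact hfac.extend_apply _ u
  have := LinearMap.congr_fun key f
  simp only [LinearMap.comp_apply, AlgHom.toLinearMap_apply, hf, map_zero] at this
  have h2 : (Ideal.Quotient.mk J) f = 0 := this.symm
  exact Ideal.Quotient.eq_zero_iff_mem.1 h2

end toric

end Pool.Agent.Helper16.Wheel
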