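import Pool.Agent.Helper16.Wheel.Moebius

set_option linter.unusedSectionVars false

namespace Pool.Agent.Helper16.Wheel

open Finset

section
variable {ι : Type*} [Fintype ι] [DecidableEq ι] {m : ℤ} {b : Bool} {pos : ι → Option ℤ}
  {ψ ψ' ψ'' : ι → ℤ → Bool} {k : ℕ}

/-- Lemma L together with a reduction procedure at the gap `g`. -/
lemma conn_of_reduce' (hm : 0 < m) (g : ℤ) (P : (ι → ℤ → Bool) → (ι → ℤ → Bool) → Prop)
    (hred : ∀ ψ ψ', Same m b pos ψ ψ' → P ψ ψ' → (mis ψ ψ' g).Nonempty →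
      (∃ ψ₁, Step m b pos 2 ψ ψ₁ ∧ P ψ₁ ψ' ∧ mis ψ₁ ψ' g ⊂ mis ψ ψ' g) ∨
      (∃ ψ₁, Step m b pos 2 ψ' ψ₁ ∧ P ψ ψ₁ ∧ mis ψ ψ₁ g ⊂ mis ψ ψ' g))
    (hs : Same m b pos ψ ψ') (hP : P ψ ψ') : Conn m b pos 2 ψ ψ' := by
  have main : ∀ (l : ℕ) (ψ ψ' : ι → ℤ → Bool), Same m b pos ψ ψ' → P ψ ψ' →
      (mis ψ ψ' g).card = l → Conn m b pos 2 ψ ψ' := by
    intro l
    induction l using Nat.strong_induction_on with
    | _ l ih =>
      intro ψ ψ' hs hP hl
      rcases Finset.eq_empty_or_nonempty (mis ψ ψ' g) with he | hne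
      · exact conn_of_agree hm hs g (eq_of_mis_empty (funext hs.cnt) he)
      · rcases hred ψ ψ' hs hP hne with ⟨ψ₁, h1, h2, h3⟩ | ⟨ψ₁, h1, h2, h3⟩
        · exact h1.conn.trans (ih _ (hl ▸ Finset.card_lt_card h3) ψ₁ ψ' (h1.1.symm.trans hs) h2 rfl)
        · exact Conn.trans (ih _ (hl ▸ Finset.card_lt_card h3) ψ ψ₁ (hs.trans h1.1) h2 rfl)
            h1.conn.symm
  exact main _ ψ ψ' hs hP rfl

/-- `2` : gain rows (spoke at an even vertex), `1` : no spoke, `0` : loss rows -/
def ty (pos : ι → Option ℤ) (c : ι) : ℕ :=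
  (pos c).elim 1 (fun s => if Even s then 2 else 0)

/-- the rows of type `t` -/
def Tset (pos : ι → Option ℤ) (t : ℕ) : Finset ι := univ.filter (fun c => ty pos c = t)

lemma mem_Tset {c : ι} {t : ℕ} : c ∈ Tset pos t ↔ ty pos c = t := by simp [Tset]

lemma ty_cases (c : ι) : ty pos c = 0 ∨ ty pos c = 1 ∨ ty pos c = 2 := by
  unfold ty
  cases pos c with
  | none => simp
  | some s => simp only [Option.elim]; split_ifs <;> simp

lemma ty_one {c : ι} : ty pos c = 1 ↔ pos c = none := by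
  unfold ty
  cases pos c with
  | none => simp
  | some s => simp only [Option.elim]; split_ifs <;> simp

lemma Mark.ty (hme : Even m) {c : ι} {j : ℤ} (h : Mark m pos c j) :
    Wheel.ty pos c = if Even j then 2 else 0 := by
  obtain ⟨s, h1, h2⟩ := h
  have : Even j ↔ Even s := by
    have h3 : Even (j - s) := by
      obtain ⟨q, hq⟩ := h2
      rw [hq]; exact hme.mul_right q
    rw [Int.even_sub] at h3
    exact h3
  simp [Wheel.ty, h1, this]

lemma cnt_swapOn' {S : Finset ι} {A : ℤ → Prop} [DecidablePred A] {c c' : ι}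
    (h : c ∈ S ↔ c' ∈ S) (g : ℤ) :
    cnt S (swapOn A c c' ψ) g = cnt S ψ g := by
  have hS : ∀ x, Equiv.swap c c' x ∈ S ↔ x ∈ S := by
    intro x
    by_cases e1 : x = c
    · subst e1; rw [Equiv.swap_apply_left]; exact h.symm
    by_cases e2 : x = c'
    · subst e2; rw [Equiv.swap_apply_right]; exact h
    rw [Equiv.swap_apply_of_ne_of_ne e1 e2]
  unfold cnt swapOn
  by_cases hA : A g
  · simp only [hA, if_true]
    refine Finset.card_bij (fun x _ => Equiv.swap c c' x) ?_ ?_ ?_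
    · intro a ha; simpa [hS] using ha
    · intro a _ b _ h; exact (Equiv.swap c c').injective h
    · intro d hd
      exact ⟨Equiv.swap c c' d, by simpa [hS] using hd, by simp⟩
  · simp [hA]

lemma exists_rev {S : Finset ι} {g : ℤ} (h : cnt S ψ g = cnt S ψ' g) {c : ι} (hc : c ∈ S)
    (hcm : c ∈ mis ψ ψ' g) : ∃ c' ∈ S, c' ∈ mis ψ' ψ g := by
  by_contra hcon
  push Not at hcon
  have hsub : S.filter (fun c => ψ' c g = true) ⊂ S.filter (fun c => ψ c g = true) := by
    refine ⟨?_, ?_⟩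
    · intro x hx
      simp only [mem_filter] at hx ⊢
      refine ⟨hx.1, ?_⟩
      by_contra hx'
      exact hcon x hx.1 (mem_mis.2 ⟨hx.2, by simpa using hx'⟩)
    · intro hsub
      have hc1 : c ∈ S.filter (fun c => ψ c g = true) :=
        mem_filter.2 ⟨hc, (mem_mis.1 hcm).1⟩
      have := (mem_filter.1 (hsub hc1)).2
      rw [(mem_mis.1 hcm).2] at this
      simp at this
  have h1 := Finset.card_lt_card hsub
  unfold cnt at h
  omega

/-- exchanging two complete rows with the same marks -/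
lemma whole_step' (hψ : Valid m b pos ψ) {c c' : ι}
    (h : ∀ j, Mark m pos c j ↔ Mark m pos c' j) :
    Step m b pos 2 ψ (swapOn (fun _ => True) c c' ψ) :=
  swapOn_step hψ (hψ.swapOn (fun _ => Iff.rfl) (by simp) (by simp) (fun j _ => h j))

/-- a local exchange between an out row `a` and an in row `d` of the same marked type -/
lemma local_swap (hψ : Valid m b pos ψ) {a d : ι} {g sa sd : ℤ} {v : Bool}
    (ha : ψ a g = false) (hd : ψ d g = true) (ma : Mark m pos a sa) (md : Mark m pos d sd)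
    (a1 : sa ≤ g) (a2 : g < sa + m) (d1 : sd ≤ g) (d2 : g < sd + m)
    (va : ψ a sa = v) (va' : ψ a (sa + m - 1) = !v) (vd : ψ d sd = v)
    (vd' : ψ d (sd + m - 1) = !v)
    (hv : (v = true ∧ sd < sa) ∨ (v = false ∧ sa < sd)) :
    ∃ τ e, τ ≤ g ∧ g < e ∧ Sw m pos ψ a d τ e := by
  rcases hv with ⟨rfl, hlt⟩ | ⟨rfl, hlt⟩
  · have b1 : sa < g := by
      rcases eq_or_lt_of_le a1 with h | h
      · rw [← h, va] at ha; simp at ha
      · exact h
    have b2 : g < sd + m - 1 := by
      rcases eq_or_lt_of_le (show g ≤ sd + m - 1 by omega) with h | h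
      · rw [h, vd'] at hd; simp at hd
      · exact h
    obtain ⟨τ, e, h1, h2, h3, h4, h5, h6⟩ := two_sided hψ ha hd b1 b2 (Or.inl va)
      (Or.inr (by simpa using vd')) (by omega)
      (fun j hj1 hj2 => ⟨ma.not_between hj1 (by omega), md.not_between (by omega) (by omega)⟩)
    exact ⟨τ, e, h2, h3, h5⟩
  · have b1 : sd < g := by
      rcases eq_or_lt_of_le d1 with h | h
      · rw [← h, vd] at hd; simp at hd
      · exact h
    have b2 : g < sa + m - 1 := by
      rcases eq_or_lt_of_le (show g ≤ sa + m - 1 by omega) with h | h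
      · rw [h, va'] at ha; simp at ha
      · exact h
    obtain ⟨τ, e, h1, h2, h3, h4, h5, h6⟩ := two_sided hψ ha hd b1 b2 (Or.inr vd)
      (Or.inl (by simpa using va')) (by omega)
      (fun j hj1 hj2 => ⟨ma.not_between (by omega) (by omega), md.not_between hj1 (by omega)⟩)
    exact ⟨τ, e, h2, h3, h5⟩

lemma swapOn_comm {A : ℤ → Prop} [DecidablePred A] (c c' : ι) :
    swapOn A c c' ψ = swapOn A c' c ψ := by
  funext x g; simp [swapOn, Equiv.swap_comm]

/-- values of a marked row around its last mark, in the annulus case -/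
lemma mark_values (hme : Even m) (hψ : Valid m b pos ψ) {c : ι} {s : ℤ}
    (h : Mark m pos c s) : ψ c s = decide (ty pos c = 2) ∧ ψ c (s + m - 1) = !decide (ty pos c = 2) := by
  rw [h.ty hme]
  rcases Int.even_or_odd s with hs | hs
  · have h1 := (hψ.mark_even hs h).2
    have h2 := (hψ.mark_even (hs.add hme) h.add).1
    simp [hs, h1, h2]
  · have h1 := (hψ.mark_odd hs h).2
    have h2 := (hψ.mark_odd (hs.add_even hme) h.add).1
    simp [Int.not_even_iff_odd.2 hs, h1, h2]

/-- **Lemma E1.** Two states in the same fiber with the same type counts at one gap are connected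
by 2-row moves. -/
theorem conn_of_types (hm : 0 < m) (hme : Even m) (hs : Same m b pos ψ ψ') (g : ℤ)
    (h : ∀ t, cnt (Tset pos t) ψ g = cnt (Tset pos t) ψ' g) : Conn m b pos 2 ψ ψ' := by
  refine conn_of_reduce' hm g (fun ψ ψ' => ∀ t, cnt (Tset pos t) ψ g = cnt (Tset pos t) ψ' g) ?_
    hs h
  clear hs h
  rintro ψ ψ' hs h ⟨c, hc⟩
  obtain ⟨c', hc'S, hc'⟩ := exists_rev (h (ty pos c)) (mem_Tset.2 rfl) hc
  rw [mem_Tset] at hc'S
  rw [mem_mis] at hc hc'
  have hT : ∀ t, c ∈ Tset pos t ↔ c' ∈ Tset pos t := by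
    intro t; rw [mem_Tset, mem_Tset, hc'S]
  by_cases hty : pos c = none
  · left
    have hty' : pos c' = none := by rw [← ty_one, hc'S, ty_one, hty]
    refine ⟨_, whole_step hs.left (c := c) (c' := c') (by rw [hty, hty']), ?_,
      mis_sw_left trivial hc.1 hc'.2 hc.2 hc'.1⟩
    intro t
    rw [cnt_swapOn' (hT t), h t]
  have hty' : pos c' ≠ none := by rwa [ne_eq, ← ty_one, hc'S, ty_one]
  obtain ⟨s, s1, s2, s3⟩ := exists_last_mark hm hty g
  obtain ⟨s', s1', s2', s3'⟩ := exists_last_mark hm hty' g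
  obtain ⟨v1, v2⟩ := mark_values hme hs.left s1
  obtain ⟨v1', v2'⟩ := mark_values hme hs.left s1'
  obtain ⟨w1, w2⟩ := mark_values hme hs.right s1
  obtain ⟨w1', w2'⟩ := mark_values hme hs.right s1'
  rw [hc'S] at v1' v2' w1' w2'
  have main : s = s' ∨ ((decide (ty pos c = 2) = true ∧ s < s') ∨
      (decide (ty pos c = 2) = false ∧ s' < s)) ∨
      ((decide (ty pos c = 2) = true ∧ s' < s) ∨ (decide (ty pos c = 2) = false ∧ s < s')) := by
    cases decide (ty pos c = 2)
    · rcases lt_trichotomy s s' with hh | hh | hh <;> simp [hh]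
    · rcases lt_trichotomy s s' with hh | hh | hh <;> simp [hh]
  rcases main with heq | hT1 | hT2
  · left
    subst heq
    have hmk : ∀ j, Mark m pos c j ↔ Mark m pos c' j := by
      intro j
      constructor
      · intro hj; exact s1'.congr (s1.dvd hj)
      · intro hj; exact s1.congr (s1'.dvd hj)
    refine ⟨_, whole_step' hs.left (c := c) (c' := c') hmk, ?_,
      mis_sw_left trivial hc.1 hc'.2 hc.2 hc'.1⟩
    intro t
    rw [cnt_swapOn' (hT t), h t]
  · left
    obtain ⟨τ, e, t1, t2, hsw⟩ := local_swap hs.left (a := c') (d := c) hc'.2 hc.1 s1' s1 s2' s3'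
      s2 s3 v1' v2' v1 v2 hT1
    have hA : arc m τ (e - τ) g := by
      have := hsw.lt'
      rw [arc_of_ge (by omega) (by omega)]; omega
    refine ⟨_, hsw.step hs.left, ?_, ?_⟩
    · intro t
      rw [sw, cnt_swapOn' (hT t).symm, h t]
    · rw [sw, swapOn_comm]
      exact mis_sw_left hA hc.1 hc'.2 hc.2 hc'.1
  · right
    obtain ⟨τ, e, t1, t2, hsw⟩ := local_swap hs.right (a := c) (d := c') hc.2 hc'.1 s1 s1' s2 s3
      s2' s3' w1 w2 w1' w2' hT2
    have hA : arc m τ (e - τ) g := by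
      have := hsw.lt'
      rw [arc_of_ge (by omega) (by omega)]; omega
    refine ⟨_, hsw.step hs.right, ?_, ?_⟩
    · intro t
      rw [sw, cnt_swapOn' (hT t), h t]
    · exact mis_sw_right hA hc.1 hc'.2 hc.2 hc'.1

end

end Pool.Agent.Helper16.Wheel
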