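import Pool.Agent.Helper16.Wheel.Encode
import Pool.Agent.Helper16.Wheel.Toric

set_option linter.unusedSectionVars false

namespace Pool.Agent.Helper16.Wheel

open Finset

section general
variable {V : Type*} {G : SimpleGraph V}

open Classical in
/-- exponent vector of a matching -/
noncomputable def expo (M : Matching G) : Option G.edgeSet →₀ ℕ :=
  Finsupp.single none 1 + ∑ e ∈ M.1, Finsupp.single (some e) 1

lemma expo_none (M : Matching G) : expo M none = 1 := by
  unfold expo
  rw [Finsupp.add_apply, Finsupp.finsetSum_apply]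
  simp

open Classical in
lemma expo_some (M : Matching G) (e : G.edgeSet) : expo M (some e) = if e ∈ M.1 then 1 else 0 := by
  unfold expo
  rw [Finsupp.add_apply, Finsupp.finsetSum_apply]
  simp [Finsupp.single_apply]

lemma toricIdeal_eq (K : Type*) [Field K] : toricIdeal K G = torI expo K := by
  unfold toricIdeal torI tor
  congr 2
  funext M
  unfold expo
  have h : ∀ a b : Option G.edgeSet →₀ ℕ, MvPolynomial.monomial (a + b) (1 : K) =
      MvPolynomial.monomial a 1 * MvPolynomial.monomial b 1 := by
    intro a b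
    rw [MvPolynomial.monomial_mul, one_mul]
  rw [h, MvPolynomial.monomial_sum_one]
  rfl

lemma EE_tuple {ι : Type*} [Fintype ι] (T : ι → Matching G) :
    EE expo (∑ i, Finsupp.single (T i) 1) = ∑ i, expo (T i) := by
  rw [EE_sum]
  simp [EE_single]

lemma sum_expo_none {ι : Type*} (s : Finset ι) (T : ι → Matching G) :
    (∑ i ∈ s, expo (T i)) none = s.card := by
  rw [Finsupp.finsetSum_apply]
  simp [expo_none]

open Classical in
/-- number of matchings of the tuple containing the edge `e` -/
noncomputable def ecount {ι : Type*} [Fintype ι] (T : ι → Matching G) (e : G.edgeSet) : ℕ :=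
  (univ.filter (fun i => e ∈ (T i).1)).card

open Classical in
lemma ecount_eq {ι : Type*} [Fintype ι] (T : ι → Matching G) (e : G.edgeSet) {P : ι → Prop}
    (h : ∀ i, e ∈ (T i).1 ↔ P i) : ecount T e = (univ.filter P).card := by
  unfold ecount
  congr 1
  ext i
  simp [h]

lemma ecount_congr {ι : Type*} [Fintype ι] {T T' : ι → Matching G} {e : G.edgeSet}
    (h : ∀ i, e ∈ (T i).1 ↔ e ∈ (T' i).1) : ecount T e = ecount T' e := by
  unfold ecount
  congr 1
  ext i
  simp [h]

lemma ecount_perm {ι : Type*} [Fintype ι] (T : ι → Matching G) (s : Equiv.Perm ι) (e : G.edgeSet) :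
    ecount (fun i => T (s i)) e = ecount T e := by
  unfold ecount
  refine (Finset.card_bij (fun i _ => s i) ?_ ?_ ?_)
  · intro i hi; simpa using hi
  · intro i _ j _ hij; exact s.injective hij
  · intro i hi
    exact ⟨s.symm i, by simpa using hi, by simp⟩

lemma sum_expo_some {ι : Type*} [Fintype ι] (T : ι → Matching G) (e : G.edgeSet) :
    (∑ i, expo (T i)) (some e) = ecount T e := by
  classical
  unfold ecount
  rw [Finsupp.finsetSum_apply, Finset.card_filter]
  simp [expo_some]

lemma sum_expo_eq {ι : Type*} [Fintype ι] {T T' : ι → Matching G}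
    (h : ∀ e, ecount T e = ecount T' e) :
    ∑ i, expo (T i) = ∑ i, expo (T' i) := by
  ext x
  cases x with
  | none => rw [sum_expo_none, sum_expo_none]
  | some e => rw [sum_expo_some, sum_expo_some, h]

end general

lemma perm_of_fibers {ι α : Type*} [Fintype ι] [DecidableEq α] {f g : ι → α}
    (h : ∀ a, (univ.filter (fun i => f i = a)).card = (univ.filter (fun i => g i = a)).card) :
    ∃ s : Equiv.Perm ι, ∀ i, g (s i) = f i := by
  have e : ∀ a, Nonempty ({i // f i = a} ≃ {i // g i = a}) := by
    intro a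
    apply Fintype.card_eq.1
    rw [Fintype.card_subtype, Fintype.card_subtype]
    exact h a
  exact ⟨Equiv.ofFiberEquiv (fun a => (e a).some), fun i => Equiv.ofFiberEquiv_map _ i⟩

section
variable {n : ℕ} (hn : 3 ≤ n)

lemma Rof_even {ρ : ℤ → Bool} {j : ℤ} (hj : Even j) : Rof ρ j ↔ ρ j = false := by
  unfold Rof
  have : ¬ Odd j := Int.not_odd_iff_even.2 hj
  simp [this]

lemma Rof_odd {ρ : ℤ → Bool} {j : ℤ} (hj : Odd j) : Rof ρ j ↔ ρ j = true := by
  unfold Rof
  simp [hj]

/-- the parity of the length of the rim -/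
def par (n : ℕ) : Bool := decide (Odd (n : ℤ))

lemma valid_of_rowOK {ι : Type*} {pos : ι → Option ℤ} {ψ : ι → ℤ → Bool}
    (h : ∀ c, RowOK n (ψ c) (pos c)) : Valid (n : ℤ) (par n) pos ψ := by
  refine ⟨?_, ?_, ?_, ?_⟩
  · intro c j hj h1
    have h2 := (h c).disj j
    rw [Rof_even hj, Rof_odd (hj.sub_odd odd_one)] at h2
    cases h3 : ψ c j
    · exact absurd ⟨h1, h3⟩ h2
    · rfl
  · intro c j hj h1
    have h2 := (h c).disj j
    rw [Rof_odd hj, Rof_even (hj.sub_odd odd_one)] at h2
    cases h3 : ψ c (j - 1)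
    · exact absurd ⟨h3, h1⟩ h2
    · rfl
  · rintro c j ⟨s, h1, h2⟩
    have h3 := (h c).sp j s h1 h2
    rcases Int.even_or_odd j with hj | hj
    · rw [Rof_even hj, Rof_odd (hj.sub_odd odd_one)] at h3
      cases h4 : ψ c j <;> cases h5 : ψ c (j - 1) <;> simp_all
    · rw [Rof_odd hj, Rof_even (hj.sub_odd odd_one)] at h3
      cases h4 : ψ c j <;> cases h5 : ψ c (j - 1) <;> simp_all
  · intro c j
    have h1 := (h c).per j
    unfold par
    rcases Int.even_or_odd (n : ℤ) with hm | hm
    · have hd : decide (Odd (n : ℤ)) = false := by simpa using hm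
      rw [hd, Bool.xor_false]
      rcases Int.even_or_odd j with hj | hj
      · rw [Rof_even hj, Rof_even (hj.add hm)] at h1
        cases h4 : ψ c j <;> cases h5 : ψ c (j + n) <;> simp_all
      · rw [Rof_odd hj, Rof_odd (hj.add_even hm)] at h1
        cases h4 : ψ c j <;> cases h5 : ψ c (j + n) <;> simp_all
    · have hd : decide (Odd (n : ℤ)) = true := by simpa using hm
      rw [hd, Bool.xor_true]
      rcases Int.even_or_odd j with hj | hj
      · rw [Rof_even hj, Rof_odd (hj.add_odd hm)] at h1
        cases h4 : ψ c j <;> cases h5 : ψ c (j + n) <;> simp_all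
      · rw [Rof_odd hj, Rof_even (hj.add_odd hm)] at h1
        cases h4 : ψ c j <;> cases h5 : ψ c (j + n) <;> simp_all

lemma rowOK_of_valid {ι : Type*} [DecidableEq ι] {pos : ι → Option ℤ} {ψ : ι → ℤ → Bool}
    (h : Valid (n : ℤ) (par n) pos ψ) (c : ι) : RowOK n (ψ c) (pos c) := by
  refine ⟨?_, ?_, ?_⟩
  · intro j
    have h1 := h.per c j
    unfold par at h1
    rcases Int.even_or_odd (n : ℤ) with hm | hm
    · have hd : decide (Odd (n : ℤ)) = false := by simpa using hm
      rw [hd, Bool.xor_false] at h1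
      rcases Int.even_or_odd j with hj | hj
      · rw [Rof_even hj, Rof_even (hj.add hm), h1]
      · rw [Rof_odd hj, Rof_odd (hj.add_even hm), h1]
    · have hd : decide (Odd (n : ℤ)) = true := by simpa using hm
      rw [hd, Bool.xor_true] at h1
      rcases Int.even_or_odd j with hj | hj
      · rw [Rof_even hj, Rof_odd (hj.add_odd hm), h1]; simp
      · rw [Rof_odd hj, Rof_even (hj.add_odd hm), h1]; simp
  · rintro j ⟨h1, h2⟩
    rcases Int.even_or_odd j with hj | hj
    · rw [Rof_odd (hj.sub_odd odd_one)] at h1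
      rw [Rof_even hj, h.even c j hj h1] at h2
      simp at h2
    · rw [Rof_even (hj.sub_odd odd_one)] at h1
      rw [Rof_odd hj] at h2
      rw [h.odd c j hj h2] at h1
      simp at h1
  · intro j s h1 h2
    rcases Int.even_or_odd j with hj | hj
    · have h3 := h.mark_even hj (c := c) ⟨s, h1, h2⟩
      rw [Rof_odd (hj.sub_odd odd_one), Rof_even hj, h3.1, h3.2]
      simp
    · have h3 := h.mark_odd hj (c := c) ⟨s, h1, h2⟩
      rw [Rof_even (hj.sub_odd odd_one), Rof_odd hj, h3.1, h3.2]
      simp

/-- the tuple of matchings of a state -/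
noncomputable def tup {ι : Type*} (pos : ι → Option ℤ) (ψ : ι → ℤ → Bool) :
    ι → Matching (wheel (n + 1)) := fun c => matOf hn (ψ c) (pos c)

open Classical in
lemma card_rim {ι : Type*} [Fintype ι] [DecidableEq ι] (ψ : ι → ℤ → Bool) (j : ℤ) :
    (univ.filter (fun i => Rof (ψ i) j)).card =
      if Even j then Fintype.card ι - cnt univ ψ j else cnt univ ψ j := by
  split_ifs with hj
  · have : univ.filter (fun i => Rof (ψ i) j) = (univ.filter (fun i => ψ i j = true))ᶜ := by
      ext i
      simp [Rof_even hj]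
    rw [this, Finset.card_compl]
    rfl
  · unfold cnt
    congr 1
    ext i
    simp [Rof_odd (Int.not_even_iff_odd.1 hj)]

lemma mem_tup_rim {ι : Type*} [DecidableEq ι] {pos : ι → Option ℤ} {ψ : ι → ℤ → Bool}
    (h : Valid (n : ℤ) (par n) pos ψ) (i : ι) (j : ℤ) :
    rimE hn j ∈ (tup hn pos ψ i).1 ↔ Rof (ψ i) j := by
  unfold tup
  rw [matOf_val hn (rowOK_of_valid h i), rim_mem_mset hn (rowOK_of_valid h i)]

lemma mem_tup_sp {ι : Type*} [DecidableEq ι] {pos : ι → Option ℤ} {ψ : ι → ℤ → Bool}
    (h : Valid (n : ℤ) (par n) pos ψ) (i : ι) (j : ℤ) :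
    spE hn j ∈ (tup hn pos ψ i).1 ↔ ∃ s, pos i = some s ∧ (n : ℤ) ∣ j - s := by
  unfold tup
  rw [matOf_val hn (rowOK_of_valid h i), sp_mem_mset]

lemma expo_of_same {ι : Type*} [Fintype ι] [DecidableEq ι] {pos : ι → Option ℤ}
    {ψ ψ' : ι → ℤ → Bool} (h : Same (n : ℤ) (par n) pos ψ ψ') :
    ∑ c, expo (tup hn pos ψ c) = ∑ c, expo (tup hn pos ψ' c) := by
  apply sum_expo_eq
  intro e
  obtain ⟨j, rfl | rfl⟩ := edge_cases hn e
  · rw [ecount_eq _ _ (fun i => mem_tup_rim hn h.left i j),
      ecount_eq _ _ (fun i => mem_tup_rim hn h.right i j), card_rim, card_rim, h.cnt]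
  · apply ecount_congr
    intro i
    rw [mem_tup_sp hn h.left, mem_tup_sp hn h.right]

lemma same_of_expo {ι : Type*} [Fintype ι] [DecidableEq ι] {pos : ι → Option ℤ}
    {T T' : ι → Matching (wheel (n + 1))}
    (hT : ∀ c, posOf hn (T c) = pos c) (hT' : ∀ c, posOf hn (T' c) = pos c)
    (h : ∀ e, ecount T e = ecount T' e) :
    Same (n : ℤ) (par n) pos (fun c => rowOf hn (T c)) (fun c => rowOf hn (T' c)) := by
  have hv : ∀ T : ι → Matching (wheel (n + 1)), (∀ c, posOf hn (T c) = pos c) →
      Valid (n : ℤ) (par n) pos (fun c => rowOf hn (T c)) := by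
    intro T hT
    apply valid_of_rowOK
    intro c
    rw [← hT c]
    exact rowOK_rowOf hn (T c)
  refine ⟨hv T hT, hv T' hT', fun g => ?_⟩
  have h1 := h (rimE hn g)
  rw [ecount_eq T _ (fun i => (Rof_rowOf hn (T i) g).symm),
    ecount_eq T' _ (fun i => (Rof_rowOf hn (T' i) g).symm), card_rim, card_rim] at h1
  have h3 : ∀ ψ : ι → ℤ → Bool, cnt univ ψ g ≤ Fintype.card ι := fun ψ =>
    (Finset.card_filter_le _ _).trans (by simp)
  have h4 := h3 (fun c => rowOf hn (T c))
  have h5 := h3 (fun c => rowOf hn (T' c))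
  split_ifs at h1 with hg
  · omega
  · exact h1

lemma tup_rowOf {ι : Type*} {pos : ι → Option ℤ} {T : ι → Matching (wheel (n + 1))}
    (hT : ∀ c, posOf hn (T c) = pos c) : tup hn pos (fun c => rowOf hn (T c)) = T := by
  funext c
  unfold tup
  simp only
  rw [← hT c, matOf_rowOf]

/-- exponent of the monomial of a tuple -/
noncomputable def ex {ι σ : Type*} [Fintype ι] (T : ι → σ) : σ →₀ ℕ :=
  ∑ i, Finsupp.single (T i) 1

lemma step_mem {K : Type*} [Field K] {k : ℕ} {ι : Type*} [Fintype ι] [DecidableEq ι]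
    {pos : ι → Option ℤ} {ψ ψ' : ι → ℤ → Bool} (h : Step (n : ℤ) (par n) pos k ψ ψ') :
    MvPolynomial.monomial (ex (tup hn pos ψ)) (1 : K) -
      MvPolynomial.monomial (ex (tup hn pos ψ')) 1 ∈ Ideal.span (lowSet (torI expo K) k) := by
  obtain ⟨hs, D, hD, hDD⟩ := h
  set A := ∑ i ∈ Dᶜ, Finsupp.single (tup hn pos ψ i) 1 with hA
  set B := ∑ i ∈ D, Finsupp.single (tup hn pos ψ i) 1 with hB
  set B' := ∑ i ∈ D, Finsupp.single (tup hn pos ψ' i) 1 with hB'
  have e1 : ex (tup hn pos ψ) = A + B := by
    rw [add_comm A B]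
    exact (Finset.sum_add_sum_compl D _).symm
  have e2 : ex (tup hn pos ψ') = A + B' := by
    have : A = ∑ i ∈ Dᶜ, Finsupp.single (tup hn pos ψ' i) 1 := by
      rw [hA]
      apply Finset.sum_congr rfl
      intro i hi
      rw [Finset.mem_compl] at hi
      unfold tup
      rw [hDD i hi]
    rw [this, add_comm _ B']
    exact (Finset.sum_add_sum_compl D _).symm
  have hEE : EE expo B = EE expo B' := by
    have h1 : EE expo (ex (tup hn pos ψ)) = EE expo (ex (tup hn pos ψ')) := by
      rw [ex, ex, EE_tuple, EE_tuple, expo_of_same hn hs]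
    rw [e1, e2, EE_add, EE_add] at h1
    exact add_left_cancel h1
  have hdeg : ∀ T : ι → Matching (wheel (n + 1)),
      (∑ i ∈ D, Finsupp.single (T i) 1).degree = D.card := by
    intro T
    rw [map_sum]
    simp
  have hfac : MvPolynomial.monomial (A + B) (1 : K) - MvPolynomial.monomial (A + B') 1 =
      MvPolynomial.monomial A 1 * (MvPolynomial.monomial B 1 - MvPolynomial.monomial B' 1) := by
    rw [mul_sub, MvPolynomial.monomial_mul, MvPolynomial.monomial_mul, one_mul]
  rw [e1, e2, hfac]
  apply Ideal.mul_mem_left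
  apply Ideal.subset_span
  refine ⟨?_, D.card, hD, ?_⟩
  · rw [torI, RingHom.mem_ker, map_sub, tor_monomial, tor_monomial, hEE, sub_self]
  · exact (MvPolynomial.isHomogeneous_monomial _ (hdeg _)).sub
      (MvPolynomial.isHomogeneous_monomial _ (hdeg _))

lemma conn_mem {K : Type*} [Field K] {k : ℕ} {ι : Type*} [Fintype ι] [DecidableEq ι]
    {pos : ι → Option ℤ} {ψ ψ' : ι → ℤ → Bool} (h : Conn (n : ℤ) (par n) pos k ψ ψ') :
    MvPolynomial.monomial (ex (tup hn pos ψ)) (1 : K) -
      MvPolynomial.monomial (ex (tup hn pos ψ')) 1 ∈ Ideal.span (lowSet (torI expo K) k) := by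
  induction h with
  | refl => rw [sub_self]; exact Ideal.zero_mem _
  | tail _ h2 ih =>
    have := Ideal.add_mem _ ih (step_mem (K := K) hn h2)
    rwa [sub_add_sub_cancel] at this

/-- Any other factorisation can be aligned with a given tuple. -/
lemma align {r : ℕ} (T : Fin r → Matching (wheel (n + 1))) {v : Matching (wheel (n + 1)) →₀ ℕ}
    (h : EE expo v = EE expo (ex T)) :
    ∃ T' : Fin r → Matching (wheel (n + 1)), ex T' = v ∧
      (∀ i, posOf hn (T' i) = posOf hn (T i)) ∧
      Same (n : ℤ) (par n) (fun i => posOf hn (T i)) (fun c => rowOf hn (T c))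
        (fun c => rowOf hn (T' c)) := by
  classical
  obtain ⟨T₀, hT₀⟩ := exists_tuple v
  have hTE : EE expo (ex T) = ∑ i, expo (T i) := by rw [← EE_tuple]; rfl
  have hTE₀ : EE expo v = ∑ i, expo (T₀ i) := by rw [← EE_tuple, hT₀]
  have hdeg : r = v.degree := by
    have h1 := congrArg (fun f => f none) h
    simp only [hTE, hTE₀] at h1
    rw [sum_expo_none, sum_expo_none] at h1
    simpa using h1.symm
  obtain ⟨T', hT', hTE'⟩ : ∃ T' : Fin r → Matching (wheel (n + 1)),
      ∑ i, Finsupp.single (T' i) 1 = v ∧ EE expo v = ∑ i, expo (T' i) := by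
    subst hdeg
    exact ⟨T₀, hT₀, hTE₀⟩
  have hcnt : ∀ e, ecount T e = ecount T' e := by
    intro e
    have h1 := congrArg (fun f => f (some e)) h
    simp only [hTE, hTE'] at h1
    rw [sum_expo_some, sum_expo_some] at h1
    exact h1.symm
  -- fibers of the position maps
  have hfib : ∀ a : Option ℤ, (univ.filter (fun i => posOf hn (T i) = a)).card =
      (univ.filter (fun i => posOf hn (T' i) = a)).card := by
    have hsome : ∀ s : ℤ, (univ.filter (fun i => posOf hn (T i) = some s)).card =
      (univ.filter (fun i => posOf hn (T' i) = some s)).card := by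
      intro s
      by_cases hs : 0 ≤ s ∧ s < n
      · have h1 := hcnt (spE hn s)
        rw [ecount_eq T _ (fun i => (posOf_eq_some_iff hn (T i) hs.1 hs.2).symm),
          ecount_eq T' _ (fun i => (posOf_eq_some_iff hn (T' i) hs.1 hs.2).symm)] at h1
        convert h1
      · have hz : ∀ T : Fin r → Matching (wheel (n + 1)),
            univ.filter (fun i => posOf hn (T i) = some s) = ∅ := by
          intro T
          rw [Finset.filter_eq_empty_iff]
          intro i _ hi
          have := posOf_spec hn _ hi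
          exact hs ⟨this.1, this.2.1⟩
        rw [hz, hz]
    intro a
    cases a with
    | some s => exact hsome s
    | none =>
      have hsplit : ∀ T : Fin r → Matching (wheel (n + 1)),
          (univ.filter (fun i => posOf hn (T i) = none)).card +
          ∑ s ∈ Finset.Ico (0 : ℤ) n, (univ.filter (fun i => posOf hn (T i) = some s)).card =
            r := by
        intro T
        have h1 : (univ.filter (fun i => ¬ (posOf hn (T i) = none))).card =
            ∑ s ∈ Finset.Ico (0 : ℤ) n, (univ.filter (fun i => posOf hn (T i) = some s)).card := by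
          rw [← Finset.card_biUnion]
          · congr 1
            ext i
            simp only [mem_filter, mem_univ, true_and, mem_biUnion, Finset.mem_Ico]
            constructor
            · intro hi
              obtain ⟨s, hs⟩ := Option.ne_none_iff_exists'.1 hi
              have := posOf_spec hn _ hs
              exact ⟨s, ⟨this.1, this.2.1⟩, hs⟩
            · rintro ⟨s, -, hs⟩
              rw [hs]; simp
          · intro s _ s' _ hss
            rw [Function.onFun, Finset.disjoint_left]
            intro i hi hi'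
            simp only [mem_filter, mem_univ, true_and] at hi hi'
            rw [hi] at hi'
            exact hss (Option.some.inj hi')
        rw [← h1, Finset.card_filter_add_card_filter_not]
        simp
      have s1 := hsplit T
      have s2 := hsplit T'
      rw [Finset.sum_congr rfl (fun s _ => hsome s)] at s1
      omega
  obtain ⟨σ, hσ⟩ := perm_of_fibers hfib
  have hcnt' : ∀ e, ecount T e = ecount (fun i => T' (σ i)) e := by
    intro e
    rw [hcnt e, ecount_perm]
  refine ⟨fun i => T' (σ i), ?_, hσ, same_of_expo hn (fun _ => rfl) hσ hcnt'⟩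
  unfold ex
  rw [← hT']
  exact Equiv.sum_comp σ (fun i => Finsupp.single (T' i) 1)

include hn in
/-- Connectivity of all fibers by moves of size `k` bounds the degrees of generators. -/
theorem upper (K : Type*) [Field K] (k : ℕ)
    (hconn : ∀ (r : ℕ) (pos : Fin r → Option ℤ) (ψ ψ' : Fin r → ℤ → Bool),
      Same (n : ℤ) (par n) pos ψ ψ' → Conn (n : ℤ) (par n) pos k ψ ψ') :
    Ideal.span (lowSet (toricIdeal K (wheel (n + 1))) k) = toricIdeal K (wheel (n + 1)) := by
  rw [toricIdeal_eq]
  apply le_antisymm (span_lowSet_le _ _)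
  apply torI_le
  intro u v huv
  obtain ⟨T, hT⟩ := exists_tuple u
  have hT : ex T = u := hT
  obtain ⟨T', h1, h2, h3⟩ := align hn T (v := v) (by rw [hT, huv])
  have hc := conn_mem (K := K) hn (hconn _ _ _ _ h3)
  rw [tup_rowOf hn (fun _ => rfl), tup_rowOf hn h2, hT, h1] at hc
  exact hc

end

end Pool.Agent.Helper16.Wheel
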